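import Pool.Agent.RG88.Defs

/-!
# The number of integers prime to `P = primorial z` in an interval

`P` consecutive integers contain exactly `φ(P) = P / mert z` integers prime to `P` (`Nat.filter_coprime_Ico_eq_totient`,
`Nat.totient_mul_prod_primeFactors` or `Nat.totient_eq_mul_prod_factors`: `φ(P) = P ∏ (1 - 1/p)` over the primes `p ≤ z`). Write
`v - u = q P + r`, `r < P`: the number is `q φ(P)` plus a number between `0` and `r`.
-/

set_option autoImplicit false

namespace Pool.Agent.RG88

open MeasureTheory Filter Pool.Agent.RS88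

theorem cop_totient (z : ℕ) :
    ((primorial z).totient : ℝ) = primorial z / Pool.Agent.GM53.mert z := by
  have h1 := Nat.totient_eq_mul_prod_factors (primorial z)
  have h2 : (primorial z).primeFactors = (Finset.range (z + 1)).filter Nat.Prime := by
    unfold primorial
    exact Nat.primeFactors_prod fun p hp => (Finset.mem_filter.1 hp).2
  rw [h2] at h1
  have h3 : (((primorial z).totient : ℚ) : ℝ) = ((((primorial z : ℕ) : ℚ) *
      ∏ p ∈ (Finset.range (z + 1)).filter Nat.Prime, (1 - (p : ℚ)⁻¹) : ℚ) : ℝ) := by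
    rw [h1]
  push_cast at h3
  rw [h3]
  unfold Pool.Agent.GM53.mert
  rw [Finset.prod_inv_distrib, div_inv_eq_mul]
  congr 1
  exact Finset.prod_congr rfl fun p _ => by rw [one_div]

theorem cop_block (P n q : ℕ) :
    (((Finset.Ico n (n + q * P)).filter (fun m => m.Coprime P)).card) = q * P.totient := by
  induction q with
  | zero => simp
  | succ q ih =>
    rw [Finset.card_filter] at ih ⊢
    have h1 : n + (q + 1) * P = n + q * P + P := by ring
    rw [h1, ← Finset.sum_Ico_consecutive (fun m => if m.Coprime P then 1 else 0)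
      (Nat.le_add_right n (q * P)) (Nat.le_add_right (n + q * P) P), ih, ← Finset.card_filter]
    have h2 := Nat.filter_coprime_Ico_eq_totient P (n + q * P)
    have h3 : ((Finset.Ico (n + q * P) (n + q * P + P)).filter (fun m => m.Coprime P)).card =
        P.totient := by
      rw [← h2]
      congr 1
      exact Finset.filter_congr fun m _ => Nat.coprime_comm
    rw [h3]
    ring

theorem cop_count (z : ℕ) {u v : ℕ} (huv : u ≤ v) :
    |(((Finset.Ico u v).filter (fun m => m.Coprime (primorial z))).card : ℝ) -
      ((v : ℝ) - u) / Pool.Agent.GM53.mert z| ≤ primorial z := by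
  obtain ⟨P, hP⟩ : ∃ P, P = primorial z := ⟨_, rfl⟩
  have hP0 : 0 < P := by
    rw [hP]
    exact primorial_pos z
  obtain ⟨q, hq⟩ : ∃ q, q = (v - u) / P := ⟨_, rfl⟩
  obtain ⟨r, hr⟩ : ∃ r, r = (v - u) % P := ⟨_, rfl⟩
  have hqr : v - u = q * P + r := by
    rw [hq, hr, mul_comm]
    exact (Nat.div_add_mod _ _).symm
  have hrP : r < P := by
    rw [hr]
    exact Nat.mod_lt _ hP0
  have hv : v = u + q * P + r := by omega
  have hM := one_le_mert z
  have hM0 : 0 < Pool.Agent.GM53.mert z := by linarith
  have h1 : ((Finset.Ico u v).filter (fun m => m.Coprime P)).card =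
      q * P.totient + ((Finset.Ico (u + q * P) v).filter (fun m => m.Coprime P)).card := by
    rw [← cop_block P u q, Finset.card_filter, Finset.card_filter, Finset.card_filter,
      Finset.sum_Ico_consecutive _ (Nat.le_add_right u (q * P)) (by omega)]
  have h2 : ((Finset.Ico (u + q * P) v).filter (fun m => m.Coprime P)).card ≤ r := by
    refine (Finset.card_filter_le _ _).trans ?_
    rw [Nat.card_Ico]
    omega
  have h3 : (P.totient : ℝ) = P / Pool.Agent.GM53.mert z := by
    rw [hP]
    exact cop_totient z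
  have h4 : ((v : ℝ) - u) = q * P + r := by
    rw [hv]
    push_cast
    ring
  rw [← hP, h1, h4]
  push_cast
  rw [h3]
  have hr0 : (0 : ℝ) ≤ r := Nat.cast_nonneg r
  have hrP' : (r : ℝ) ≤ P := by exact_mod_cast hrP.le
  have h5 : (r : ℝ) / Pool.Agent.GM53.mert z ≤ r := div_le_self hr0 hM
  have h6 : 0 ≤ (r : ℝ) / Pool.Agent.GM53.mert z := by positivity
  have h7 : ((((Finset.Ico (u + q * P) v).filter (fun m => m.Coprime P)).card : ℕ) : ℝ) ≤ r := by
    exact_mod_cast h2
  have h8 : (0 : ℝ) ≤ ((((Finset.Ico (u + q * P) v).filter (fun m => m.Coprime P)).card : ℕ) : ℝ) :=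
    Nat.cast_nonneg _
  have h9 : ((q : ℝ) * P + r) / Pool.Agent.GM53.mert z =
      q * (P / Pool.Agent.GM53.mert z) + r / Pool.Agent.GM53.mert z := by
    rw [add_div, mul_div_assoc]
  rw [h9, abs_le]
  constructor <;> linarith

end Pool.Agent.RG88
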