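import Pool.Agent.RS88.CaseA
import Pool.Agent.RS88.CaseB

/-!
# The multiplier in the two cases

From the proofs in RS88/CaseAS8 (`key`: `elt ω (n - m) = g (n - m) + x`, `x ≤ n - m`, `1 ≤ x`, so `res = x` by `res_eq`) and
RS88/CaseBS98 (`one98`: `E = (y / n - 1) (n - m) + x`).
-/

set_option autoImplicit false

namespace Pool.Agent.RG88

open MeasureTheory Filter Pool.Agent.RS88

theorem caseA_id : ∀ᶠ f : ℕ in atTop, ∀ (ω : ℕ → Bool) (n m : ℕ),
    2 ^ (320 * f) ≤ n → Slp f n ω → 2 ^ (15 * f) < elt ω n % n →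
    2 ^ f / f ≤ m → m ≤ 2 ^ (5 * f) →
    elt ω (n - m) = elt ω n / n * (n - m) + res ω (n - m) := by
  filter_upwards [eventually_ge_atTop 16] with f hf ω n m hn hS hR m1 m2
  have a1 : 2 ^ (5 * f) < n := lt_of_lt_of_le (Nat.pow_lt_pow_right (by norm_num) (by omega)) hn
  have a2 : 2 ^ (5 * f) ≤ 2 ^ (100 * f) := Nat.pow_le_pow_right (by norm_num) (by omega)
  have a3 := CaseAS8.num1 hf
  have a4 := CaseAS8.num2 hf
  have p5 : 0 < 2 ^ (5 * f) := Nat.pow_pos (by norm_num)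
  have p8 : 0 < 2 ^ (f / 8) := Nat.pow_pos (by norm_num)
  have p0 : 0 < n := lt_trans p5 a1
  have a4' : (1000 : ℝ) * f * 2 ^ (5 * f) + 2 ^ (5 * f) ≤ 2 ^ (15 * f) := by exact_mod_cast a4
  have hn0 : (0 : ℝ) < n := by exact_mod_cast p0
  obtain ⟨y, hy⟩ : ∃ y, y = elt ω n := ⟨_, rfl⟩
  obtain ⟨g, hg⟩ : ∃ g, g = y / n := ⟨_, rfl⟩
  obtain ⟨R, hR'⟩ : ∃ R, R = y % n := ⟨_, rfl⟩
  have hRn : R < n := by
    rw [hR']
    exact Nat.mod_lt _ p0
  rw [← hy, ← hR'] at hR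
  have hdiv : y = g * n + R := by
    rw [hg, hR']
    exact (Nat.div_add_mod' y n).symm
  have hdiv' : (y : ℝ) = g * n + R := by exact_mod_cast hdiv
  have hRn' : (R : ℝ) < n := by exact_mod_cast hRn
  have hR0 : (0 : ℝ) ≤ R := Nat.cast_nonneg _
  have hR2 : (2 : ℝ) ^ (15 * f) < R := by exact_mod_cast hR
  obtain ⟨ρ, hρ⟩ : ∃ ρ : ℝ, ρ = (y : ℝ) / n := ⟨_, rfl⟩
  have hρ0 : ρ * n = y := by
    rw [hρ]
    field_simp
  have hρ1 : (g : ℝ) ≤ ρ := by
    rw [hρ, le_div_iff₀ hn0]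
    linarith
  have hρ2 : ρ ≤ g + 1 := by
    rw [hρ, div_le_iff₀ hn0]
    linarith
  have hlo : ∀ k' k : ℕ, n ≤ k' + 2 ^ (100 * f) → k' + 2 ^ (f / 8) ≤ k → k ≤ n →
      (ρ + 1 / 5) * ((k : ℝ) - k') ≤ (elt ω k : ℝ) - elt ω k' := by
    intro k' k h1 h2 h3
    have := hS.lo k' k h1 h2 h3
    rw [← hy, ← hρ] at this
    exact this
  have m3 : 2 ^ (f / 8) ≤ m := a3.trans m1
  have m4 : m < n := lt_of_le_of_lt m2 a1
  have m5 : m ≤ 2 ^ (100 * f) := m2.trans a2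
  clear a3 m1
  have key : ∃ x, elt ω (n - m) = g * (n - m) + x ∧ 2 ^ (5 * f) < x ∧ x ≤ n - m := by
    obtain ⟨k, hk⟩ : ∃ k, n = k + m := ⟨n - m, by omega⟩
    have hk' : n - m = k := by omega
    rw [hk']
    have l1 := hlo k n (by omega) (by omega) le_rfl
    have l2 := hS.hi k n (by omega) (by omega) le_rfl
    rw [← hy] at l1 l2
    have hnk : (n : ℝ) = k + m := by exact_mod_cast hk
    have hnk' : (n : ℝ) - k = m := by rw [hnk]; ring
    rw [hnk'] at l1 l2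
    have hm0 : (0 : ℝ) ≤ m := Nat.cast_nonneg _
    have hk0 : (0 : ℝ) ≤ k := Nat.cast_nonneg _
    have hg0 : (0 : ℝ) ≤ g := Nat.cast_nonneg _
    have hm2 : (m : ℝ) ≤ 2 ^ (5 * f) := by exact_mod_cast m2
    have u1 : (elt ω k : ℝ) ≤ g * k + k := by
      have e1 : ρ * k = y - ρ * m := by
        rw [← hρ0, hnk]
        ring
      have e2 : ρ * k ≤ (g + 1) * k := mul_le_mul_of_nonneg_right hρ2 hk0
      nlinarith
    have u2 : (g : ℝ) * k + 2 ^ (5 * f) < elt ω k := by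
      have e1 : (1000 : ℝ) * f * m ≤ 1000 * f * 2 ^ (5 * f) :=
        mul_le_mul_of_nonneg_left hm2 (by positivity)
      have e2 : (y : ℝ) = g * k + g * m + R := by
        rw [hdiv', hnk]
        ring
      have e3 : 0 ≤ (g : ℝ) * m := mul_nonneg hg0 hm0
      linarith
    have u1' : elt ω k ≤ g * k + k := by exact_mod_cast u1
    have u2' : g * k + 2 ^ (5 * f) < elt ω k := by exact_mod_cast u2
    exact ⟨elt ω k - g * k, by omega, by omega, by omega⟩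
  obtain ⟨x, k4, k5, k6⟩ := key
  rw [res_eq (by omega) k6 k4, ← hy, ← hg]
  exact k4

theorem caseB_id : ∀ᶠ f : ℕ in atTop, ∀ (ω : ℕ → Bool) (n m : ℕ),
    2 ^ (320 * f) ≤ n → Slp f n ω → elt ω n % n ≤ 2 ^ (15 * f) →
    2 ^ (16 * f) / (16 * f) ≤ m → m ≤ 2 ^ (80 * f) →
    elt ω (n - m) = (elt ω n / n - 1) * (n - m) + res ω (n - m) := by
  filter_upwards [eventually_ge_atTop 10] with f hf ω n m hn hS hR hm1 hm2
  have hp1 : 80 * f ≤ 2 ^ f := CaseBS98.lin_le98 f hf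
  have e80 : 2 ^ (80 * f) ≤ n :=
    le_trans (Nat.pow_le_pow_right (by norm_num) (by omega)) hn
  have e100 : 2 ^ (80 * f) ≤ 2 ^ (100 * f) := Nat.pow_le_pow_right (by norm_num) (by omega)
  have h2 : 2 ^ (f / 8) ≤ m := by
    refine le_trans ?_ hm1
    rw [Nat.le_div_iff_mul_le (by omega)]
    calc 2 ^ (f / 8) * (16 * f) ≤ 2 ^ f * 2 ^ f :=
          Nat.mul_le_mul (Nat.pow_le_pow_right (by norm_num) (by omega)) (by omega)
      _ = 2 ^ (2 * f) := by rw [← pow_add]; congr 1; omega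
      _ ≤ 2 ^ (16 * f) := Nat.pow_le_pow_right (by norm_num) (by omega)
  have h3 : m ≤ n := hm2.trans e80
  obtain ⟨x, hx1, hx2, hx3⟩ := CaseBS98.one98 hf hn hS.big hR hm1 hm2
    (hS.lo (n - m) n (by omega) (by omega) le_rfl)
    (hS.hi (n - m) n (by omega) (by omega) le_rfl)
  have h1 : res ω (n - m) = x := res_eq (Nat.one_le_two_pow.trans hx1.le) hx2 hx3
  rw [h1]
  exact hx3

end Pool.Agent.RG88
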