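import Pool.Agent.RG88.Defs

/-! Cop (helper84) -/

set_option autoImplicit false

namespace Pool.Agent.RG88

theorem good_class84 (z x : ℕ) (hx : Even x) : ∃ c : ℕ, c < primorial z ∧
    c.Coprime (primorial z) ∧
    ∀ y r : ℕ, y % primorial z = c → y = x + r → r.Coprime (primorial z) := by
  classical
  set P := primorial z with hP
  have hP0 : 0 < P := primorial_pos z
  set D : ℕ := ∏ p ∈ (Finset.range (z + 1)).filter (fun p => p.Prime ∧ ¬ p ∣ x), p with hD
  have hpP : ∀ p : ℕ, p.Prime → p ∣ P → p ≤ z := by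
    intro p hp hpP
    rw [hP, primorial, Prime.dvd_finsetProd_iff hp.prime] at hpP
    obtain ⟨q, hq, hpq⟩ := hpP
    rw [Finset.mem_filter, Finset.mem_range] at hq
    have := (Nat.prime_dvd_prime_iff_eq hp hq.2).mp hpq
    omega
  have hpD : ∀ p : ℕ, p.Prime → p ∣ P → (p ∣ D ↔ ¬ p ∣ x) := by
    intro p hp hpP'
    constructor
    · intro h
      rw [hD, Prime.dvd_finsetProd_iff hp.prime] at h
      obtain ⟨q, hq, hpq⟩ := h
      rw [Finset.mem_filter] at hq
      have := (Nat.prime_dvd_prime_iff_eq hp hq.2.1).mp hpq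
      rw [this]
      exact hq.2.2
    · intro h
      rw [hD]
      apply Finset.dvd_prod_of_mem (fun p => p)
      rw [Finset.mem_filter, Finset.mem_range]
      exact ⟨by have := hpP p hp hpP'; omega, hp, h⟩
  set c : ℕ := (D + (P - x % P)) % P with hc
  have hcx : c + x ≡ D [MOD P] := by
    have h1 : c ≡ D + (P - x % P) [MOD P] := Nat.mod_modEq _ _
    have h2 : c + x ≡ D + (P - x % P) + x [MOD P] := h1.add_right x
    have h3 : D + (P - x % P) + x = D + (P + P * (x / P)) := by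
      have h4 : x % P < P := Nat.mod_lt _ hP0
      have h5 := Nat.div_add_mod x P
      omega
    rw [h3] at h2
    have h6 : D + (P + P * (x / P)) ≡ D + 0 [MOD P] := by
      apply Nat.ModEq.add_left
      rw [Nat.modEq_zero_iff_dvd]
      exact ⟨1 + x / P, by ring⟩
    exact h2.trans h6
  refine ⟨c, Nat.mod_lt _ hP0, ?_, ?_⟩
  · by_contra hcon
    obtain ⟨p, hp, hpc, hpP'⟩ := Nat.Prime.not_coprime_iff_dvd.mp hcon
    have h1 : c + x ≡ D [MOD p] := hcx.of_dvd hpP'
    have h2 := hpD p hp hpP'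
    have h3 : p ∣ D ↔ p ∣ c + x := (h1.dvd_iff dvd_rfl).symm
    have h4 : p ∣ c + x ↔ p ∣ x := Nat.dvd_add_right hpc
    tauto
  · intro y r hy hyr
    by_contra hcon
    obtain ⟨p, hp, hpr, hpP'⟩ := Nat.Prime.not_coprime_iff_dvd.mp hcon
    have h0 : y ≡ c [MOD P] := by
      rw [← hy]
      exact (Nat.mod_modEq y P).symm
    have h1 : y + x ≡ D [MOD p] := ((h0.add_right x).trans hcx).of_dvd hpP'
    have h2 := hpD p hp hpP'
    have h3 : p ∣ D ↔ p ∣ y + x := (h1.dvd_iff dvd_rfl).symm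
    have h4 : y + x = r + 2 * x := by omega
    have h5 : p ∣ r + 2 * x ↔ p ∣ 2 * x := Nat.dvd_add_right hpr
    rw [h4, h5] at h3
    by_cases hpx : p ∣ x
    · exact (h2.mp (h3.mpr (hpx.mul_left 2))) hpx
    · have h6 := h3.mp (h2.mpr hpx)
      rcases (Nat.Prime.dvd_mul hp).mp h6 with h7 | h7
      · have h8 := (Nat.prime_dvd_prime_iff_eq hp Nat.prime_two).mp h7
        exact hpx (h8 ▸ hx.two_dvd)
      · exact hpx h7

end Pool.Agent.RG88
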