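import Pool.Agent.RG88.Defs
import Pool.Agent.RG88.CopS84

/-!
# A class modulo `P` that is good for `x`

`P = primorial z` is squarefree. `D = P / gcd P x`, `c = (D - x) mod P` (as an integer). Let `p ∣ P` be prime. If `p ∣ D` then
`p` does not divide `x` (`P` squarefree), so `p` is odd (`x` is even); `c = -x`, `c - x = -2x` modulo `p`, not `0`. If `p` does not
divide `D` then `p ∣ x` and `c = c - x = D` modulo `p`, not `0`. So `c` and `c - x` are prime to `P`; `y = c` modulo `P` and
`y = x + r` give `r = c - x` modulo `P`. (`P = 1`: `c = 0`.)
-/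

set_option autoImplicit false

namespace Pool.Agent.RG88

open MeasureTheory Filter Pool.Agent.RS88

theorem good_class (z x : ℕ) (hx : Even x) : ∃ c : ℕ, c < primorial z ∧ c.Coprime (primorial z) ∧
    ∀ y r : ℕ, y % primorial z = c → y = x + r → r.Coprime (primorial z) := by
  exact good_class84 z x hx

end Pool.Agent.RG88
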