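import Pool.Agent.RG88.Defs

/-!
# Definitions of the trials and of the good patterns

`Tz P h N S ω y`: `y` is the first time `≥ N` at which the walk `W ω h` reaches `s ^ 2`, for a level `h < s ≤ S`,
`s = 1` modulo `P` (and the walk starts at most at `0` at `N`). `Gz h b ω y`: `y` is an element and either its
index `ct ω y + 1` has the parity of `b`, or there is no element in `(y, y + h)` and `y + h` is an element.
`Rt`: `y - 1` is an element and the index `k = ct ω y + 1` of the next one is `n - m`, `m` in `Msq`, `m = n` modulo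
`2`, `m = j` modulo `P + 1`. `Rg`: the next element is the first integer `≥ y` in the class `c k` modulo `P`.
-/

set_option autoImplicit false

namespace Pool.Agent.RG88

open MeasureTheory Filter Pool.Agent.RS88

/-- first passage of a square level -/
def Tz (P h N S : ℕ) (ω : ℕ → Bool) (y : ℕ) : Prop :=
  N ≤ y ∧ W ω h N ≤ 0 ∧ ∃ s : ℕ, h < s ∧ s ≤ S ∧ s % P = 1 % P ∧ W ω h y = (s : ℤ) ^ 2 ∧
    ∀ y', N ≤ y' → y' < y → W ω h y' < (s : ℤ) ^ 2

/-- good pattern for the parity `b` -/
def Gz (h b : ℕ) (ω : ℕ → Bool) (y : ℕ) : Prop :=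
  ω y = true ∧ ((ct ω y + 1) % 2 = b % 2 ∨
    ((∀ i, y < i → i < y + h → ω i = false) ∧ ω (y + h) = true))

/-- trial for the large summand -/
def Rt (P n L Z j : ℕ) (ω : ℕ → Bool) (y : ℕ) : Prop :=
  n < y ∧ ω (y - 1) = true ∧
    ∃ m ∈ Msq ω L Z, m % 2 = n % 2 ∧ m % (P + 1) = j ∧ m + (ct ω y + 1) = n

/-- good pattern for the large summand -/
def Rg (P : ℕ) (c : ℕ → ℕ) (ω : ℕ → Bool) (y : ℕ) : Prop :=
  ∃ i, i < P ∧ (y + i) % P = c (ct ω y + 1) ∧ (∀ i', i' < i → ω (y + i') = false) ∧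
    ω (y + i) = true

open Classical in
/-- the `m` in `Msq` of the parity of `n` for which `elt ω (n - m) - G (n - m)` is prime to `P` -/
noncomputable def Kz (P G n L Z : ℕ) (ω : ℕ → Bool) : Finset ℕ :=
  (Msq ω L Z).filter fun m => m % 2 = n % 2 ∧
    ∀ r : ℕ, elt ω (n - m) = G * (n - m) + r → r.Coprime P

open Classical in
/-- The residues of the large summand that are prime to `P` miss the set. -/
def Badz (P n L Z T : ℕ) : Set (ℕ → Bool) :=
  {ω | n < ct ω (n ^ 2) ∧ 2 * ct ω (n + 1) ≤ n ∧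
    T ≤ (((Msq ω L Z).image (fun m => res ω (n - m))).filter (fun i => i.Coprime P)).card ∧
    ∀ m ∈ Msq ω L Z, Z < res ω (n - m) ∧ res ω (n - m) ≤ n ∧
      ((res ω (n - m)).Coprime P → ω (res ω (n - m)) = false)}

end Pool.Agent.RG88
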