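import Pool.Agent.RS88.PredS38
import Pool.Agent.GM53.Defs

/-!
# The sieved random model with a fixed sieving limit (definitions)

MP_9be292_nt, paper proof: notes 3656 and 3699. `pz z m` is the probability of `m`: `0` if `m ≤ 2` or `m` has
a prime factor `≤ z`, else `min 1 (mert z / log m)`. `mz z` is the product measure. The deterministic
notions (`ct`, `elt`, `res`, `Msq`, `W`, `ConcAt`, `Slp`, `Dep`) are those of RS88. For `z = 0` this is
Cramer's model as in RS88.
-/

set_option autoImplicit false

namespace Pool.Agent.RG88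

open MeasureTheory Filter Pool.Agent.GM53 Pool.Agent.RS88

open Classical in
/-- The probability of `m` (sieving limit `z`): integers with a prime factor at most `z` are excluded,
the other ones (`m ≥ 3`) get the probability `1 / log m`, corrected by Mertens' product (and cut at `1`). -/
noncomputable def pz (z m : ℕ) : ℝ :=
  if 3 ≤ m ∧ m.Coprime (primorial z) then min 1 (mert z / Real.log m) else 0

theorem pz_nonneg (z m : ℕ) : 0 ≤ pz z m := by
  unfold pz
  split_ifs
  · exact le_min zero_le_one (div_nonneg (mert_pos _).le (Real.log_natCast_nonneg m))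
  · exact le_rfl

theorem pz_le_one (z m : ℕ) : pz z m ≤ 1 := by
  unfold pz
  split_ifs
  · exact min_le_left _ _
  · exact zero_le_one

/-- The coin for the integer `m`: `true` with probability `pz z m`. -/
noncomputable def coin (z m : ℕ) : Measure Bool :=
  ENNReal.ofReal (pz z m) • Measure.dirac true + ENNReal.ofReal (1 - pz z m) • Measure.dirac false

/-- the law of the random set -/
noncomputable def mz (z : ℕ) : Measure (ℕ → Bool) :=
  Measure.infinitePi (Pool.Agent.RG88.coin z)

instance coinP (z m : ℕ) : IsProbabilityMeasure (Pool.Agent.RG88.coin z m) := by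
  constructor
  unfold Pool.Agent.RG88.coin
  simp only [Measure.coe_add, Measure.coe_smul, Pi.add_apply, Pi.smul_apply, measure_univ,
    smul_eq_mul, mul_one]
  rw [← ENNReal.ofReal_add (pz_nonneg z m) (sub_nonneg.2 (pz_le_one z m))]
  simp

instance mzP (z : ℕ) : IsProbabilityMeasure (mz z) := by unfold mz; infer_instance

theorem one_le_mert (y : ℕ) : 1 ≤ mert y := by
  unfold mert
  have h : ∀ p ∈ (Finset.range (y + 1)).filter Nat.Prime, (1 : ℝ) ≤ (1 - 1 / (p : ℝ))⁻¹ := by
    intro p hp
    have h2 : 2 ≤ p := (Finset.mem_filter.1 hp).2.two_le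
    have h3 : (2 : ℝ) ≤ p := by exact_mod_cast h2
    have h4 : 1 / (p : ℝ) ≤ 1 / 2 := one_div_le_one_div_of_le (by norm_num) h3
    have h5 : 0 < 1 / (p : ℝ) := by positivity
    exact (one_le_inv₀ (by linarith)).2 (by linarith)
  calc (1 : ℝ) = ∏ _p ∈ (Finset.range (y + 1)).filter Nat.Prime, (1 : ℝ) := by
        rw [Finset.prod_const_one]
    _ ≤ _ := Finset.prod_le_prod (fun _ _ => zero_le_one) h

theorem pz_up {z m : ℕ} (hm : 3 ≤ m) : pz z m ≤ mert z / Real.log m := by
  have h3 : (3 : ℝ) ≤ m := by exact_mod_cast hm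
  have h0 : 0 < Real.log m := Real.log_pos (by linarith)
  unfold pz
  split_ifs
  · exact min_le_right _ _
  · exact div_nonneg (mert_pos z).le h0.le

theorem pz_lo {z m : ℕ} (hm : 3 ≤ m) (hc : m.Coprime (primorial z)) :
    1 / Real.log m ≤ pz z m := by
  have h3 : (3 : ℝ) ≤ m := by exact_mod_cast hm
  have h1 : (1 : ℝ) ≤ Real.log m := log_three.trans (Real.log_le_log (by norm_num) h3)
  unfold pz
  rw [if_pos ⟨hm, hc⟩]
  refine le_min ?_ ?_
  · rw [div_le_one (by linarith)]
    exact h1
  · exact div_le_div_of_nonneg_right (one_le_mert z) (by linarith)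

theorem pz_zero {z m : ℕ} (hc : ¬ m.Coprime (primorial z)) : pz z m = 0 := by
  unfold pz
  rw [if_neg (fun h => hc h.2)]

/-- For large `m` the cut at `1` does not matter. -/
theorem pz_eq {z m : ℕ} (hm : 3 ≤ m) (hl : mert z ≤ Real.log m) :
    pz z m = if m.Coprime (primorial z) then mert z / Real.log m else 0 := by
  have h3 : (3 : ℝ) ≤ m := by exact_mod_cast hm
  have h0 : 0 < Real.log m := Real.log_pos (by linarith)
  unfold pz
  by_cases hc : m.Coprime (primorial z)
  · rw [if_pos ⟨hm, hc⟩, if_pos hc, min_eq_right]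
    rw [div_le_one h0]
    exact hl
  · rw [if_neg (fun h => hc h.2), if_neg hc]

/-- For `z = 0` this is Cramer's probability as in RS88. -/
theorem pz_zero_eq (m : ℕ) : pz 0 m = pr m := by
  have hm : mert 0 = 1 := by
    unfold mert
    simp [Finset.filter_singleton, Nat.not_prime_zero]
  unfold pz pr
  have hp : primorial 0 = 1 := by decide
  rw [hm, hp]
  by_cases h : 3 ≤ m
  · rw [if_pos ⟨h, Nat.coprime_one_right m⟩, if_pos h, min_eq_right]
    have h3 : (3 : ℝ) ≤ m := by exact_mod_cast h
    have h1 : (1 : ℝ) ≤ Real.log m := log_three.trans (Real.log_le_log (by norm_num) h3)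
    rw [div_le_one (by linarith)]
    exact h1
  · rw [if_neg (fun hh => h hh.1), if_neg h]

end Pool.Agent.RG88
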