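import Pool.Agent.RG88.Def2
import Pool.Agent.RS88.SkipA
import Pool.Agent.RS88.Elt

/-!
# The good patterns give `m` in `Msq` with the right parity
-/

set_option autoImplicit false

namespace Pool.Agent.RG88.S51

open MeasureTheory Filter Pool.Agent.RS88

theorem sq_mem {ω : ℕ → Bool} {h V L y s : ℕ} (ht : ω y = true) (hV : y < V) (hs : 1 ≤ s)
    (hW : W ω h y = (s : ℤ) ^ 2) (hS : s ^ 2 ≤ ct ω y + 1) (hL : L ≤ ct ω y + 1) :
    ct ω y + 1 ∈ Msq ω L V ∧ res ω (ct ω y + 1) = s ^ 2 := by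
  classical
  have hle : ct ω y ≤ y := Nat.count_le _
  have hsucc : ct ω (y + 1) = ct ω y + 1 := by
    unfold ct
    rw [Nat.count_succ, if_pos ht]
  have hV' : ct ω (y + 1) ≤ ct ω V := Nat.count_monotone _ hV
  have hs0 : 1 ≤ s ^ 2 := Nat.one_le_pow _ _ hs
  have helt : elt ω (ct ω y + 1) = y := by
    unfold elt ct
    rw [Nat.add_sub_cancel]
    exact Nat.nth_count ht
  have hy2 : y = h * (ct ω y + 1) + s ^ 2 := by
    unfold W at hW
    have h2 : (y : ℤ) = ((h * (ct ω y + 1) + s ^ 2 : ℕ) : ℤ) := by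
      push_cast
      linarith
    exact_mod_cast h2
  have hres : res ω (ct ω y + 1) = s ^ 2 := res_eq hs0 hS (helt.trans hy2)
  refine ⟨?_, hres⟩
  rw [Msq, Finset.mem_filter, Finset.mem_range]
  refine ⟨by omega, hL, by omega, by omega, ?_⟩
  rw [hres]
  exact ⟨s, by ring⟩

theorem W_le (ω : ℕ → Bool) (h y k : ℕ) : W ω h (y + k) ≤ W ω h y + k := by
  induction k with
  | zero => simp
  | succ k ih =>
    have h1 := W_succ ω h (y + k)
    have hf : (0 : ℤ) ≤ (if ω (y + k) = true then (h : ℤ) else 0) := by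
      split_ifs
      · exact Int.natCast_nonneg h
      · exact le_rfl
    rw [← add_assoc, h1]
    push_cast
    linarith

theorem ct_gap {ω : ℕ → Bool} {y h : ℕ} (ht : ω y = true)
    (hg : ∀ i, y < i → i < y + h → ω i = false) : ∀ j, 1 ≤ j → j ≤ h → ct ω (y + j) = ct ω y + 1 := by
  intro j hj
  induction j, hj using Nat.le_induction with
  | base =>
    intro _
    unfold ct
    rw [Nat.count_succ, if_pos ht]
  | succ j hj ih =>
    intro hjh
    have h1 := ih (by omega)
    have h2 := hg (y + j) (by omega) (by omega)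
    unfold ct at h1 ⊢
    rw [← add_assoc, Nat.count_succ, h1, if_neg (by rw [h2]; exact Bool.false_ne_true)]

open Classical in
theorem gz_card {ω : ℕ → Bool} {P h N V S L b : ℕ} (hh : 1 ≤ h)
    (hV : (S : ℤ) ^ 2 + h < W ω h V) (hS : S ^ 2 ≤ ct ω N + 1) (hL : L ≤ ct ω N + 1) :
    ((Finset.Ico N V).filter (fun y => Tz P h N S ω y ∧ Gz h b ω y)).card ≤
      ((Msq ω L V).filter (fun m => m % 2 = b % 2)).card := by
  have key : ∀ y : ℕ, ∃ m : ℕ, y ∈ (Finset.Ico N V).filter (fun y => Tz P h N S ω y ∧ Gz h b ω y) →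
      m ∈ (Msq ω L V).filter (fun m => m % 2 = b % 2) ∧ (res ω m : ℤ) = W ω h y := by
    intro y
    by_cases hy : y ∈ (Finset.Ico N V).filter (fun y => Tz P h N S ω y ∧ Gz h b ω y)
    swap
    · exact ⟨0, fun h' => absurd h' hy⟩
    rw [Finset.mem_filter, Finset.mem_Ico] at hy
    obtain ⟨⟨hNy, hyV⟩, ⟨-, -, s, hhs, hsS, -, hW, -⟩, ht, hgood⟩ := hy
    have hs1 : 1 ≤ s := by omega
    have hs2 : s ^ 2 ≤ S ^ 2 := Nat.pow_le_pow_left hsS 2
    have hmono : ct ω N ≤ ct ω y := Nat.count_monotone _ hNy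
    by_cases hpar : (ct ω y + 1) % 2 = b % 2
    · obtain ⟨h1, h2⟩ := sq_mem (L := L) ht hyV hs1 hW (by omega) (by omega)
      refine ⟨ct ω y + 1, fun _ => ⟨?_, ?_⟩⟩
      · rw [Finset.mem_filter]
        exact ⟨h1, hpar⟩
      · rw [h2, hW]
        push_cast
        rfl
    · obtain ⟨hg1, hg2⟩ := hgood.resolve_left hpar
      have hct := ct_gap ht hg1 h hh le_rfl
      have hW2 : W ω h (y + h) = (s : ℤ) ^ 2 := by
        rw [← hW]
        unfold W
        rw [hct]
        push_cast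
        ring
      have hlt : y + h < V := by
        by_contra hcon
        push Not at hcon
        obtain ⟨k, hk⟩ : ∃ k, V = y + k := ⟨V - y, by omega⟩
        have h3 := W_le ω h y k
        rw [← hk, hW] at h3
        have h4 : ((s : ℤ)) ^ 2 ≤ (S : ℤ) ^ 2 := by exact_mod_cast hs2
        have h5 : (k : ℤ) ≤ h := by
          have : k ≤ h := by omega
          exact_mod_cast this
        linarith
      have hmono2 : ct ω y ≤ ct ω (y + h) := Nat.count_monotone _ (by omega)
      obtain ⟨h1, h2⟩ := sq_mem (L := L) hg2 hlt hs1 hW2 (by omega) (by omega)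
      refine ⟨ct ω (y + h) + 1, fun _ => ⟨?_, ?_⟩⟩
      · rw [Finset.mem_filter]
        refine ⟨h1, ?_⟩
        rw [hct]
        omega
      · rw [h2, hW]
        push_cast
        rfl
  choose g hg using key
  refine Finset.card_le_card_of_injOn g ?_ ?_
  · intro y hy
    exact (hg y hy).1
  · intro y hy z hz hyz
    have h1 := (hg y hy).2
    have h2 := (hg z hz).2
    rw [hyz] at h1
    have h3 : W ω h y = W ω h z := h1.symm.trans h2
    rw [Finset.mem_coe, Finset.mem_filter] at hy hz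
    obtain ⟨-, ⟨hNy, -, s, -, -, -, hWy, hfy⟩, -⟩ := hy
    obtain ⟨-, ⟨hNz, -, s', -, -, -, hWz, hfz⟩, -⟩ := hz
    rcases lt_trichotomy y z with h4 | h4 | h4
    · have h5 := hfz y hNy h4
      rw [h3, hWz] at h5
      exact absurd h5 (lt_irrefl _)
    · exact h4
    · have h5 := hfy z hNz h4
      rw [← h3, hWy] at h5
      exact absurd h5 (lt_irrefl _)

end Pool.Agent.RG88.S51
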