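import Pool.Agent.RG88.Def2
import Pool.Agent.RS88.SkipA
import Pool.Agent.RS88.Elt
import Pool.Agent.RG88.GzCardS51

/-!
# The good patterns give `m` in `Msq` with the right parity

`sq_mem`: as `success` in RS88/SkipB (which does not use that `y` is a first passage): `m = ct ω y + 1`,
`elt ω m = y = h m + s ^ 2`, `1 ≤ s ^ 2 ≤ m`.
`gz_card`: let `y` be a trial with level `s` and a good pattern. `y + h < V`, since `V - y ≥ W V - W y > h` (`W_succ`). If
`ct ω y + 1` has the parity of `b`, take `m = ct ω y + 1` (`sq_mem` for `y`). Otherwise `ω (y + h) = true`,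
`ct ω (y + h) = ct ω y + 1`, `W ω h (y + h) = W ω h y + h - h = s ^ 2`; take `m = ct ω (y + h) + 1 = ct ω y + 2`
(`sq_mem` for `y + h`). In both cases `res ω m = s ^ 2`, and `y` is determined by `s` (first passage): the map is injective.
-/

set_option autoImplicit false

namespace Pool.Agent.RG88

open MeasureTheory Filter Pool.Agent.RS88

theorem sq_mem {ω : ℕ → Bool} {h V L y s : ℕ} (ht : ω y = true) (hV : y < V) (hs : 1 ≤ s)
    (hW : W ω h y = (s : ℤ) ^ 2) (hS : s ^ 2 ≤ ct ω y + 1) (hL : L ≤ ct ω y + 1) :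
    ct ω y + 1 ∈ Msq ω L V ∧ res ω (ct ω y + 1) = s ^ 2 :=
  S51.sq_mem ht hV hs hW hS hL

open Classical in
theorem gz_card {ω : ℕ → Bool} {P h N V S L b : ℕ} (hh : 1 ≤ h)
    (hV : (S : ℤ) ^ 2 + h < W ω h V) (hS : S ^ 2 ≤ ct ω N + 1) (hL : L ≤ ct ω N + 1) :
    ((Finset.Ico N V).filter (fun y => Tz P h N S ω y ∧ Gz h b ω y)).card ≤
      ((Msq ω L V).filter (fun m => m % 2 = b % 2)).card :=
  S51.gz_card hh hV hS hL

end Pool.Agent.RG88
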