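import Pool.Agent.RG88.Def2
import Pool.Agent.RG88.DepM

/-!
# The conditional probability of the good pattern

If `E` is empty there is nothing to prove. Otherwise `y = h (ct ω y + 1) + s ^ 2`, `P ∣ h`, `s = 1` modulo `P`, so `y` and
`y + h` are `1` modulo `P = primorial z`, hence prime to `P`. `E = E₁ ∪ E₂` (parity of `ct ω y + 1` equal to that of `b` or
not), both depend on the coordinates `< y`. `E₁ ∩ {ω y = true} ⊆ Gz`: probability `P(E₁) pz y` (`dez_true`).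
`E₂ ∩ {ω y = true} ∩ {no element in (y, y+h)} ∩ {ω (y+h) = true} ⊆ Gz`: probability
`P(E₂) pz y (∏ (1 - pz i)) pz (y+h)` (`dez_true`, `dez_inter`, `dez_true`). Here `pz ≥ 1/log ≥ 1/(4 f)` (`pz_lo`, as
`y + h ≤ 2^(5f+1)`), `1 - pz i ≥ 1 - mert z/log (2^f) ≥ 1 - 2 mert z/f` (`pz_up`), so the product over at most `f`
integers is at least `exp (-4 mert z) ≥ 16/f` for large `f` (Bernoulli is not enough; use `(1 - x) ≥ exp (-2 x)`, `x ≤ 1/2`).
-/

set_option autoImplicit false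

namespace Pool.Agent.RG88

open MeasureTheory Filter Pool.Agent.RS88

open Pool.Agent.GM53 (mert)

/-- dependence of the parity of the counting function -/
theorem g80_dep (b y : ℕ) :
    Dep ((Finset.range y : Finset ℕ) : Set ℕ) {ω | (ct ω y + 1) % 2 = b % 2} := by
  intro ω ω' h
  have hct : ct ω y = ct ω' y := by
    unfold ct
    induction y with
    | zero => simp
    | succ n ih =>
      have h1 := ih fun i hi => h i (by
        rw [Finset.mem_coe, Finset.mem_range] at hi ⊢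
        omega)
      have h2 := h n (by
        rw [Finset.mem_coe, Finset.mem_range]
        omega)
      rw [Nat.count_succ, Nat.count_succ, h1, h2]
  show (ct ω y + 1) % 2 = b % 2 ↔ (ct ω' y + 1) % 2 = b % 2
  rw [hct]

/-- the congruence of the passage point -/
theorem g80_cop {P h y s c : ℕ} (hP : P ∣ h) (hs : s % P = 1 % P) (hy : y = h * c + s ^ 2) :
    y.Coprime P ∧ (y + h).Coprime P := by
  have h1 : y ≡ 1 [MOD P] := by
    have h2 : s ≡ 1 [MOD P] := hs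
    have h3 : s ^ 2 ≡ 1 [MOD P] := by
      have := h2.pow 2
      simpa using this
    have h4 : h * c ≡ 0 [MOD P] := (Nat.modEq_zero_iff_dvd).2 (hP.mul_right c)
    have := h4.add h3
    rw [← hy] at this
    simpa using this
  have h5 : y + h ≡ 1 [MOD P] := by
    have h6 : h ≡ 0 [MOD P] := (Nat.modEq_zero_iff_dvd).2 hP
    have := h1.add h6
    simpa using this
  constructor
  · have := h1.gcd_eq
    rw [Nat.gcd_one_left] at this
    exact this
  · have := h5.gcd_eq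
    rw [Nat.gcd_one_left] at this
    exact this

/-- `exp (-2 x) ≤ 1 - x` for `x ≤ 1/2` -/
theorem g80_exp {x : ℝ} (h0 : 0 ≤ x) (h1 : x ≤ 1 / 2) : Real.exp (-2 * x) ≤ 1 - x := by
  have h2 : (1 - x)⁻¹ ≤ Real.exp (2 * x) := by
    have h3 : (1 - x)⁻¹ ≤ 1 + 2 * x := by
      rw [inv_le_iff_one_le_mul₀ (by linarith)]
      nlinarith
    have h4 := Real.add_one_le_exp (2 * x)
    linarith
  have h5 : Real.exp (-2 * x) = (Real.exp (2 * x))⁻¹ := by
    rw [← Real.exp_neg]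
    congr 1
    ring
  rw [h5, inv_le_comm₀ (Real.exp_pos _) (by linarith)]
  exact h2

/-- lower bound for the probability of one point -/
theorem g80_lo {z f m : ℕ} (hf : 2 ≤ f) (hm : 3 ≤ m) (hm2 : m ≤ 2 ^ (5 * f + 1))
    (hc : m.Coprime (primorial z)) : 1 / (4 * (f : ℝ)) ≤ pz z m := by
  refine le_trans ?_ (pz_lo hm hc)
  have h3 : (3 : ℝ) ≤ m := by exact_mod_cast hm
  have h0 : 0 < Real.log m := Real.log_pos (by linarith)
  apply one_div_le_one_div_of_le h0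
  have h4 : (m : ℝ) ≤ 2 ^ (5 * f + 1) := by exact_mod_cast hm2
  have h5 := Real.log_le_log (by linarith) h4
  rw [Real.log_pow] at h5
  push_cast at h5
  have h6 := Real.log_two_lt_d9
  have h7 : (2 : ℝ) ≤ f := by exact_mod_cast hf
  nlinarith

/-- the product over the gap -/
theorem g80_prod {z f y h : ℕ} (hf : 4 * mert z ≤ (f : ℝ)) (hf2 : 2 ≤ f) (hh : h ≤ f)
    (hy : 2 ^ f ≤ y) :
    Real.exp (-4 * mert z) ≤ ∏ i ∈ Finset.Ioo y (y + h), (1 - pz z i) := by
  have hf0 : (0 : ℝ) < f := by exact_mod_cast (by omega : 0 < f)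
  have hm0 : (1 : ℝ) ≤ mert z := one_le_mert z
  have hx0 : 0 ≤ 2 * mert z / f := div_nonneg (by linarith) hf0.le
  have hx1 : 2 * mert z / f ≤ 1 / 2 := by
    rw [div_le_div_iff₀ hf0 (by norm_num)]
    linarith
  have h1 : ∀ i ∈ Finset.Ioo y (y + h), Real.exp (-2 * (2 * mert z / f)) ≤ 1 - pz z i := by
    intro i hi
    rw [Finset.mem_Ioo] at hi
    have hi2 : 2 ^ f ≤ i := by omega
    have h4 : 4 ≤ 2 ^ f := by
      calc 4 = 2 ^ 2 := by norm_num
        _ ≤ 2 ^ f := Nat.pow_le_pow_right (by norm_num) hf2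
    have hi3 : 3 ≤ i := by omega
    have h5 := pz_up (z := z) hi3
    have h6 : (f : ℝ) / 2 ≤ Real.log i := by
      have h7 : ((2 : ℝ) ^ f) ≤ i := by exact_mod_cast hi2
      have h8 := Real.log_le_log (by positivity) h7
      rw [Real.log_pow] at h8
      have h9 := Real.log_two_gt_d9
      nlinarith
    have h7 : mert z / Real.log i ≤ 2 * mert z / f := by
      have h8 : mert z / Real.log i ≤ mert z / ((f : ℝ) / 2) :=
        div_le_div_of_nonneg_left (by linarith) (by positivity) h6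
      have h9 : mert z / ((f : ℝ) / 2) = 2 * mert z / f := by
        field_simp
      linarith
    have h8 := g80_exp hx0 hx1
    linarith
  have h2 : ∏ _i ∈ Finset.Ioo y (y + h), Real.exp (-2 * (2 * mert z / f)) ≤
      ∏ i ∈ Finset.Ioo y (y + h), (1 - pz z i) :=
    Finset.prod_le_prod (fun i _ => (Real.exp_pos _).le) h1
  refine le_trans ?_ h2
  rw [Finset.prod_const, Nat.card_Ioo, ← Real.exp_nat_mul]
  apply Real.exp_le_exp.2
  have h3 : (((y + h - y - 1 : ℕ)) : ℝ) ≤ f := by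
    have : y + h - y - 1 ≤ f := by omega
    exact_mod_cast this
  have h4 : (((y + h - y - 1 : ℕ)) : ℝ) * (2 * (2 * mert z / f)) ≤ f * (2 * (2 * mert z / f)) :=
    mul_le_mul_of_nonneg_right h3 (by linarith)
  have h5 : (f : ℝ) * (2 * (2 * mert z / f)) = 4 * mert z := by
    field_simp
    ring
  linarith

theorem gz_pr (z : ℕ) : ∀ᶠ f : ℕ in atTop, ∀ h S b y : ℕ, primorial z ∣ h → 1 ≤ h → h ≤ f →
    2 ^ f ≤ y → y < 2 ^ (5 * f) → ∀ E : Set (ℕ → Bool),
    Dep ((Finset.range y : Finset ℕ) : Set ℕ) E →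
    (∀ ω ∈ E, Tz (primorial z) h (2 ^ f) S ω y) →
    1 / (f : ℝ) ^ 3 * (mz z).real E ≤ (mz z).real (E ∩ {ω | Gz h b ω y}) := by
  have hev1 : ∀ᶠ f : ℕ in atTop, 4 * mert z ≤ (f : ℝ) :=
    tendsto_natCast_atTop_atTop.eventually_ge_atTop _
  have hev2 : ∀ᶠ f : ℕ in atTop, 16 * Real.exp (4 * mert z) ≤ (f : ℝ) :=
    tendsto_natCast_atTop_atTop.eventually_ge_atTop _
  filter_upwards [hev1, hev2, eventually_ge_atTop 2] with f hf1 hf2 hf3
  intro h S b y hP h1 hhf hy1 hy2 E hE hT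
  rcases E.eq_empty_or_nonempty with rfl | ⟨ω0, hω0⟩
  · simp
  have hf0 : (0 : ℝ) < f := by exact_mod_cast (by omega : 0 < f)
  -- the congruences
  obtain ⟨-, -, s, -, -, hs, hW, -⟩ := hT ω0 hω0
  have hy : y = h * (ct ω0 y + 1) + s ^ 2 := by
    unfold W at hW
    have h2 : (y : ℤ) = ((h * (ct ω0 y + 1) + s ^ 2 : ℕ) : ℤ) := by
      push_cast
      linarith
    exact_mod_cast h2
  obtain ⟨hc1, hc2⟩ := g80_cop hP hs hy
  have h4f : 4 ≤ 2 ^ f := by
    calc 4 = 2 ^ 2 := by norm_num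
      _ ≤ 2 ^ f := Nat.pow_le_pow_right (by norm_num) hf3
  have hle5 : 2 ^ f ≤ 2 ^ (5 * f) := Nat.pow_le_pow_right (by norm_num) (by omega)
  have hff : f ≤ 2 ^ f := Nat.lt_two_pow_self.le
  have hpow : 2 ^ (5 * f + 1) = 2 ^ (5 * f) * 2 := pow_succ _ _
  have hp1 : 1 / (4 * (f : ℝ)) ≤ pz z y := g80_lo hf3 (by omega) (by omega) hc1
  have hp2 : 1 / (4 * (f : ℝ)) ≤ pz z (y + h) := g80_lo hf3 (by omega) (by omega) hc2
  have hpr := g80_prod hf1 hf3 hhf hy1
  -- the two parts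
  let A : Set (ℕ → Bool) := {ω | (ct ω y + 1) % 2 = b % 2}
  have hA : Dep ((Finset.range y : Finset ℕ) : Set ℕ) A := g80_dep b y
  let T : Finset ℕ := Finset.Ioo y (y + h)
  let F1 : Set (ℕ → Bool) := (E ∩ A) ∩ {ω | ω y = true}
  let F2 : Set (ℕ → Bool) := (E ∩ Aᶜ) ∩ {ω | ω y = true}
  let F3 : Set (ℕ → Bool) := F2 ∩ {ω | ∀ i ∈ T, ω i = false}
  let F4 : Set (ℕ → Bool) := F3 ∩ {ω | ω (y + h) = true}
  have hEA : Dep ((Finset.range y : Finset ℕ) : Set ℕ) (E ∩ A) := Dep.inter38 hE hA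
  have hEA' : Dep ((Finset.range y : Finset ℕ) : Set ℕ) (E ∩ Aᶜ) :=
    Dep.inter38 hE (Dep.compl38 hA)
  have hyn : y ∉ Finset.range y := by simp
  have m1 : (mz z).real F1 = (mz z).real (E ∩ A) * pz z y := dez_true z hEA hyn
  have m2 : (mz z).real F2 = (mz z).real (E ∩ Aᶜ) * pz z y := dez_true z hEA' hyn
  have hsub1 : ((Finset.range y : Finset ℕ) : Set ℕ) ⊆ ((Finset.range (y + 1) : Finset ℕ) : Set ℕ) := by
    intro i hi
    rw [Finset.mem_coe, Finset.mem_range] at hi ⊢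
    omega
  have hF2 : Dep ((Finset.range (y + 1) : Finset ℕ) : Set ℕ) F2 :=
    Dep.inter38 (Dep.mono38 hEA' hsub1) (dep_coord38 (by
      rw [Finset.mem_coe, Finset.mem_range]
      omega) true)
  have hdisj : Disjoint (Finset.range (y + 1)) T := by
    rw [Finset.disjoint_left]
    intro i hi hi'
    rw [Finset.mem_range] at hi
    have := (Finset.mem_Ioo.1 hi').1
    omega
  have m3 : (mz z).real F3 = (mz z).real F2 * ∏ i ∈ T, (1 - pz z i) := dez_inter z hdisj hF2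
  have hsub2 : ((Finset.range (y + 1) : Finset ℕ) : Set ℕ) ⊆
      ((Finset.range (y + h) : Finset ℕ) : Set ℕ) := by
    intro i hi
    rw [Finset.mem_coe, Finset.mem_range] at hi ⊢
    omega
  have hTd : Dep ((Finset.range (y + h) : Finset ℕ) : Set ℕ)
      {ω : ℕ → Bool | ∀ i ∈ T, ω i = false} := by
    intro ω ω' hh
    refine forall₂_congr fun i hi => ?_
    rw [hh i (by
      rw [Finset.mem_coe, Finset.mem_range]
      exact (Finset.mem_Ioo.1 hi).2)]
  have hF3 : Dep ((Finset.range (y + h) : Finset ℕ) : Set ℕ) F3 :=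
    Dep.inter38 (Dep.mono38 hF2 hsub2) hTd
  have m4 : (mz z).real F4 = (mz z).real F3 * pz z (y + h) := dez_true z hF3 (by simp)
  have hsub3 : ((Finset.range (y + h) : Finset ℕ) : Set ℕ) ⊆
      ((Finset.range (y + h + 1) : Finset ℕ) : Set ℕ) := by
    intro i hi
    rw [Finset.mem_coe, Finset.mem_range] at hi ⊢
    omega
  have hF4 : Dep ((Finset.range (y + h + 1) : Finset ℕ) : Set ℕ) F4 :=
    Dep.inter38 (Dep.mono38 hF3 hsub3) (dep_coord38 (by
      rw [Finset.mem_coe, Finset.mem_range]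
      omega) true)
  -- inclusion and disjointness
  have hincl : F1 ∪ F4 ⊆ E ∩ {ω | Gz h b ω y} := by
    rintro ω (⟨⟨hωE, hωA⟩, hωy⟩ | ⟨⟨⟨⟨hωE, -⟩, hωy⟩, hωT⟩, hωh⟩)
    · exact ⟨hωE, hωy, Or.inl hωA⟩
    · refine ⟨hωE, hωy, Or.inr ⟨fun i hi1 hi2 => hωT i (Finset.mem_Ioo.2 ⟨hi1, hi2⟩), hωh⟩⟩
  have hdis : Disjoint F1 F4 := by
    rw [Set.disjoint_left]
    rintro ω ⟨⟨-, hωA⟩, -⟩ ⟨⟨⟨⟨-, hωA'⟩, -⟩, -⟩, -⟩
    exact hωA' hωA
  have hun : (mz z).real (F1 ∪ F4) = (mz z).real F1 + (mz z).real F4 :=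
    measureReal_union hdis hF4.meas
  have hmono : (mz z).real (F1 ∪ F4) ≤ (mz z).real (E ∩ {ω | Gz h b ω y}) :=
    measureReal_mono hincl
  have hsplit : (mz z).real E = (mz z).real (E ∩ A) + (mz z).real (E ∩ Aᶜ) := by
    have h2 : E = (E ∩ A) ∪ (E ∩ Aᶜ) := by
      rw [← Set.inter_union_distrib_left, Set.union_compl_self, Set.inter_univ]
    have h3 : Disjoint (E ∩ A) (E ∩ Aᶜ) := by
      rw [Set.disjoint_left]
      rintro ω ⟨-, h4⟩ ⟨-, h5⟩
      exact h5 h4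
    calc (mz z).real E = (mz z).real ((E ∩ A) ∪ (E ∩ Aᶜ)) := by rw [← h2]
      _ = _ := measureReal_union h3 hEA'.meas
  -- the numbers
  have hc : 1 / (f : ℝ) ^ 3 ≤ 1 / (4 * (f : ℝ)) * Real.exp (-4 * mert z) * (1 / (4 * (f : ℝ))) := by
    have h2 : Real.exp (-4 * mert z) = 1 / Real.exp (4 * mert z) := by
      rw [one_div, ← Real.exp_neg]
      congr 1
      ring
    have h3 := Real.exp_pos (4 * mert z)
    rw [h2, one_div_mul_one_div, one_div_mul_one_div]
    apply one_div_le_one_div_of_le (by positivity)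
    have h4 : 16 * Real.exp (4 * mert z) * (f : ℝ) ^ 2 ≤ f * (f : ℝ) ^ 2 :=
      mul_le_mul_of_nonneg_right hf2 (by positivity)
    calc 4 * (f : ℝ) * Real.exp (4 * mert z) * (4 * f) = 16 * Real.exp (4 * mert z) * (f : ℝ) ^ 2 := by
          ring
      _ ≤ f * (f : ℝ) ^ 2 := h4
      _ = (f : ℝ) ^ 3 := by ring
  have hc2' : 1 / (f : ℝ) ^ 3 ≤ pz z y * (∏ i ∈ T, (1 - pz z i)) * pz z (y + h) := by
    refine hc.trans ?_
    apply mul_le_mul _ hp2 (by positivity) (mul_nonneg (pz_nonneg z y)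
      ((Real.exp_pos _).le.trans hpr))
    exact mul_le_mul hp1 hpr (Real.exp_pos _).le (pz_nonneg z y)
  have hc1' : 1 / (f : ℝ) ^ 3 ≤ pz z y := by
    refine le_trans ?_ hp1
    apply one_div_le_one_div_of_le (by positivity)
    have h2 : (1 : ℝ) ≤ Real.exp (4 * mert z) := Real.one_le_exp (by linarith [one_le_mert z])
    have h3 : (16 : ℝ) ≤ f := by linarith
    nlinarith [mul_nonneg hf0.le hf0.le, sq_nonneg (f : ℝ), pow_pos hf0 3,
      mul_le_mul_of_nonneg_left h3 (mul_nonneg hf0.le hf0.le)]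
  have hnn1 : 0 ≤ (mz z).real (E ∩ A) := measureReal_nonneg
  have hnn2 : 0 ≤ (mz z).real (E ∩ Aᶜ) := measureReal_nonneg
  calc 1 / (f : ℝ) ^ 3 * (mz z).real E =
      (mz z).real (E ∩ A) * (1 / (f : ℝ) ^ 3) + (mz z).real (E ∩ Aᶜ) * (1 / (f : ℝ) ^ 3) := by
        rw [hsplit]; ring
    _ ≤ (mz z).real (E ∩ A) * pz z y +
        (mz z).real (E ∩ Aᶜ) * (pz z y * (∏ i ∈ T, (1 - pz z i)) * pz z (y + h)) :=
        add_le_add (mul_le_mul_of_nonneg_left hc1' hnn1) (mul_le_mul_of_nonneg_left hc2' hnn2)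
    _ = (mz z).real F1 + (mz z).real F4 := by
        rw [m4, m3, m2, m1]; ring
    _ ≤ _ := by rw [← hun]; exact hmono

end Pool.Agent.RG88
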