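import Pool.Agent.RG88.Def2
import Pool.Agent.RG88.DepM
import Pool.Agent.RS88.FillB

/-!
# The conditional probability of the good pattern
-/

set_option autoImplicit false

namespace Pool.Agent.RG88.S19

open MeasureTheory Filter Pool.Agent.RS88 Pool.Agent.GM53

theorem ex_lo {x : ℝ} (h0 : 0 ≤ x) (h1 : x ≤ 1 / 2) : Real.exp (-(2 * x)) ≤ 1 - x := by
  have h2 : 2 * x + 1 ≤ Real.exp (2 * x) := Real.add_one_le_exp _
  have h3 : (0 : ℝ) < Real.exp (2 * x) := Real.exp_pos _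
  rw [Real.exp_neg, inv_le_iff_one_le_mul₀ h3]
  have h4 : (1 - x) * (2 * x + 1) ≤ (1 - x) * Real.exp (2 * x) :=
    mul_le_mul_of_nonneg_left h2 (by linarith)
  nlinarith

theorem dep_mono {S T : Set ℕ} (h : S ⊆ T) {E : Set (ℕ → Bool)} (hE : Dep S E) : Dep T E :=
  fun ω ω' hh => hE ω ω' fun i hi => hh i (h hi)

theorem dep_inter {S : Set ℕ} {E F : Set (ℕ → Bool)} (hE : Dep S E) (hF : Dep S F) :
    Dep S (E ∩ F) := fun ω ω' hh => by
  rw [Set.mem_inter_iff, Set.mem_inter_iff, hE ω ω' hh, hF ω ω' hh]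

theorem dep_diff {S : Set ℕ} {E F : Set (ℕ → Bool)} (hE : Dep S E) (hF : Dep S F) :
    Dep S (E \ F) := fun ω ω' hh => by
  rw [Set.mem_sdiff, Set.mem_sdiff, hE ω ω' hh, hF ω ω' hh]

theorem dep_ct (y : ℕ) (Q : ℕ → Prop) :
    Dep ((Finset.range y : Finset ℕ) : Set ℕ) {ω | Q (ct ω y)} := fun ω ω' hh => by
  have h1 : ct ω y = ct ω' y := fillB_ct (fun i hi => hh i (by
    rw [Finset.mem_coe, Finset.mem_range]
    exact hi)) le_rfl
  show Q (ct ω y) ↔ Q (ct ω' y)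
  rw [h1]

theorem log_lo {f i : ℕ} (h : 2 ^ f ≤ i) : (f : ℝ) / 2 ≤ Real.log i := by
  have h1 : ((2 : ℝ)) ^ f ≤ i := by exact_mod_cast h
  have h2 : (f : ℝ) * Real.log 2 ≤ Real.log i := by
    rw [← Real.log_pow]
    exact Real.log_le_log (by positivity) h1
  have h3 := Real.log_two_gt_d9
  have h4 : (0 : ℝ) ≤ f := Nat.cast_nonneg f
  nlinarith

theorem log_hi {f i : ℕ} (hf : 2 ≤ f) (h0 : 0 < i) (h : i ≤ 2 ^ (5 * f + 1)) :
    Real.log i ≤ 4 * f := by
  have h1 : (i : ℝ) ≤ (2 : ℝ) ^ (5 * f + 1) := by exact_mod_cast h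
  have h2 : Real.log i ≤ ((5 * f + 1 : ℕ) : ℝ) * Real.log 2 := by
    rw [← Real.log_pow]
    exact Real.log_le_log (by exact_mod_cast h0) h1
  have h3 := Real.log_two_lt_d9
  have h4 : (2 : ℝ) ≤ f := by exact_mod_cast hf
  push_cast at h2
  nlinarith

theorem gz_pr (z : ℕ) : ∀ᶠ f : ℕ in atTop, ∀ h S b y : ℕ, primorial z ∣ h → 1 ≤ h → h ≤ f →
    2 ^ f ≤ y → y < 2 ^ (5 * f) → ∀ E : Set (ℕ → Bool),
    Dep ((Finset.range y : Finset ℕ) : Set ℕ) E →
    (∀ ω ∈ E, Tz (primorial z) h (2 ^ f) S ω y) →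
    1 / (f : ℝ) ^ 3 * (mz z).real E ≤ (mz z).real (E ∩ {ω | Gz h b ω y}) := by
  classical
  have hM1 : 1 ≤ mert z := one_le_mert z
  filter_upwards [tendsto_natCast_atTop_atTop.eventually_ge_atTop (16 * Real.exp (4 * mert z)),
    tendsto_natCast_atTop_atTop.eventually_ge_atTop (4 * mert z), eventually_ge_atTop 4]
    with f hf1 hf2 hf3
  intro h S b y hP hh hhf hy1 hy2 E hE hT
  have hf0 : (4 : ℝ) ≤ f := by exact_mod_cast hf3
  have hfp : (0 : ℝ) < f := by linarith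
  rcases Set.eq_empty_or_nonempty E with rfl | ⟨ω₀, hω₀⟩
  · simp
  obtain ⟨_, _, s, hs1, hs2, hs3, hs4, _⟩ := hT ω₀ hω₀
  have hyeq : y = h * (ct ω₀ y + 1) + s ^ 2 := by
    unfold W at hs4
    have h1 : (y : ℤ) = ((h * (ct ω₀ y + 1) + s ^ 2 : ℕ) : ℤ) := by
      push_cast
      linarith
    exact_mod_cast h1
  have hmod : y ≡ 1 [MOD primorial z] := by
    have e1 : h * (ct ω₀ y + 1) ≡ 0 [MOD primorial z] :=
      Nat.modEq_zero_iff_dvd.2 (Dvd.dvd.mul_right hP _)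
    have e2 : s ^ 2 ≡ 1 ^ 2 [MOD primorial z] := Nat.ModEq.pow 2 hs3
    have e3 := e1.add e2
    rw [← hyeq] at e3
    simpa only [zero_add, one_pow] using e3
  have hc1 : y.Coprime (primorial z) := by
    unfold Nat.Coprime
    rw [hmod.gcd_eq]
    exact Nat.gcd_one_left _
  have hc2 : (y + h).Coprime (primorial z) := by
    have e1 : y + h ≡ 1 + 0 [MOD primorial z] := hmod.add (Nat.modEq_zero_iff_dvd.2 hP)
    unfold Nat.Coprime
    rw [e1.gcd_eq]
    exact Nat.gcd_one_left _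
  have h16 : 16 ≤ y := by
    have : 2 ^ 4 ≤ 2 ^ f := Nat.pow_le_pow_right (by norm_num) hf3
    omega
  have h2f : f ≤ 2 ^ (5 * f) := by
    have e1 : f < 2 ^ f := Nat.lt_two_pow_self
    have e2 : 2 ^ f ≤ 2 ^ (5 * f) := Nat.pow_le_pow_right (by norm_num) (by omega)
    omega
  have hyh : y + h ≤ 2 ^ (5 * f + 1) := by
    rw [pow_succ]
    omega
  have p1 : 1 / (4 * (f : ℝ)) ≤ pz z y := by
    have e1 := pz_lo (z := z) (m := y) (by omega) hc1
    have e2 : Real.log y ≤ 4 * f := log_hi (by omega) (by omega) (by omega)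
    have e3 : 0 < Real.log y := Real.log_pos (by
      have : (16 : ℝ) ≤ y := by exact_mod_cast h16
      linarith)
    exact (one_div_le_one_div_of_le e3 e2).trans e1
  have p2 : 1 / (4 * (f : ℝ)) ≤ pz z (y + h) := by
    have e1 := pz_lo (z := z) (m := y + h) (by omega) hc2
    have e2 : Real.log ((y + h : ℕ) : ℝ) ≤ 4 * f := log_hi (by omega) (by omega) hyh
    have e3 : 0 < Real.log ((y + h : ℕ) : ℝ) := Real.log_pos (by
      have : (16 : ℝ) ≤ ((y + h : ℕ) : ℝ) := by exact_mod_cast (by omega : 16 ≤ y + h)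
      linarith)
    exact (one_div_le_one_div_of_le e3 e2).trans e1
  -- the product
  have p3 : Real.exp (-(4 * mert z)) ≤ ∏ i ∈ Finset.Ioo y (y + h), (1 - pz z i) := by
    set x : ℝ := 2 * mert z / f with hx
    have hx0 : 0 ≤ x := by positivity
    have hx1 : x ≤ 1 / 2 := by
      rw [hx, div_le_iff₀ hfp]
      linarith
    have e1 : ∀ i ∈ Finset.Ioo y (y + h), Real.exp (-(2 * x)) ≤ 1 - pz z i := by
      intro i hi
      rw [Finset.mem_Ioo] at hi
      have e2 := log_lo (f := f) (i := i) (by omega)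
      have e3 : pz z i ≤ x := by
        refine (pz_up (by omega)).trans ?_
        rw [hx, div_le_div_iff₀ (by linarith) hfp]
        nlinarith
      exact (ex_lo hx0 hx1).trans (by linarith)
    have e4 : ∏ _i ∈ Finset.Ioo y (y + h), Real.exp (-(2 * x)) ≤
        ∏ i ∈ Finset.Ioo y (y + h), (1 - pz z i) :=
      Finset.prod_le_prod (fun _ _ => (Real.exp_pos _).le) e1
    rw [Finset.prod_const, Nat.card_Ioo] at e4
    refine le_trans ?_ e4
    have e5 : Real.exp (-(2 * x)) ^ f ≤ Real.exp (-(2 * x)) ^ (y + h - y - 1) :=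
      pow_le_pow_of_le_one (Real.exp_pos _).le (Real.exp_le_one_iff.2 (by linarith)) (by omega)
    refine le_trans (le_of_eq ?_) e5
    rw [← Real.exp_nat_mul]
    congr 1
    rw [hx]
    field_simp
    ring
  set F : Set (ℕ → Bool) := {ω | (ct ω y + 1) % 2 = b % 2} with hF
  have hFd : Dep ((Finset.range y : Finset ℕ) : Set ℕ) F :=
    dep_ct y (fun c => (c + 1) % 2 = b % 2)
  have hFm : MeasurableSet F := Dep.meas hFd
  have hy : y ∉ Finset.range y := by simp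
  have s1 : (mz z).real ((E ∩ F) ∩ {ω | ω y = true}) = (mz z).real (E ∩ F) * pz z y :=
    dez_true z (dep_inter hE hFd) hy
  have s2 : (mz z).real ((E \ F) ∩ {ω | ω y = true}) = (mz z).real (E \ F) * pz z y :=
    dez_true z (dep_diff hE hFd) hy
  have d1 : Dep ((Finset.range (y + 1) : Finset ℕ) : Set ℕ) ((E \ F) ∩ {ω | ω y = true}) := by
    refine dep_inter (dep_mono ?_ (dep_diff hE hFd)) (dep_mono ?_ (Dep_coord y true))
    · intro i hi
      rw [Finset.mem_coe, Finset.mem_range] at hi ⊢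
      omega
    · intro i hi
      rw [Finset.mem_coe, Finset.mem_singleton] at hi
      rw [Finset.mem_coe, Finset.mem_range]
      omega
  have s3 : (mz z).real (((E \ F) ∩ {ω | ω y = true}) ∩
      {ω | ∀ i ∈ Finset.Ioo y (y + h), ω i = false}) =
      (mz z).real ((E \ F) ∩ {ω | ω y = true}) * ∏ i ∈ Finset.Ioo y (y + h), (1 - pz z i) := by
    refine dez_inter z ?_ d1
    rw [Finset.disjoint_left]
    intro i hi hi'
    rw [Finset.mem_range] at hi
    rw [Finset.mem_Ioo] at hi'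
    omega
  have d2 : Dep ((Finset.range (y + h) : Finset ℕ) : Set ℕ) (((E \ F) ∩ {ω | ω y = true}) ∩
      {ω | ∀ i ∈ Finset.Ioo y (y + h), ω i = false}) := by
    refine dep_inter (dep_mono ?_ d1) ?_
    · intro i hi
      rw [Finset.mem_coe, Finset.mem_range] at hi ⊢
      omega
    · intro ω ω' hh'
      show (∀ i ∈ Finset.Ioo y (y + h), ω i = false) ↔ ∀ i ∈ Finset.Ioo y (y + h), ω' i = false
      refine forall₂_congr fun i hi => ?_
      rw [hh' i (by
        rw [Finset.mem_Ioo] at hi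
        rw [Finset.mem_coe, Finset.mem_range]
        omega)]
  have s4 : (mz z).real ((((E \ F) ∩ {ω | ω y = true}) ∩
      {ω | ∀ i ∈ Finset.Ioo y (y + h), ω i = false}) ∩ {ω | ω (y + h) = true}) =
      (mz z).real (((E \ F) ∩ {ω | ω y = true}) ∩
      {ω | ∀ i ∈ Finset.Ioo y (y + h), ω i = false}) * pz z (y + h) :=
    dez_true z d2 (by simp)
  have t1 := measureReal_inter_add_sdiff (μ := mz z) (s := E) hFm
  have t2 := measureReal_inter_add_sdiff (μ := mz z) (s := E ∩ {ω | Gz h b ω y}) hFm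
  have t3 : (mz z).real ((E ∩ F) ∩ {ω | ω y = true}) ≤
      (mz z).real ((E ∩ {ω | Gz h b ω y}) ∩ F) := by
    refine measureReal_mono ?_
    rintro ω ⟨⟨a1, a2⟩, a3⟩
    exact ⟨⟨a1, a3, Or.inl a2⟩, a2⟩
  have t4 : (mz z).real ((((E \ F) ∩ {ω | ω y = true}) ∩
      {ω | ∀ i ∈ Finset.Ioo y (y + h), ω i = false}) ∩ {ω | ω (y + h) = true}) ≤
      (mz z).real ((E ∩ {ω | Gz h b ω y}) \ F) := by
    refine measureReal_mono ?_
    rintro ω ⟨⟨⟨⟨a1, a2⟩, a3⟩, a4⟩, a5⟩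
    exact ⟨⟨a1, a3, Or.inr ⟨fun i i1 i2 => a4 i (Finset.mem_Ioo.2 ⟨i1, i2⟩), a5⟩⟩, a2⟩
  have q1 : 1 / (f : ℝ) ^ 3 ≤ 1 / (4 * (f : ℝ)) := by
    refine one_div_le_one_div_of_le (by positivity) ?_
    nlinarith [sq_nonneg ((f : ℝ) - 4), mul_pos hfp hfp]
  have q2 : 1 / (f : ℝ) ^ 3 ≤ 1 / (4 * (f : ℝ)) * Real.exp (-(4 * mert z)) *
      (1 / (4 * (f : ℝ))) := by
    rw [Real.exp_neg]
    have e1 : 0 < Real.exp (4 * mert z) := Real.exp_pos _
    have e2 : 1 / (4 * (f : ℝ)) * (Real.exp (4 * mert z))⁻¹ * (1 / (4 * (f : ℝ))) =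
        1 / (16 * Real.exp (4 * mert z) * (f : ℝ) ^ 2) := by
      field_simp
      ring
    rw [e2]
    refine one_div_le_one_div_of_le (by positivity) ?_
    have e3 : (0 : ℝ) ≤ (f : ℝ) ^ 2 := by positivity
    calc 16 * Real.exp (4 * mert z) * (f : ℝ) ^ 2 ≤ f * (f : ℝ) ^ 2 :=
          mul_le_mul_of_nonneg_right hf1 e3
      _ = (f : ℝ) ^ 3 := by ring
  have n1 : 0 ≤ (mz z).real (E ∩ F) := measureReal_nonneg
  have n2 : 0 ≤ (mz z).real (E \ F) := measureReal_nonneg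
  have r1 : 1 / (f : ℝ) ^ 3 * (mz z).real (E ∩ F) ≤ (mz z).real (E ∩ F) * pz z y := by
    rw [mul_comm]
    exact mul_le_mul_of_nonneg_left (q1.trans p1) n1
  have r2 : 1 / (f : ℝ) ^ 3 * (mz z).real (E \ F) ≤
      (mz z).real (E \ F) * pz z y * (∏ i ∈ Finset.Ioo y (y + h), (1 - pz z i)) *
        pz z (y + h) := by
    have e0 : (0 : ℝ) ≤ 1 / (4 * (f : ℝ)) := by positivity
    have e1 : 1 / (4 * (f : ℝ)) * Real.exp (-(4 * mert z)) * (1 / (4 * (f : ℝ))) ≤
        pz z y * (∏ i ∈ Finset.Ioo y (y + h), (1 - pz z i)) * pz z (y + h) := by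
      refine mul_le_mul (mul_le_mul p1 p3 (Real.exp_pos _).le (pz_nonneg z y)) p2 e0 ?_
      exact mul_nonneg (pz_nonneg z y) ((Real.exp_pos _).le.trans p3)
    calc 1 / (f : ℝ) ^ 3 * (mz z).real (E \ F)
        ≤ (pz z y * (∏ i ∈ Finset.Ioo y (y + h), (1 - pz z i)) * pz z (y + h)) *
          (mz z).real (E \ F) := mul_le_mul_of_nonneg_right (q2.trans e1) n2
      _ = _ := by ring
  calc 1 / (f : ℝ) ^ 3 * (mz z).real E
      = 1 / (f : ℝ) ^ 3 * (mz z).real (E ∩ F) + 1 / (f : ℝ) ^ 3 * (mz z).real (E \ F) := by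
        rw [← t1]
        ring
    _ ≤ (mz z).real ((E ∩ F) ∩ {ω | ω y = true}) +
        (mz z).real ((((E \ F) ∩ {ω | ω y = true}) ∩
      {ω | ∀ i ∈ Finset.Ioo y (y + h), ω i = false}) ∩ {ω | ω (y + h) = true}) := by
        rw [s4, s3, s2, s1]
        exact add_le_add r1 r2
    _ ≤ (mz z).real ((E ∩ {ω | Gz h b ω y}) ∩ F) + (mz z).real ((E ∩ {ω | Gz h b ω y}) \ F) :=
        add_le_add t3 t4
    _ = _ := t2

end Pool.Agent.RG88.S19
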