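import Pool.Agent.RG88.Def2
import Pool.Agent.RG88.DepM
import Pool.Agent.RS88.FillB

/-!
# The conditional probability of the good pattern (second proof, helper53)
-/

set_option autoImplicit false

namespace Pool.Agent.RG88

open MeasureTheory Filter Pool.Agent.RS88 Pool.Agent.GM53

theorem gz53_exp {x : ℝ} (h0 : 0 ≤ x) (h1 : x ≤ 1 / 2) : Real.exp (-(2 * x)) ≤ 1 - x := by
  rw [Real.exp_neg]
  have h2 : 1 + 2 * x ≤ Real.exp (2 * x) := by
    have := Real.add_one_le_exp (2 * x)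
    linarith
  have h3 : (Real.exp (2 * x))⁻¹ ≤ (1 + 2 * x)⁻¹ := inv_anti₀ (by linarith) h2
  refine h3.trans ?_
  rw [inv_le_iff_one_le_mul₀ (by linarith)]
  nlinarith [mul_nonneg h0 (sub_nonneg.2 h1)]

theorem gz53_two {f : ℕ} (hf : 1 ≤ f) {y : ℕ} (hy : 2 ^ f ≤ y) : (f : ℝ) / 2 ≤ Real.log y := by
  have h1 : ((2 : ℝ) ^ f) ≤ (y : ℝ) := by exact_mod_cast hy
  have h2 : Real.log ((2 : ℝ) ^ f) ≤ Real.log y := Real.log_le_log (by positivity) h1
  rw [Real.log_pow] at h2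
  have h3 := Real.log_two_gt_d9
  have h4 : (1 : ℝ) ≤ f := by exact_mod_cast hf
  nlinarith

theorem gz53_four {f : ℕ} (hf : 2 ≤ f) {y : ℕ} (h0 : 1 ≤ y) (hy : y ≤ 2 ^ (5 * f + 1)) :
    Real.log y ≤ 4 * f := by
  have h1 : (y : ℝ) ≤ ((2 : ℝ) ^ (5 * f + 1)) := by exact_mod_cast hy
  have hy0 : (0 : ℝ) < y := by exact_mod_cast h0
  have h2 : Real.log y ≤ Real.log ((2 : ℝ) ^ (5 * f + 1)) := Real.log_le_log hy0 h1
  rw [Real.log_pow] at h2
  have h3 := Real.log_two_lt_d9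
  have h4 : (2 : ℝ) ≤ f := by exact_mod_cast hf
  push_cast at h2
  nlinarith

theorem gz53_prod {z f h y : ℕ} (hf : 1 ≤ f) (hM : 4 * mert z ≤ f) (hh : h ≤ f) (hy : 2 ^ f ≤ y)
    (hy3 : 3 ≤ y) :
    Real.exp (-(4 * mert z)) ≤ ∏ i ∈ Finset.Ioo y (y + h), (1 - pz z i) := by
  have hM0 : 0 < mert z := mert_pos z
  have hf0 : (1 : ℝ) ≤ f := by exact_mod_cast hf
  have h1 : ∀ i ∈ Finset.Ioo y (y + h), Real.exp (-(4 * mert z / f)) ≤ 1 - pz z i := by
    intro i hi
    rw [Finset.mem_Ioo] at hi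
    have h2 : pz z i ≤ mert z / Real.log i := pz_up (by omega)
    have h3 : (f : ℝ) / 2 ≤ Real.log i := gz53_two hf (by omega)
    have h4 : mert z / Real.log i ≤ mert z / ((f : ℝ) / 2) :=
      div_le_div_of_nonneg_left hM0.le (by linarith) h3
    have h5 : mert z / ((f : ℝ) / 2) = 2 * mert z / f := by
      field_simp
    have h6 : 2 * mert z / f ≤ 1 / 2 := by
      rw [div_le_div_iff₀ (by linarith) (by norm_num)]
      linarith
    have h7 := gz53_exp (x := 2 * mert z / f) (by positivity) h6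
    have h8 : -(2 * (2 * mert z / f)) = -(4 * mert z / f) := by ring
    rw [h8] at h7
    linarith
  have h9 : ∏ _i ∈ Finset.Ioo y (y + h), Real.exp (-(4 * mert z / f)) ≤
      ∏ i ∈ Finset.Ioo y (y + h), (1 - pz z i) :=
    Finset.prod_le_prod (fun i _ => (Real.exp_pos _).le) h1
  refine le_trans ?_ h9
  rw [Finset.prod_const, ← Real.exp_nat_mul, Nat.card_Ioo]
  apply Real.exp_le_exp.2
  have h10 : ((y + h - y - 1 : ℕ) : ℝ) ≤ f := by
    exact_mod_cast (by omega : y + h - y - 1 ≤ f)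
  have h11 : 0 ≤ 4 * mert z / f := by positivity
  have h12 : (f : ℝ) * (4 * mert z / f) = 4 * mert z := by field_simp
  nlinarith [mul_le_mul_of_nonneg_right h10 h11]

theorem gz53_cop {P h s c y : ℕ} (hP : P ∣ h) (hs : s % P = 1 % P)
    (hy : (y : ℤ) - h * (c + 1) = (s : ℤ) ^ 2) : y % P = 1 % P := by
  have h1 : y = h * (c + 1) + s ^ 2 := by
    have : (y : ℤ) = ((h * (c + 1) + s ^ 2 : ℕ) : ℤ) := by
      push_cast
      linarith
    exact_mod_cast this
  obtain ⟨k, rfl⟩ := hP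
  have h2 : s ≡ 1 [MOD P] := hs
  have h3 : s ^ 2 ≡ 1 ^ 2 [MOD P] := h2.pow 2
  have h4 : P * k * (c + 1) + s ^ 2 ≡ 0 + 1 ^ 2 [MOD P] := by
    refine Nat.ModEq.add ?_ h3
    rw [mul_assoc]
    exact (Nat.modEq_zero_iff_dvd.2 (Dvd.intro _ rfl))
  rw [h1]
  have h5 : P * k * (c + 1) + s ^ 2 ≡ 1 [MOD P] := by
    have : 0 + 1 ^ 2 = 1 := by norm_num
    rw [this] at h4
    exact h4
  exact h5

theorem gz_pr53 (z : ℕ) : ∀ᶠ f : ℕ in atTop, ∀ h S b y : ℕ, primorial z ∣ h → 1 ≤ h → h ≤ f →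
    2 ^ f ≤ y → y < 2 ^ (5 * f) → ∀ E : Set (ℕ → Bool),
    Dep ((Finset.range y : Finset ℕ) : Set ℕ) E →
    (∀ ω ∈ E, Tz (primorial z) h (2 ^ f) S ω y) →
    1 / (f : ℝ) ^ 3 * (mz z).real E ≤ (mz z).real (E ∩ {ω | Gz h b ω y}) := by
  have hM0 : 0 < mert z := mert_pos z
  filter_upwards [tendsto_natCast_atTop_atTop.eventually_ge_atTop (4 * mert z),
    tendsto_natCast_atTop_atTop.eventually_ge_atTop (16 * Real.exp (4 * mert z)),
    eventually_ge_atTop 8] with f hf1 hf2 hf8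
  intro h S b y hP h1 hhf hy1 hy2 E hE hT
  by_cases hne : E = ∅
  · rw [hne]
    simp
  obtain ⟨ω₀, hω₀⟩ := Set.nonempty_iff_ne_empty.2 hne
  obtain ⟨-, -, s, -, -, hs, hW, -⟩ := hT ω₀ hω₀
  have hf8' : (8 : ℝ) ≤ f := by exact_mod_cast hf8
  have hyP : y % primorial z = 1 % primorial z := gz53_cop hP hs hW
  have hyc : y.Coprime (primorial z) := by
    have : Nat.gcd y (primorial z) = Nat.gcd 1 (primorial z) := Nat.ModEq.gcd_eq hyP
    rw [Nat.Coprime, this]
    simp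
  have hyc' : (y + h).Coprime (primorial z) := by
    have h2 : y + h ≡ 1 + 0 [MOD primorial z] :=
      Nat.ModEq.add hyP (Nat.modEq_zero_iff_dvd.2 hP)
    have : Nat.gcd (y + h) (primorial z) = Nat.gcd (1 + 0) (primorial z) := Nat.ModEq.gcd_eq h2
    rw [Nat.Coprime, this]
    simp
  have h2f : f < 2 ^ f := Nat.lt_two_pow_self
  have h25 : 2 ^ f ≤ 2 ^ (5 * f) := Nat.pow_le_pow_right (by norm_num) (by omega)
  have h26 : (2 : ℕ) ^ (5 * f + 1) = 2 * 2 ^ (5 * f) := by rw [pow_succ]; ring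
  have hy3 : 3 ≤ y := by omega
  have hl1 : Real.log y ≤ 4 * f := gz53_four (by omega) (by omega) (by omega)
  have hl2 : Real.log ((y + h : ℕ) : ℝ) ≤ 4 * f := gz53_four (by omega) (by omega) (by omega)
  have hg : ∀ m : ℕ, 3 ≤ m → m.Coprime (primorial z) → Real.log (m : ℝ) ≤ 4 * f →
      1 / (4 * (f : ℝ)) ≤ pz z m := by
    intro m hm hc hl
    refine le_trans ?_ (pz_lo hm hc)
    have h3 : (3 : ℝ) ≤ m := by exact_mod_cast hm
    exact one_div_le_one_div_of_le (Real.log_pos (by linarith)) hl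
  have hp1 := hg y hy3 hyc hl1
  have hp2 := hg (y + h) (by omega) hyc' hl2
  have hpr := gz53_prod (z := z) (f := f) (h := h) (y := y) (by omega) hf1 hhf hy1 hy3
  -- the two parts
  set A : Set (ℕ → Bool) := {ω | (ct ω y + 1) % 2 = b % 2} with hA
  have hDA : Dep ((Finset.range y : Finset ℕ) : Set ℕ) (E ∩ A) := by
    intro ω ω' hh
    have e1 := hE ω ω' hh
    have e2 : ct ω y = ct ω' y := fillB_ct (V := y) (fun i hi => hh i (by
      rw [Finset.mem_coe, Finset.mem_range]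
      exact hi)) le_rfl
    simp only [Set.mem_inter_iff, hA, Set.mem_ofPred_eq, e1, e2]
  have hDA' : Dep ((Finset.range y : Finset ℕ) : Set ℕ) (E \ A) := by
    intro ω ω' hh
    have e1 := hE ω ω' hh
    have e2 : ct ω y = ct ω' y := fillB_ct (V := y) (fun i hi => hh i (by
      rw [Finset.mem_coe, Finset.mem_range]
      exact hi)) le_rfl
    simp only [Set.mem_sdiff, hA, Set.mem_ofPred_eq, e1, e2]
  have hmE : (mz z).real E = (mz z).real (E ∩ A) + (mz z).real (E \ A) := by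
    have hd : Disjoint (E ∩ A) (E \ A) := by
      rw [Set.disjoint_left]
      rintro ω ⟨-, h3⟩ ⟨-, h4⟩
      exact h4 h3
    have := measureReal_union (μ := mz z) hd hDA'.meas
    rw [← this, Set.inter_union_sdiff]
  have hyr : y ∉ (Finset.range y : Finset ℕ) := by simp
  have hF1 := dez_true z hDA hyr
  have hF2 := dez_true z hDA' hyr
  set F : Set (ℕ → Bool) := (E \ A) ∩ {ω | ω y = true} with hF
  have hDF : Dep ((Finset.range (y + 1) : Finset ℕ) : Set ℕ) F := by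
    intro ω ω' hh
    have e1 := hDA' ω ω' (fun i hi => hh i (by
      rw [Finset.mem_coe, Finset.mem_range] at hi ⊢
      omega))
    have e2 : ω y = ω' y := hh y (by
      rw [Finset.mem_coe, Finset.mem_range]
      omega)
    simp only [hF, Set.mem_inter_iff, Set.mem_ofPred_eq, e1, e2]
  have hdis : Disjoint (Finset.range (y + 1)) (Finset.Ioo y (y + h)) := by
    rw [Finset.disjoint_left]
    intro i hi hi'
    rw [Finset.mem_range] at hi
    rw [Finset.mem_Ioo] at hi'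
    omega
  have hF3 := dez_inter z hdis hDF
  set F' : Set (ℕ → Bool) := F ∩ {ω | ∀ i ∈ Finset.Ioo y (y + h), ω i = false} with hF'
  have hDF' : Dep ((Finset.range (y + h) : Finset ℕ) : Set ℕ) F' := by
    intro ω ω' hh
    have e1 := hDF ω ω' (fun i hi => hh i (by
      rw [Finset.mem_coe, Finset.mem_range] at hi ⊢
      omega))
    have e2 : (∀ i ∈ Finset.Ioo y (y + h), ω i = false) ↔
        ∀ i ∈ Finset.Ioo y (y + h), ω' i = false := by
      refine forall₂_congr fun i hi => ?_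
      rw [hh i (by
        rw [Finset.mem_Ioo] at hi
        rw [Finset.mem_coe, Finset.mem_range]
        omega)]
    simp only [hF', Set.mem_inter_iff, Set.mem_ofPred_eq, e1, e2]
  have hyr' : y + h ∉ (Finset.range (y + h) : Finset ℕ) := by simp
  have hF4 := dez_true z hDF' hyr'
  have hmeasF1 : MeasurableSet ((E ∩ A) ∩ {ω : ℕ → Bool | ω y = true}) :=
    hDA.meas.inter (Dep_coord y true).meas
  have hmeasF4 : MeasurableSet (F' ∩ {ω : ℕ → Bool | ω (y + h) = true}) :=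
    hDF'.meas.inter (Dep_coord (y + h) true).meas
  have hdj : Disjoint ((E ∩ A) ∩ {ω : ℕ → Bool | ω y = true})
      (F' ∩ {ω : ℕ → Bool | ω (y + h) = true}) := by
    rw [Set.disjoint_left]
    rintro ω ⟨⟨-, h3⟩, -⟩ ⟨⟨⟨⟨-, h4⟩, -⟩, -⟩, -⟩
    exact h4 h3
  have hun := measureReal_union (μ := mz z) hdj hmeasF4
  have hsub : ((E ∩ A) ∩ {ω : ℕ → Bool | ω y = true}) ∪
      (F' ∩ {ω : ℕ → Bool | ω (y + h) = true}) ⊆ E ∩ {ω | Gz h b ω y} := by
    rintro ω (⟨⟨h3, h4⟩, h5⟩ | ⟨⟨⟨⟨h3, h4⟩, h5⟩, h6⟩, h7⟩)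
    · exact ⟨h3, h5, Or.inl h4⟩
    · refine ⟨h3, h5, Or.inr ⟨fun i hi1 hi2 => h6 i (Finset.mem_Ioo.2 ⟨hi1, hi2⟩), h7⟩⟩
  have hle : (mz z).real (((E ∩ A) ∩ {ω : ℕ → Bool | ω y = true}) ∪
      (F' ∩ {ω : ℕ → Bool | ω (y + h) = true})) ≤ (mz z).real (E ∩ {ω | Gz h b ω y}) :=
    measureReal_mono hsub
  refine le_trans ?_ hle
  rw [hun, hF1, hF4, hF3, hF2, hmE, mul_add]
  have hf0 : (0 : ℝ) < f := by linarith
  have hEA : 0 ≤ (mz z).real (E ∩ A) := measureReal_nonneg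
  have hEA' : 0 ≤ (mz z).real (E \ A) := measureReal_nonneg
  refine add_le_add ?_ ?_
  · rw [mul_comm]
    refine mul_le_mul_of_nonneg_left (le_trans ?_ hp1) hEA
    apply one_div_le_one_div_of_le (by positivity)
    have : (f : ℝ) ^ 3 = f * (f * f) := by ring
    rw [this]
    nlinarith
  · have h20 : 1 / (f : ℝ) ^ 3 ≤ 1 / (4 * (f : ℝ)) * Real.exp (-(4 * mert z)) * (1 / (4 * (f : ℝ))) := by
      rw [Real.exp_neg]
      have he : 0 < Real.exp (4 * mert z) := Real.exp_pos _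
      have h21 : 1 / (4 * (f : ℝ)) * (Real.exp (4 * mert z))⁻¹ * (1 / (4 * (f : ℝ))) =
          1 / (16 * (f : ℝ) ^ 2 * Real.exp (4 * mert z)) := by
        field_simp
        norm_num
      rw [h21]
      apply one_div_le_one_div_of_le (by positivity)
      have h22 : (f : ℝ) ^ 3 = (f : ℝ) ^ 2 * f := by ring
      rw [h22]
      have h23 : 0 ≤ (f : ℝ) ^ 2 := by positivity
      nlinarith [mul_le_mul_of_nonneg_left hf2 h23]
    have h24 : 1 / (4 * (f : ℝ)) * Real.exp (-(4 * mert z)) * (1 / (4 * (f : ℝ))) ≤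
        pz z y * (∏ i ∈ Finset.Ioo y (y + h), (1 - pz z i)) * pz z (y + h) := by
      have h25 : 0 ≤ 1 / (4 * (f : ℝ)) := by positivity
      have h26 : 0 ≤ Real.exp (-(4 * mert z)) := (Real.exp_pos _).le
      have h27 : 1 / (4 * (f : ℝ)) * Real.exp (-(4 * mert z)) ≤
          pz z y * (∏ i ∈ Finset.Ioo y (y + h), (1 - pz z i)) :=
        mul_le_mul hp1 hpr h26 (pz_nonneg z y)
      exact mul_le_mul h27 hp2 h25 (le_trans (mul_nonneg h25 h26) h27)
    calc 1 / (f : ℝ) ^ 3 * (mz z).real (E \ A)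
        ≤ (pz z y * (∏ i ∈ Finset.Ioo y (y + h), (1 - pz z i)) * pz z (y + h)) *
          (mz z).real (E \ A) := mul_le_mul_of_nonneg_right (h20.trans h24) hEA'
      _ = (mz z).real (E \ A) * pz z y * (∏ i ∈ Finset.Ioo y (y + h), (1 - pz z i)) *
          pz z (y + h) := by ring

end Pool.Agent.RG88
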