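import Pool.Agent.RG88.Def2
import Pool.Agent.RG88.DepM

/-!
# The conditional probability of the good pattern, proof
-/

set_option autoImplicit false

namespace Pool.Agent.RG88.S78

open MeasureTheory Filter Pool.Agent.RS88 Pool.Agent.GM53 Pool.Agent.RG88

theorem ct_dep (y : ℕ) (ω ω' : ℕ → Bool)
    (h : ∀ i ∈ ((Finset.range y : Finset ℕ) : Set ℕ), ω i = ω' i) : ct ω y = ct ω' y := by
  unfold ct
  rw [Nat.count_eq_card_filter_range, Nat.count_eq_card_filter_range]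
  congr 1
  apply Finset.filter_congr
  intro i hi
  rw [h i (Finset.mem_coe.2 hi)]

theorem one_sub_ge {x : ℝ} (h0 : 0 ≤ x) (h1 : x ≤ 1 / 2) : Real.exp (-(2 * x)) ≤ 1 - x := by
  rw [Real.exp_neg]
  have h2 := Real.add_one_le_exp (2 * x)
  have h3 : 0 < 2 * x + 1 := by linarith
  calc (Real.exp (2 * x))⁻¹ ≤ (2 * x + 1)⁻¹ := inv_anti₀ h3 h2
    _ ≤ 1 - x := by
      rw [inv_le_iff_one_le_mul₀ h3]
      nlinarith

theorem log_low {f i : ℕ} (hi : 2 ^ f ≤ i) : (f : ℝ) / 2 ≤ Real.log i := by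
  have h1 : ((2 : ℝ) ^ f) ≤ i := by exact_mod_cast hi
  have h2 : Real.log ((2 : ℝ) ^ f) ≤ Real.log i := Real.log_le_log (by positivity) h1
  rw [Real.log_pow] at h2
  have h3 := Real.log_two_gt_d9
  have h4 : (0 : ℝ) ≤ f := by positivity
  nlinarith

theorem pz_low {z f m : ℕ} (hf : 3 ≤ f) (hm : 2 ^ f ≤ m) (hm' : m ≤ 2 ^ (5 * f + 1))
    (hc : m.Coprime (primorial z)) : 1 / (4 * (f : ℝ)) ≤ pz z m := by
  have h8 : 8 ≤ 2 ^ f := by
    calc 8 = 2 ^ 3 := by norm_num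
      _ ≤ 2 ^ f := Nat.pow_le_pow_right (by norm_num) hf
  have hm3 : 3 ≤ m := by omega
  refine le_trans ?_ (pz_lo hm3 hc)
  have h3 : (3 : ℝ) ≤ m := by exact_mod_cast hm3
  have h0 : 0 < Real.log m := Real.log_pos (by linarith)
  refine one_div_le_one_div_of_le h0 ?_
  have h1 : (m : ℝ) ≤ (2 : ℝ) ^ (5 * f + 1) := by exact_mod_cast hm'
  have h2 : Real.log m ≤ Real.log ((2 : ℝ) ^ (5 * f + 1)) :=
    Real.log_le_log (by linarith) h1
  rw [Real.log_pow] at h2
  push_cast at h2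
  have h4 := Real.log_two_lt_d9
  have h5 : (3 : ℝ) ≤ f := by exact_mod_cast hf
  nlinarith

theorem prod_low {z f y h : ℕ} (hf : 4 * mert z ≤ (f : ℝ)) (hf3 : 3 ≤ f) (hy : 2 ^ f ≤ y)
    (hh : h ≤ f) :
    Real.exp (-(4 * mert z)) ≤ ∏ i ∈ Finset.Ioo y (y + h), (1 - pz z i) := by
  have hf0 : (0 : ℝ) < f := by
    have : 0 < f := by omega
    exact_mod_cast this
  have hC := mert_pos z
  set x : ℝ := 2 * mert z / f with hx
  have hx0 : 0 ≤ x := by positivity
  have hx1 : x ≤ 1 / 2 := by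
    rw [hx, div_le_iff₀ hf0]
    linarith
  have h8 : 8 ≤ 2 ^ f := by
    calc 8 = 2 ^ 3 := by norm_num
      _ ≤ 2 ^ f := Nat.pow_le_pow_right (by norm_num) hf3
  have h1 : ∀ i ∈ Finset.Ioo y (y + h), Real.exp (-(2 * x)) ≤ 1 - pz z i := by
    intro i hi
    rw [Finset.mem_Ioo] at hi
    have hi3 : 3 ≤ i := by omega
    have h2 := pz_up (z := z) hi3
    have h3 := log_low (f := f) (i := i) (by omega)
    have h4 : mert z / Real.log i ≤ x := by
      calc mert z / Real.log i ≤ mert z / (f / 2) :=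
            div_le_div_of_nonneg_left hC.le (by positivity) h3
        _ = x := by
          rw [hx]
          field_simp
    have h5 := one_sub_ge hx0 hx1
    linarith
  have h2 : ∏ _i ∈ Finset.Ioo y (y + h), Real.exp (-(2 * x)) ≤
      ∏ i ∈ Finset.Ioo y (y + h), (1 - pz z i) :=
    Finset.prod_le_prod (fun i _ => (Real.exp_pos _).le) h1
  refine le_trans ?_ h2
  rw [Finset.prod_const, ← Real.exp_nat_mul]
  refine Real.exp_le_exp.2 ?_
  have h3 : ((Finset.Ioo y (y + h)).card : ℝ) ≤ f := by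
    rw [Nat.card_Ioo]
    have : y + h - y - 1 ≤ f := by omega
    exact_mod_cast this
  have h4 : ((Finset.Ioo y (y + h)).card : ℝ) * x ≤ f * x :=
    mul_le_mul_of_nonneg_right h3 hx0
  have h5 : (f : ℝ) * x = 2 * mert z := by
    rw [hx]
    field_simp
  nlinarith

theorem cop_one {P m : ℕ} (h : m % P = 1 % P) : m.Coprime P := by
  have h1 : Nat.gcd m P = Nat.gcd 1 P := Nat.ModEq.gcd_eq h
  rw [Nat.Coprime, h1]
  exact Nat.gcd_one_left P

theorem gz_pr (z : ℕ) : ∀ᶠ f : ℕ in atTop, ∀ h S b y : ℕ, primorial z ∣ h → 1 ≤ h → h ≤ f →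
    2 ^ f ≤ y → y < 2 ^ (5 * f) → ∀ E : Set (ℕ → Bool),
    Dep ((Finset.range y : Finset ℕ) : Set ℕ) E →
    (∀ ω ∈ E, Tz (primorial z) h (2 ^ f) S ω y) →
    1 / (f : ℝ) ^ 3 * (mz z).real E ≤ (mz z).real (E ∩ {ω | Gz h b ω y}) := by
  filter_upwards [eventually_ge_atTop 3, eventually_ge_atTop ⌈4 * mert z⌉₊,
    eventually_ge_atTop ⌈16 * Real.exp (4 * mert z)⌉₊] with f hf3 hf1 hf2
  intro h S b y hPh hh1 hhf hy1 hy2 E hE hT
  have hfc : 4 * mert z ≤ (f : ℝ) := (Nat.le_ceil _).trans (by exact_mod_cast hf1)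
  have hfe : 16 * Real.exp (4 * mert z) ≤ (f : ℝ) := (Nat.le_ceil _).trans (by exact_mod_cast hf2)
  have hf3' : (3 : ℝ) ≤ f := by exact_mod_cast hf3
  have hf0 : (0 : ℝ) < f := by linarith
  rcases Set.eq_empty_or_nonempty E with hE0 | ⟨ω₀, hω₀⟩
  · rw [hE0]
    simp
  obtain ⟨-, -, s, -, -, hs, hW, -⟩ := hT ω₀ hω₀
  -- residues
  have hyeq : y = h * (ct ω₀ y + 1) + s ^ 2 := by
    have h1 : (y : ℤ) = h * (ct ω₀ y + 1) + (s : ℤ) ^ 2 := by
      unfold W at hW
      linarith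
    exact_mod_cast h1
  have hmod : y % primorial z = 1 % primorial z := by
    have h1 : y ≡ s ^ 2 [MOD primorial z] := by
      obtain ⟨c, hc⟩ := hPh
      have h2 : h * (ct ω₀ y + 1) ≡ 0 [MOD primorial z] := by
        rw [hc, mul_assoc]
        exact (Nat.modEq_zero_iff_dvd).2 (dvd_mul_right _ _)
      have h3 := h2.add_right (s ^ 2)
      rw [zero_add, ← hyeq] at h3
      exact h3
    have h2 : s ^ 2 ≡ 1 ^ 2 [MOD primorial z] := Nat.ModEq.pow 2 hs
    have h3 := h1.trans h2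
    rw [one_pow] at h3
    exact h3
  have hmod' : (y + h) % primorial z = 1 % primorial z := by
    obtain ⟨c, hc⟩ := hPh
    rw [hc, Nat.add_mul_mod_self_left]
    exact hmod
  have hpow : 2 ^ (5 * f) + f ≤ 2 ^ (5 * f + 1) := by
    have h1 : f < 2 ^ f := Nat.lt_two_pow_self
    have h2 : 2 ^ f ≤ 2 ^ (5 * f) := Nat.pow_le_pow_right (by norm_num) (by omega)
    rw [pow_succ]
    omega
  have py : 1 / (4 * (f : ℝ)) ≤ pz z y :=
    pz_low hf3 hy1 (by omega) (cop_one hmod)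
  have pyh : 1 / (4 * (f : ℝ)) ≤ pz z (y + h) :=
    pz_low hf3 (by omega) (by omega) (cop_one hmod')
  have pP := prod_low (z := z) (h := h) hfc hf3 hy1 hhf
  -- the two parts
  set A : Set (ℕ → Bool) := {ω | (ct ω y + 1) % 2 = b % 2} with hA
  have hAd : Dep ((Finset.range y : Finset ℕ) : Set ℕ) A := by
    intro ω ω' hω
    have h1 := ct_dep y ω ω' hω
    rw [hA]
    simp only [Set.mem_ofPred_eq]
    rw [h1]
  have hAm : MeasurableSet A := hAd.meas
  have hE1 : Dep ((Finset.range y : Finset ℕ) : Set ℕ) (E ∩ A) := by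
    intro ω ω' hω
    exact and_congr (hE ω ω' hω) (hAd ω ω' hω)
  have hE2 : Dep ((Finset.range y : Finset ℕ) : Set ℕ) (E \ A) := by
    intro ω ω' hω
    exact and_congr (hE ω ω' hω) (not_congr (hAd ω ω' hω))
  have hyr : y ∉ Finset.range y := by simp
  have g1 := dez_true z hE1 hyr
  have g2 := dez_true z hE2 hyr
  have hE3 : Dep ((Finset.range (y + 1) : Finset ℕ) : Set ℕ) ((E \ A) ∩ {ω | ω y = true}) := by
    intro ω ω' hω
    refine and_congr (hE2 ω ω' fun i hi => hω i ?_) ?_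
    · have hi' := Finset.mem_range.1 (Finset.mem_coe.1 hi)
      exact Finset.mem_coe.2 (Finset.mem_range.2 (by omega))
    · show ω y = true ↔ ω' y = true
      rw [hω y (Finset.mem_coe.2 (Finset.mem_range.2 (by omega)))]
  have hdis : Disjoint (Finset.range (y + 1)) (Finset.Ioo y (y + h)) := by
    rw [Finset.disjoint_left]
    intro i hi hi'
    rw [Finset.mem_range] at hi
    rw [Finset.mem_Ioo] at hi'
    omega
  have g3 := dez_inter z hdis hE3
  have hE4 : Dep ((Finset.range (y + h) : Finset ℕ) : Set ℕ)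
      (((E \ A) ∩ {ω | ω y = true}) ∩ {ω | ∀ i ∈ Finset.Ioo y (y + h), ω i = false}) := by
    intro ω ω' hω
    refine and_congr (hE3 ω ω' fun i hi => hω i ?_) ?_
    · have hi' := Finset.mem_range.1 (Finset.mem_coe.1 hi)
      exact Finset.mem_coe.2 (Finset.mem_range.2 (by omega))
    · show (∀ i ∈ Finset.Ioo y (y + h), ω i = false) ↔ ∀ i ∈ Finset.Ioo y (y + h), ω' i = false
      refine forall₂_congr fun i hi => ?_
      rw [hω i (Finset.mem_coe.2 (Finset.mem_range.2 (Finset.mem_Ioo.1 hi).2))]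
  have g4 := dez_true z hE4 (m := y + h) (by simp)
  -- the lower bounds of the two parts
  have l1 : (mz z).real ((E ∩ A) ∩ {ω | ω y = true}) ≤
      (mz z).real ((E ∩ {ω | Gz h b ω y}) ∩ A) := by
    refine measureReal_mono ?_
    rintro ω ⟨⟨h1, h2⟩, h3⟩
    exact ⟨⟨h1, h3, Or.inl h2⟩, h2⟩
  have l2 : (mz z).real ((((E \ A) ∩ {ω | ω y = true}) ∩
      {ω | ∀ i ∈ Finset.Ioo y (y + h), ω i = false}) ∩ {ω | ω (y + h) = true}) ≤
      (mz z).real ((E ∩ {ω | Gz h b ω y}) \ A) := by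
    refine measureReal_mono ?_
    rintro ω ⟨⟨⟨⟨h1, h2⟩, h3⟩, h4⟩, h5⟩
    refine ⟨⟨h1, h3, Or.inr ⟨fun i hi hi' => h4 i (Finset.mem_Ioo.2 ⟨hi, hi'⟩), h5⟩⟩, h2⟩
  have t1 := measureReal_inter_add_sdiff (μ := mz z) (s := E) hAm
  have t2 := measureReal_inter_add_sdiff (μ := mz z)
    (s := E ∩ {ω | Gz h b ω y}) hAm
  have n1 : 0 ≤ (mz z).real (E ∩ A) := measureReal_nonneg
  have n2 : 0 ≤ (mz z).real (E \ A) := measureReal_nonneg
  -- the constants
  have hq : 0 < 1 / (4 * (f : ℝ)) := by positivity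
  have c1 : 1 / (f : ℝ) ^ 3 ≤ pz z y := by
    refine le_trans ?_ py
    refine one_div_le_one_div_of_le (by positivity) ?_
    nlinarith [mul_pos hf0 hf0]
  have c2 : 1 / (f : ℝ) ^ 3 ≤
      pz z y * (∏ i ∈ Finset.Ioo y (y + h), (1 - pz z i)) * pz z (y + h) := by
    have e0 : 0 < Real.exp (-(4 * mert z)) := Real.exp_pos _
    have e1 : 1 / (4 * (f : ℝ)) * Real.exp (-(4 * mert z)) * (1 / (4 * (f : ℝ))) ≤
        pz z y * (∏ i ∈ Finset.Ioo y (y + h), (1 - pz z i)) * pz z (y + h) := by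
      refine mul_le_mul (mul_le_mul py pP e0.le (hq.le.trans py)) pyh hq.le ?_
      exact mul_nonneg (hq.le.trans py) (e0.le.trans pP)
    refine le_trans ?_ e1
    have e2 : Real.exp (-(4 * mert z)) * Real.exp (4 * mert z) = 1 := by
      rw [← Real.exp_add]
      simp
    have e3 : 16 ≤ f * Real.exp (-(4 * mert z)) := by
      have := mul_le_mul_of_nonneg_right hfe e0.le
      nlinarith
    rw [div_le_iff₀ (by positivity)]
    have e4 : 1 / (4 * (f : ℝ)) * Real.exp (-(4 * mert z)) * (1 / (4 * (f : ℝ))) * (f : ℝ) ^ 3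
        = f * Real.exp (-(4 * mert z)) / 16 := by
      field_simp
      ring
    rw [e4]
    linarith
  have k1 : 1 / (f : ℝ) ^ 3 * (mz z).real (E ∩ A) ≤ (mz z).real ((E ∩ {ω | Gz h b ω y}) ∩ A) := by
    refine le_trans ?_ l1
    rw [g1, mul_comm]
    exact mul_le_mul_of_nonneg_left c1 n1
  have k2 : 1 / (f : ℝ) ^ 3 * (mz z).real (E \ A) ≤ (mz z).real ((E ∩ {ω | Gz h b ω y}) \ A) := by
    refine le_trans ?_ l2
    rw [g4, g3, g2]
    have := mul_le_mul_of_nonneg_left c2 n2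
    nlinarith
  rw [← t1, ← t2, mul_add]
  exact add_le_add k1 k2

end Pool.Agent.RG88.S78
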