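import Pool.Agent.RG88.Def2
import Pool.Agent.RS88.SkipC

/-!
# The trials and the patterns depend on the coordinates before them

As `tr_dep` in RS88/SkipC. (`N ≤ y` is part of `Tz`, so `W ω h N` depends on the coordinates `< y`.)
-/

set_option autoImplicit false

namespace Pool.Agent.RG88

open MeasureTheory Filter Pool.Agent.RS88

theorem ct_congr83 {ω ω' : ℕ → Bool} {y : ℕ} (h : ∀ i, i < y → ω i = ω' i) :
    ∀ z, z ≤ y → ct ω z = ct ω' z := by
  intro z
  induction z with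
  | zero =>
    intro _
    simp [ct]
  | succ z ih =>
    intro hz
    have h1 := ih (by omega)
    have h2 : ω z = ω' z := h z (by omega)
    unfold ct at h1 ⊢
    rw [Nat.count_succ, Nat.count_succ, h1, h2]

theorem tz_congr83 {P h N S y : ℕ} {ω ω' : ℕ → Bool} (hw : ∀ i, i < y → ω i = ω' i)
    (H : Tz P h N S ω y) : Tz P h N S ω' y := by
  have hct := ct_congr83 hw
  have hW : ∀ z, z ≤ y → W ω h z = W ω' h z := by
    intro z hz
    unfold W
    rw [hct z hz]
  obtain ⟨hN, h0, s, h1, h2, h3, h4, h5⟩ := H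
  refine ⟨hN, ?_, s, h1, h2, h3, ?_, ?_⟩
  · rw [← hW N hN]
    exact h0
  · rw [← hW y le_rfl]
    exact h4
  · intro z h6 h7
    rw [← hW z h7.le]
    exact h5 z h6 h7

theorem gz_congr83 {h b y : ℕ} {ω ω' : ℕ → Bool} (hw : ∀ i, i < y + (h + 1) → ω i = ω' i)
    (H : Gz h b ω y) : Gz h b ω' y := by
  have hct : ct ω y = ct ω' y :=
    ct_congr83 (y := y) (fun i hi => hw i (by omega)) y le_rfl
  obtain ⟨h1, h2⟩ := H
  refine ⟨?_, ?_⟩
  · rw [← hw y (by omega)]
    exact h1
  · rcases h2 with h2 | ⟨h2, h3⟩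
    · left
      rw [← hct]
      exact h2
    · right
      refine ⟨fun i hi hi' => ?_, ?_⟩
      · rw [← hw i (by omega)]
        exact h2 i hi hi'
      · rw [← hw (y + h) (by omega)]
        exact h3

theorem tz_dep (P h N S y : ℕ) :
    Dep ((Finset.range y : Finset ℕ) : Set ℕ) {ω | Tz P h N S ω y} := by
  intro ω ω' hw
  have h1 : ∀ i, i < y → ω i = ω' i := fun i hi =>
    hw i (by
      rw [Finset.mem_coe, Finset.mem_range]
      exact hi)
  show Tz P h N S ω y ↔ Tz P h N S ω' y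
  exact ⟨tz_congr83 h1, tz_congr83 fun i hi => (h1 i hi).symm⟩

theorem gz_dep (P h N S b y : ℕ) :
    Dep ((Finset.range (y + (h + 1)) : Finset ℕ) : Set ℕ)
      {ω | Tz P h N S ω y ∧ Gz h b ω y} := by
  intro ω ω' hw
  have h1 : ∀ i, i < y + (h + 1) → ω i = ω' i := fun i hi =>
    hw i (by
      rw [Finset.mem_coe, Finset.mem_range]
      exact hi)
  show (Tz P h N S ω y ∧ Gz h b ω y) ↔ (Tz P h N S ω' y ∧ Gz h b ω' y)
  exact ⟨fun H => ⟨tz_congr83 (fun i hi => h1 i (by omega)) H.1, gz_congr83 h1 H.2⟩,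
    fun H => ⟨tz_congr83 (fun i hi => (h1 i (by omega)).symm) H.1,
      gz_congr83 (fun i hi => (h1 i hi).symm) H.2⟩⟩

end Pool.Agent.RG88
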