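import Pool.Agent.RG88.Def2
import Pool.Agent.RS88.SkipA

/-!
# Gaps between trials, number of trials

`tz_gap`: the walk goes up by at most `1` (`W_succ`), and `W N ≤ 0`. Let `s`, `s'` be the levels of `y < y'`. `s' ≤ s` is
impossible: `W y = s ^ 2 ≥ s' ^ 2`, against the minimality of `y'`. So `s < s'`, `y' - y ≥ s' ^ 2 - s ^ 2 ≥ 2 s + 1 ≥ h + 1`.
`tz_trials`: as `trials` in RS88/SkipA (`SkipA_first` for every level `s`).
`lev_card`: every `P` consecutive integers contain one that is `1` modulo `P`.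
-/

set_option autoImplicit false

namespace Pool.Agent.RG88

open MeasureTheory Filter Pool.Agent.RS88

theorem TzGap_up (ω : ℕ → Bool) (f y k : ℕ) : W ω f (y + k) ≤ W ω f y + k := by
  induction k with
  | zero => simp
  | succ k ih =>
    have h1 := W_succ ω f (y + k)
    have h2 : (0 : ℤ) ≤ (if ω (y + k) = true then (f : ℤ) else 0) := by
      split_ifs
      · exact Int.natCast_nonneg f
      · exact le_rfl
    rw [← add_assoc, h1]
    push_cast
    linarith

theorem tz_gap {P h N S y y' : ℕ} {ω : ℕ → Bool} (hy : Tz P h N S ω y) (hy' : Tz P h N S ω y')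
    (hyy : y < y') : y + (h + 1) ≤ y' := by
  obtain ⟨hN, -, s, hs, -, -, hWs, -⟩ := hy
  obtain ⟨-, -, s', -, -, -, hWs', hmin⟩ := hy'
  have h1 := hmin y hN hyy
  rw [hWs] at h1
  have h2 : s < s' := by
    by_contra hc
    have h3 : (s' : ℤ) ≤ s := by exact_mod_cast not_lt.1 hc
    have h4 : (s' : ℤ) ^ 2 ≤ (s : ℤ) ^ 2 := pow_le_pow_left₀ (Int.natCast_nonneg s') h3 2
    linarith
  obtain ⟨k, rfl⟩ : ∃ k, y' = y + k := ⟨y' - y, by omega⟩
  have h5 := TzGap_up ω h y k
  rw [hWs, hWs'] at h5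
  have h6 : ((s : ℤ) + 1) ^ 2 ≤ (s' : ℤ) ^ 2 :=
    pow_le_pow_left₀ (by positivity) (by exact_mod_cast h2) 2
  have h7 : (2 : ℤ) * s + 1 ≤ k := by nlinarith
  omega

open Classical in
theorem tz_trials {ω : ℕ → Bool} {P h N V S : ℕ} (hNV : N ≤ V) (h1 : W ω h N ≤ 0)
    (h2 : (S : ℤ) ^ 2 < W ω h V) :
    ((Finset.Icc (h + 1) S).filter (fun s => s % P = 1 % P)).card ≤
      ((Finset.Ico N V).filter (fun y => Tz P h N S ω y)).card := by
  have hex : ∀ s : ℕ, ∃ y, 1 ≤ s → s ≤ S → (N ≤ y ∧ y < V ∧ W ω h y = (s : ℤ) ^ 2 ∧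
      ∀ y', N ≤ y' → y' < y → W ω h y' < (s : ℤ) ^ 2) := by
    intro s
    by_cases hs : 1 ≤ s ∧ s ≤ S
    · have hss : (s : ℤ) ^ 2 ≤ (S : ℤ) ^ 2 := by
        have hc : (s : ℤ) ≤ S := by exact_mod_cast hs.2
        exact pow_le_pow_left₀ (Int.natCast_nonneg s) hc 2
      obtain ⟨y, hy⟩ := SkipA_first hNV h1 hs.1 (lt_of_le_of_lt hss h2)
      exact ⟨y, fun _ _ => hy⟩
    · exact ⟨0, fun a b => absurd ⟨a, b⟩ hs⟩
  choose g hg using hex
  apply Finset.card_le_card_of_injOn g
  · intro s hs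
    obtain ⟨hs1, hs2⟩ := Finset.mem_filter.1 (Finset.mem_coe.1 hs)
    have hs' := Finset.mem_Icc.1 hs1
    obtain ⟨a, b, c, d⟩ := hg s (by omega) hs'.2
    rw [Finset.mem_coe, Finset.mem_filter, Finset.mem_Ico]
    exact ⟨⟨a, b⟩, a, h1, s, by omega, hs'.2, hs2, c, d⟩
  · intro s hs s' hs' he
    have hs1 := Finset.mem_Icc.1 (Finset.mem_filter.1 (Finset.mem_coe.1 hs)).1
    have hs2 := Finset.mem_Icc.1 (Finset.mem_filter.1 (Finset.mem_coe.1 hs')).1
    have c := (hg s (by omega) hs1.2).2.2.1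
    have c' := (hg s' (by omega) hs2.2).2.2.1
    rw [he, c'] at c
    have c2 : (s' ^ 2 : ℕ) = s ^ 2 := by exact_mod_cast c
    exact (Nat.pow_left_injective (n := 2) (by norm_num) c2).symm

theorem lev_card {P h S : ℕ} (hP : 1 ≤ P) :
    (S - h) / P ≤ ((Finset.Icc (h + 1) S).filter (fun s => s % P = 1 % P)).card := by
  obtain ⟨q, hq⟩ : ∃ q, q = (h + P - 1) / P := ⟨_, rfl⟩
  have h1 : P * q ≤ h + P - 1 := by rw [hq]; exact Nat.mul_div_le _ _
  have h2 : h + P - 1 < P * (q + 1) := by rw [hq]; exact Nat.lt_mul_div_succ _ hP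
  have h3 : h ≤ P * q := by
    rw [mul_add, mul_one] at h2
    omega
  calc (S - h) / P = (Finset.range ((S - h) / P)).card := (Finset.card_range _).symm
    _ ≤ _ := by
      apply Finset.card_le_card_of_injOn (fun i => P * q + i * P + 1)
      · intro i hi
        have hi := Finset.mem_range.1 (Finset.mem_coe.1 hi)
        have h4 : (i + 1) * P ≤ (S - h) / P * P := Nat.mul_le_mul_right P hi
        have h5 : (S - h) / P * P ≤ S - h := Nat.div_mul_le_self _ _
        have h6 : (i + 1) * P = i * P + P := by ring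
        rw [Finset.mem_coe, Finset.mem_filter, Finset.mem_Icc]
        beta_reduce
        refine ⟨⟨by omega, by omega⟩, ?_⟩
        have h7 : P * q + i * P + 1 = P * (q + i) + 1 := by ring
        rw [h7, Nat.mul_add_mod]
      · intro i _ j _ hij
        have h8 : i * P = j * P := by
          simp only at hij
          omega
        exact Nat.eq_of_mul_eq_mul_right hP h8

end Pool.Agent.RG88
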