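import Pool.Agent.RG88.Blk
import Pool.Agent.RG88.TzDep
import Pool.Agent.RG88.TzGap
import Pool.Agent.RG88.GzCard
import Pool.Agent.RG88.GzPr
import Pool.Agent.RG88.MFzN
import Pool.Agent.RG88.ConcZ

/-!
# Many `m` of each parity with a square residue

As RS88/MFS96 (copy it): `P = primorial z`, `h = f - f % P` (`P ∣ h`), `N = 2^f`, `V = 2^(5f)`, `S = 2^(f/3)`; `blk` with
`l = h + 1`, `T = Tz P h N S`, `G = Gz h b`, `p = 1/f³` (`gz_pr`, for large `f`), number of trials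
`(2^(f/3) - f)/P` (`lev_card`, `tz_trials`, `h ≤ f`), `t = 2^(f/4)`; `mfz_num`, Borel-Cantelli; `concz`, `mfz_conc`, `gz_card`.
-/

set_option autoImplicit false

namespace Pool.Agent.RG88

open MeasureTheory Filter Pool.Agent.RS88

open Classical in
theorem mfz (z b : ℕ) : ∀ᵐ ω ∂(mz z), ∀ᶠ f : ℕ in atTop,
    2 ^ (f / 4) ≤ ((Msq ω (2 ^ f / f) (2 ^ (5 * f))).filter (fun m => m % 2 = b % 2)).card := by
  obtain ⟨P, hPe⟩ : ∃ P, P = primorial z := ⟨_, rfl⟩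
  have hP : 1 ≤ P := by rw [hPe]; exact primorial_pos z
  obtain ⟨Q, hQ⟩ : ∃ Q : ℕ → Prop, Q = fun f => ∀ h S b y : ℕ, primorial z ∣ h → 1 ≤ h → h ≤ f →
    2 ^ f ≤ y → y < 2 ^ (5 * f) → ∀ E : Set (ℕ → Bool),
    Dep ((Finset.range y : Finset ℕ) : Set ℕ) E →
    (∀ ω ∈ E, Tz (primorial z) h (2 ^ f) S ω y) →
    1 / (f : ℝ) ^ 3 * (mz z).real E ≤ (mz z).real (E ∩ {ω | Gz h b ω y}) := ⟨_, rfl⟩
  have hQe : ∀ᶠ f : ℕ in atTop, Q f := by
    rw [hQ]
    exact gz_pr z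
  set B : ℕ → Set (ℕ → Bool) := fun f =>
    {ω | (Q f ∧ 1 ≤ f - f % P) ∧
      ((2 ^ (f / 3) - f) / P ≤ ((Finset.Ico (2 ^ f) (2 ^ (5 * f))).filter
        (fun y => Tz P (f - f % P) (2 ^ f) (2 ^ (f / 3)) ω y)).card ∧
      ((Finset.Ico (2 ^ f) (2 ^ (5 * f))).filter
        (fun y => Tz P (f - f % P) (2 ^ f) (2 ^ (f / 3)) ω y ∧ Gz (f - f % P) b ω y)).card <
          2 ^ (f / 4))} with hB
  have hBle : ∀ f, (mz z) (B f) ≤ ENNReal.ofReal
      ((2 : ℝ) ^ (2 ^ (f / 4)) * (1 - 1 / (f : ℝ) ^ 3 / 2) ^ ((2 ^ (f / 3) - f) / P)) := by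
    intro f
    by_cases hf : Q f ∧ 1 ≤ f - f % P
    · have hf1 : (1 : ℝ) ≤ f := by
        have : 1 ≤ f := by omega
        exact_mod_cast this
      have hf3 : (1 : ℝ) ≤ (f : ℝ) ^ 3 := one_le_pow₀ hf1
      have hp0 : 0 ≤ 1 / (f : ℝ) ^ 3 := by positivity
      have hp1 : 1 / (f : ℝ) ^ 3 ≤ 1 := by
        rw [div_le_one (by linarith)]
        exact hf3
      have hq := hf.1
      rw [hQ] at hq
      have h1 := blk z hp0 hp1 (f - f % P + 1) (2 ^ f) (2 ^ (5 * f)) (by omega)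
        (fun ω y => Tz P (f - f % P) (2 ^ f) (2 ^ (f / 3)) ω y)
        (fun ω y => Gz (f - f % P) b ω y)
        (fun y => tz_dep P (f - f % P) (2 ^ f) (2 ^ (f / 3)) y)
        (fun y => gz_dep P (f - f % P) (2 ^ f) (2 ^ (f / 3)) b y)
        (fun ω y y' hy hy' hyy => tz_gap hy hy' hyy)
        (fun y hy1 hy2 E hE hET => hq (f - f % P) (2 ^ (f / 3)) b y
          (by rw [← hPe]; exact Nat.dvd_sub_mod f) hf.2 (Nat.sub_le _ _) hy1 hy2 E hE
          (by rw [← hPe]; exact hET))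
        ((2 ^ (f / 3) - f) / P) (2 ^ (f / 4))
      have h2 : B f = {ω | (2 ^ (f / 3) - f) / P ≤ ((Finset.Ico (2 ^ f) (2 ^ (5 * f))).filter
          (fun y => Tz P (f - f % P) (2 ^ f) (2 ^ (f / 3)) ω y)).card ∧
        ((Finset.Ico (2 ^ f) (2 ^ (5 * f))).filter
          (fun y => Tz P (f - f % P) (2 ^ f) (2 ^ (f / 3)) ω y ∧
            Gz (f - f % P) b ω y)).card < 2 ^ (f / 4)} := by
        ext ω
        simp only [hB, Set.mem_ofPred_eq, hf, true_and, and_self]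
      rw [h2, ← ofReal_measureReal]
      exact ENNReal.ofReal_le_ofReal h1
    · have h2 : B f = ∅ := by
        ext ω
        simp only [hB, Set.mem_ofPred_eq, hf, false_and, Set.mem_empty_iff_false]
      rw [h2, measure_empty]
      exact bot_le
  have hsum : (∑' f, (mz z) (B f)) ≠ ⊤ := by
    refine ne_top_of_le_ne_top (mfz_num P hP).tsum_ofReal_ne_top (ENNReal.tsum_le_tsum hBle)
  have hae := ae_eventually_notMem hsum
  filter_upwards [hae, concz z] with ω h1 h2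
  filter_upwards [h1, h2, mfz_conc P hP, hQe] with f h3 h4 h5 h6
  obtain ⟨a0, a1, a2, a3, a4⟩ := h5 ω h4
  have hNV : 2 ^ f ≤ 2 ^ (5 * f) := Nat.pow_le_pow_right (by norm_num) (by omega)
  have a2' : (((2 ^ (f / 3) : ℕ) : ℤ)) ^ 2 < W ω (f - f % P) (2 ^ (5 * f)) := by
    have : (0 : ℤ) ≤ ((f - f % P : ℕ) : ℤ) := Int.natCast_nonneg _
    linarith
  have k1 := tz_trials (P := P) hNV a1 a2'
  have k0 := lev_card (P := P) (h := f - f % P) (S := 2 ^ (f / 3)) hP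
  have k00 : (2 ^ (f / 3) - f) / P ≤ (2 ^ (f / 3) - (f - f % P)) / P :=
    Nat.div_le_div_right (by omega)
  have k2 := gz_card (P := P) (b := b) (L := 2 ^ f / f) a0 a2 a4 a3
  by_contra hlt
  push Not at hlt
  exact h3 ⟨⟨h6, a0⟩, k00.trans (k0.trans k1), lt_of_le_of_lt k2 hlt⟩

end Pool.Agent.RG88
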