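import Pool.Agent.RG88.Def2
import Pool.Agent.RS88.Elt

/-!
# The trials of the large summand: counting

`rz_trials`: `m ↦ y = elt ω (n - m - 1) + 1` is injective into the trials: `n - m - 1 > ct ω (n + 1)` (as `m ≤ Z ≤ n/4`, `n ≥ 8`),
so `elt ω (n - m - 1) > n` (`le_elt_iff`), `ct ω y = n - m - 1` (`ct_elt_succ`), `ω (y - 1) = true` (`elt_mem`),
`y ≤ elt ω (n - m) < n ^ 2` (`elt_strict`, `elt_lt`).
`rz_good`: `y ↦ m = n - (ct ω y + 1)`: injective (`ct ω` is injective on the `y` with `ω (y - 1) = true`); with `i` as in `Rg`: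
`ct ω (y + i) = ct ω y` and `ω (y + i) = true`, so `elt ω (ct ω y + 1) = y + i` (`Nat.nth_count`), and
`ct ω y + 1 = n - m`.
-/

set_option autoImplicit false

namespace Pool.Agent.RG88

open MeasureTheory Filter Pool.Agent.RS88

open Classical in
theorem rz_trials {ω : ℕ → Bool} {P n L Z j : ℕ} (hZ : 4 * Z ≤ n) (hn : 8 ≤ n)
    (h1 : n < ct ω (n ^ 2)) (h2 : 2 * ct ω (n + 1) ≤ n) :
    ((Msq ω L Z).filter (fun m => m % 2 = n % 2 ∧ m % (P + 1) = j)).card ≤
      ((Finset.Ico (n + 1) (n ^ 2)).filter (fun y => Rt P n L Z j ω y)).card := by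
  have hm : ∀ m ∈ Msq ω L Z, m ≤ Z := by
    intro m hm
    unfold Msq at hm
    have := Finset.mem_range.1 (Finset.mem_filter.1 hm).1
    omega
  refine Finset.card_le_card_of_injOn (fun m => elt ω (n - m - 1) + 1) ?_ ?_
  · intro m hmm
    have hmm' := Finset.mem_filter.1 (Finset.mem_coe.1 hmm)
    have hmZ := hm m hmm'.1
    have hk1 : 1 ≤ n - m - 1 := by omega
    have hk2 : n - m - 1 ≤ ct ω (n ^ 2) := by omega
    have hk3 : n - m ≤ ct ω (n ^ 2) := by omega
    have hlow : n + 1 ≤ elt ω (n - m - 1) := (le_elt_iff hk1 hk2).2 (by omega)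
    have hup : elt ω (n - m - 1) < elt ω (n - m) := elt_strict hk1 (by omega) hk3
    have hup2 : elt ω (n - m) < n ^ 2 := elt_lt (by omega) hk3
    have hct := ct_elt_succ hk1 hk2
    refine Finset.mem_coe.2 (Finset.mem_filter.2 ⟨Finset.mem_Ico.2 ⟨?_, ?_⟩, ?_, ?_, m, hmm'.1,
      hmm'.2.1, hmm'.2.2, ?_⟩)
    · show n + 1 ≤ elt ω (n - m - 1) + 1
      omega
    · show elt ω (n - m - 1) + 1 < n ^ 2
      omega
    · show n < elt ω (n - m - 1) + 1
      omega
    · show ω (elt ω (n - m - 1) + 1 - 1) = true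
      rw [Nat.add_sub_cancel]
      exact elt_mem hk1 hk2
    · show m + (ct ω (elt ω (n - m - 1) + 1) + 1) = n
      rw [hct]
      omega
  · intro m hmm m' hmm' he
    have hmZ := hm m (Finset.mem_filter.1 (Finset.mem_coe.1 hmm)).1
    have hmZ' := hm m' (Finset.mem_filter.1 (Finset.mem_coe.1 hmm')).1
    have he' : elt ω (n - m - 1) + 1 = elt ω (n - m' - 1) + 1 := he
    have e1 := ct_elt_succ (ω := ω) (k := n - m - 1) (V := n ^ 2) (by omega) (by omega)
    have e2 := ct_elt_succ (ω := ω) (k := n - m' - 1) (V := n ^ 2) (by omega) (by omega)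
    rw [he', e2] at e1
    omega

open Classical in
theorem rz_good {ω : ℕ → Bool} {P n L Z j : ℕ} (c : ℕ → ℕ) :
    ((Finset.Ico (n + 1) (n ^ 2)).filter (fun y => Rt P n L Z j ω y ∧ Rg P c ω y)).card ≤
      ((Msq ω L Z).filter (fun m => m % 2 = n % 2 ∧ elt ω (n - m) % P = c (n - m))).card := by
  refine Finset.card_le_card_of_injOn (fun y => n - (ct ω y + 1)) ?_ ?_
  · intro y hy
    obtain ⟨-, ⟨-, -, m, hm, hm2, -, hmn⟩, i, -, hi2, hi3, hi4⟩ :=
      Finset.mem_filter.1 (Finset.mem_coe.1 hy)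
    have e1 : n - (ct ω y + 1) = m := by omega
    have hcount : ∀ k, k ≤ i → ct ω (y + k) = ct ω y := by
      intro k
      induction k with
      | zero => intro _; rfl
      | succ k ih =>
        intro hk
        have h1 := ih (by omega)
        have h2 := hi3 k (by omega)
        unfold ct at h1 ⊢
        rw [← Nat.add_assoc, Nat.count_succ, h1, if_neg (by rw [h2]; simp)]
        rfl
    have hci := hcount i le_rfl
    have helt : elt ω (ct ω y + 1) = y + i := by
      unfold elt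
      rw [Nat.add_sub_cancel, ← hci]
      exact Nat.nth_count (p := fun m => ω m = true) hi4
    have e2 : n - m = ct ω y + 1 := by omega
    refine Finset.mem_coe.2 (Finset.mem_filter.2 ?_)
    show n - (ct ω y + 1) ∈ Msq ω L Z ∧ (n - (ct ω y + 1)) % 2 = n % 2 ∧
      elt ω (n - (n - (ct ω y + 1))) % P = c (n - (n - (ct ω y + 1)))
    rw [e1]
    refine ⟨hm, hm2, ?_⟩
    rw [e2, helt]
    exact hi2
  · have key : ∀ y y', y < y' → ω (y' - 1) = true → ct ω y < ct ω y' := by
      intro y y' hlt hw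
      have h1 : ct ω y ≤ ct ω (y' - 1) := ct_mono (by omega)
      have h2 : ct ω y' = ct ω (y' - 1) + 1 := by
        have h3 : y' = (y' - 1) + 1 := by omega
        unfold ct
        conv_lhs => rw [h3]
        rw [Nat.count_succ, if_pos hw]
      omega
    intro y hy y' hy' he
    obtain ⟨-, ⟨-, hy1, m, -, -, -, hmn⟩, -⟩ := Finset.mem_filter.1 (Finset.mem_coe.1 hy)
    obtain ⟨-, ⟨-, hy1', m', -, -, -, hmn'⟩, -⟩ := Finset.mem_filter.1 (Finset.mem_coe.1 hy')
    have he' : n - (ct ω y + 1) = n - (ct ω y' + 1) := he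
    have hct : ct ω y = ct ω y' := by omega
    rcases Nat.lt_trichotomy y y' with h | h | h
    · have := key y y' h hy1'
      omega
    · exact h
    · have := key y' y h hy1
      omega

end Pool.Agent.RG88
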