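import Pool.Agent.RG88.Def2
import Pool.Agent.RS88.FillB

/-!
# The trials of the large summand: dependence and gaps (helper61)
-/

set_option autoImplicit false

namespace Pool.Agent.RG88.S61

open MeasureTheory Filter Pool.Agent.RS88 Pool.Agent.RG88

theorem rt_congr {P n L Z j y : ℕ} (hZ : Z ≤ n) {A B : ℕ → Bool} (h : ∀ i < y, A i = B i)
    (hA : Rt P n L Z j A y) : Rt P n L Z j B y := by
  obtain ⟨h1, h2, m, hm, h3, h4, h5⟩ := hA
  refine ⟨h1, ?_, m, ?_, h3, h4, ?_⟩
  · rw [← h _ (by omega)]; exact h2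
  · rw [← fillB_msq fun i hi => h i (by omega)]; exact hm
  · rw [← fillB_ct h le_rfl]; exact h5

theorem rt_dep {P n L Z j y : ℕ} (hZ : Z ≤ n) :
    Dep ((Finset.range y : Finset ℕ) : Set ℕ) {ω | Rt P n L Z j ω y} := by
  intro A B h
  have h' : ∀ i < y, A i = B i := fun i hi => h i (by simpa using hi)
  exact ⟨rt_congr hZ h', rt_congr hZ fun i hi => (h' i hi).symm⟩

theorem rg_congr {P : ℕ} {c : ℕ → ℕ} {y : ℕ} {A B : ℕ → Bool} (h : ∀ i < y + P, A i = B i)
    (hA : Rg P c A y) : Rg P c B y := by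
  obtain ⟨i, hi, h1, h2, h3⟩ := hA
  refine ⟨i, hi, ?_, fun i' hi' => ?_, ?_⟩
  · rw [← fillB_ct h (Nat.le_add_right y P)]; exact h1
  · rw [← h _ (by omega)]; exact h2 i' hi'
  · rw [← h _ (by omega)]; exact h3

theorem rg_dep {P n L Z j y : ℕ} (hZ : Z ≤ n) (c : ℕ → ℕ) :
    Dep ((Finset.range (y + P) : Finset ℕ) : Set ℕ) {ω | Rt P n L Z j ω y ∧ Rg P c ω y} := by
  intro A B h
  have h' : ∀ i < y + P, A i = B i := fun i hi => h i (by simpa using hi)
  constructor
  · rintro ⟨h1, h2⟩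
    exact ⟨rt_congr hZ (fun i hi => h' i (by omega)) h1, rg_congr h' h2⟩
  · rintro ⟨h1, h2⟩
    exact ⟨rt_congr hZ (fun i hi => (h' i (by omega)).symm) h1,
      rg_congr (fun i hi => (h' i hi).symm) h2⟩

theorem rt_gap {P n L Z j y y' : ℕ} {ω : ℕ → Bool} (hy : Rt P n L Z j ω y)
    (hy' : Rt P n L Z j ω y') (hyy : y < y') : y + P ≤ y' := by
  obtain ⟨h1, h2, m, hm, h3, h4, h5⟩ := hy
  obtain ⟨h1', h2', m', hm', h3', h4', h5'⟩ := hy'
  have hle : ∀ d a : ℕ, ct ω (a + d) ≤ ct ω a + d := by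
    intro d
    induction d with
    | zero => intro a; simp
    | succ d ih =>
      intro a
      have := ih a
      unfold ct at this ⊢
      rw [← Nat.add_assoc, Nat.count_succ]
      split_ifs <;> omega
  have hmono : ∀ d a : ℕ, ct ω a ≤ ct ω (a + d) := by
    intro d a
    unfold ct
    exact Nat.count_monotone _ (Nat.le_add_right a d)
  have hlt : ct ω y < ct ω y' := by
    have e1 : ct ω y' = ct ω (y' - 1) + 1 := by
      obtain ⟨z, rfl⟩ : ∃ z, y' = z + 1 := ⟨y' - 1, by omega⟩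
      unfold ct
      rw [Nat.count_succ, if_pos (by simpa using h2')]
      rfl
    have e2 : ct ω y ≤ ct ω (y' - 1) := by
      have := hmono (y' - 1 - y) y
      rwa [show y + (y' - 1 - y) = y' - 1 by omega] at this
    omega
  have hup := hle (y' - y) y
  rw [show y + (y' - y) = y' by omega] at hup
  have hmm : m' < m := by omega
  have hmod : P + 1 ∣ m - m' := by
    have : m' ≡ m [MOD (P + 1)] := by
      unfold Nat.ModEq
      rw [h4, h4']
    exact (Nat.modEq_iff_dvd' hmm.le).1 this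
  have hge : P + 1 ≤ m - m' := Nat.le_of_dvd (by omega) hmod
  omega

end Pool.Agent.RG88.S61
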