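import Pool.Agent.RG88.Def2
import Pool.Agent.RS88.FillB
import Pool.Agent.RG88.RzDepS61

/-!
# The trials of the large summand: dependence and gaps

`rt_dep`: `Msq ω L Z` depends on the coordinates `< Z ≤ n < y` (`fillB_msq`), `ct ω y` on those `< y` (`fillB_ct`), and
`y - 1 < y`. `rg_dep`: `i < P`. `rt_gap`: `m + ct ω y = m' + ct ω y'`; `ct ω y < ct ω y'` (`y' - 1 ≥ y` is an element), so
`m' < m`, `m = m'` modulo `P + 1`, so `ct ω y' - ct ω y = m - m' ≥ P + 1`, and `y' - y ≥ ct ω y' - ct ω y`.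
-/

set_option autoImplicit false

namespace Pool.Agent.RG88

open MeasureTheory Filter Pool.Agent.RS88

theorem rt_dep {P n L Z j y : ℕ} (hZ : Z ≤ n) :
    Dep ((Finset.range y : Finset ℕ) : Set ℕ) {ω | Rt P n L Z j ω y} := 
  S61.rt_dep hZ

theorem rg_dep {P n L Z j y : ℕ} (hZ : Z ≤ n) (c : ℕ → ℕ) :
    Dep ((Finset.range (y + P) : Finset ℕ) : Set ℕ) {ω | Rt P n L Z j ω y ∧ Rg P c ω y} := 
  S61.rg_dep hZ c

theorem rt_gap {P n L Z j y y' : ℕ} {ω : ℕ → Bool} (hy : Rt P n L Z j ω y)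
    (hy' : Rt P n L Z j ω y') (hyy : y < y') : y + P ≤ y' := 
  S61.rt_gap hy hy' hyy

end Pool.Agent.RG88
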