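import Pool.Agent.RS88.Num
import Pool.Agent.RS88.Main

/-!
# Numerical facts for the large summand (proofs)
-/

set_option autoImplicit false

namespace Pool.Agent.RG88.S74

open MeasureTheory Filter Pool.Agent.RS88

theorem RzN_ev (K : ℝ) (hK : 0 ≤ K) : ∀ᶠ q : ℕ in atTop, K * ((q : ℝ) + 1) ^ 3 ≤ 2 ^ q := by
  have h1 := tendsto_pow_const_div_const_pow_of_one_lt 3 (by norm_num : (1 : ℝ) < 2)
  have h2 : (0 : ℝ) < 1 / (8 * K + 8) := by positivity
  filter_upwards [h1.eventually_lt_const h2, eventually_ge_atTop 1] with q hq hq1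
  have hq1' : (1 : ℝ) ≤ q := by exact_mod_cast hq1
  have h3 : (0 : ℝ) < 2 ^ q := by positivity
  rw [div_lt_div_iff₀ h3 (by positivity)] at hq
  have h4 : ((q : ℝ) + 1) ^ 3 ≤ (2 * (q : ℝ)) ^ 3 :=
    pow_le_pow_left₀ (by positivity) (by linarith) 3
  have h5 := mul_le_mul_of_nonneg_left h4 hK
  have h6 : (0 : ℝ) ≤ (q : ℝ) ^ 3 := by positivity
  nlinarith

theorem RzN_log {n : ℕ} (hn : 1 ≤ n) : Real.log n ≤ 320 * ((Main_F n : ℝ) + 1) := by
  have hn0 : (0 : ℝ) < n := by exact_mod_cast hn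
  have h1 : (n : ℝ) ≤ (2 : ℝ) ^ (320 * (Main_F n + 1)) := by exact_mod_cast (Main_hi n).le
  have h2 := Real.log_le_log hn0 h1
  rw [Real.log_pow] at h2
  have h3 : Real.log 2 ≤ 1 := by
    have := Real.log_two_lt_d9
    linarith
  have h4 : ((320 * (Main_F n + 1) : ℕ) : ℝ) * Real.log 2 ≤
      ((320 * (Main_F n + 1) : ℕ) : ℝ) * 1 :=
    mul_le_mul_of_nonneg_left h3 (Nat.cast_nonneg _)
  push_cast at h2 h4
  linarith

theorem RzN_log1 {n : ℕ} (hn : 3 ≤ n) : 1 ≤ Real.log n := by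
  have hn3' : (3 : ℝ) ≤ n := by exact_mod_cast hn
  exact log_three.trans (Real.log_le_log (by norm_num) hn3')

theorem RzN_pow {x : ℝ} (hx : x ≤ 1) (M : ℕ) : (1 - x) ^ M ≤ Real.exp (-(x * M)) := by
  have h2 : 1 - x ≤ Real.exp (-x) := Real.one_sub_le_exp_neg x
  have h3 := pow_le_pow_left₀ (sub_nonneg.2 hx) h2 M
  refine h3.trans ?_
  rw [← Real.exp_nat_mul, Real.exp_le_exp]
  have h4 : (M : ℝ) * -x = -(x * M) := by ring
  rw [h4]

theorem RzN_exp4 {n : ℕ} (hn : 3 ≤ n) : Real.exp (-(4 * Real.log n)) = 1 / (n : ℝ) ^ 4 := by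
  have hn0 : (0 : ℝ) < n := by
    have : (3 : ℝ) ≤ n := by exact_mod_cast hn
    linarith
  have h6 : Real.exp (4 * Real.log n) = (n : ℝ) ^ 4 := by
    have h7 := Real.exp_nat_mul (Real.log n) 4
    rw [Real.exp_log hn0] at h7
    exact_mod_cast h7
  rw [Real.exp_neg, h6, one_div]

theorem RzN_end {n : ℕ} (hn : 3 ≤ n) : ((n : ℝ) + 1) * (1 / (n : ℝ) ^ 4) ≤ 1 / (n : ℝ) ^ 2 := by
  have hn3' : (3 : ℝ) ≤ n := by exact_mod_cast hn
  have hn0 : (0 : ℝ) < n := by linarith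
  rw [mul_one_div, div_le_div_iff₀ (by positivity) (by positivity)]
  have h9 : (n : ℝ) + 1 ≤ (n : ℝ) ^ 2 := by nlinarith
  have h10 : (0 : ℝ) ≤ (n : ℝ) ^ 2 := by positivity
  nlinarith

theorem sum_numz : Summable fun n : ℕ => ((n : ℝ) + 1) * (1 - 1 / Real.log n) ^
    (2 ^ (Main_F n / 5 - Main_F n / 8)) := by
  have h1 : Summable fun n : ℕ => 1 / (n : ℝ) ^ 2 :=
    Real.summable_one_div_nat_pow.2 (by norm_num)
  refine Summable.of_norm_bounded_eventually_nat h1 ?_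
  obtain ⟨Q, hQ⟩ := eventually_atTop.1 (RzN_ev (4 * 6400 ^ 2) (by positivity))
  filter_upwards [Main_tend.eventually_ge_atTop (20 * Q + 40), eventually_ge_atTop 3] with n hF hn
  set F := Main_F n with hFd
  have hq := hQ (F / 20) (by omega)
  have hlog1 := RzN_log1 hn
  have hlog0 : (0 : ℝ) < Real.log n := by linarith
  have hlog := RzN_log (by omega : 1 ≤ n)
  rw [← hFd] at hlog
  have hF1 : (F : ℝ) + 1 ≤ 20 * (((F / 20 : ℕ) : ℝ) + 1) := by
    have : F + 1 ≤ 20 * (F / 20 + 1) := by omega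
    exact_mod_cast this
  set q : ℕ := F / 20 with hqd
  have hq0 : (0 : ℝ) ≤ (q : ℝ) := Nat.cast_nonneg _
  set T : ℕ := 2 ^ (F / 5 - F / 8) with hT
  have hTq : (2 : ℝ) ^ q ≤ T := by
    have h1 : 2 ^ q ≤ T := Nat.pow_le_pow_right (by norm_num) (by omega)
    exact_mod_cast h1
  have hL : Real.log n ≤ 6400 * ((q : ℝ) + 1) := by linarith
  have hT1 : 4 * Real.log n * Real.log n ≤ T := by
    have h2 : Real.log n * Real.log n ≤ (6400 * ((q : ℝ) + 1)) * (6400 * ((q : ℝ) + 1)) :=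
      mul_le_mul hL hL hlog0.le (by positivity)
    have h3 : ((q : ℝ) + 1) ^ 2 ≤ ((q : ℝ) + 1) ^ 3 :=
      pow_le_pow_right₀ (by linarith) (by norm_num)
    nlinarith
  have hx1 : 1 / Real.log n ≤ 1 := by
    rw [div_le_one hlog0]
    exact hlog1
  have hx0 : (0 : ℝ) ≤ 1 - 1 / Real.log n := sub_nonneg.2 hx1
  have h4 : (1 - 1 / Real.log n) ^ T ≤ 1 / (n : ℝ) ^ 4 := by
    rw [← RzN_exp4 hn]
    refine (RzN_pow hx1 T).trans (Real.exp_le_exp.2 ?_)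
    have h5 : 4 * Real.log n ≤ 1 / Real.log n * (T : ℝ) := by
      rw [one_div_mul_eq_div, le_div_iff₀ hlog0]
      exact hT1
    linarith
  rw [Real.norm_eq_abs, abs_of_nonneg (mul_nonneg (by positivity) (pow_nonneg hx0 _))]
  exact (mul_le_mul_of_nonneg_left h4 (by positivity)).trans (RzN_end hn)

theorem rz_num (P : ℕ) : Summable fun n : ℕ => ((n : ℝ) + 1) * ((P : ℝ) + 1) *
    ((2 : ℝ) ^ (2 ^ (Main_F n / 5)) *
      (1 - 1 / (Real.log n) ^ 2 / 2) ^ (2 ^ (Main_F n / 4) / (P + 1))) := by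
  have h1 : Summable fun n : ℕ => ((P : ℝ) + 1) * (1 / (n : ℝ) ^ 2) :=
    (Real.summable_one_div_nat_pow.2 (by norm_num)).mul_left _
  refine Summable.of_norm_bounded_eventually_nat h1 ?_
  obtain ⟨Q, hQ⟩ := eventually_atTop.1 (RzN_ev (11 * ((P : ℝ) + 1) * 12800 ^ 3) (by positivity))
  filter_upwards [Main_tend.eventually_ge_atTop (40 * Q + 80), eventually_ge_atTop 3] with n hF hn
  set F := Main_F n with hFd
  have hq := hQ (F / 40) (by omega)
  have hlog1 := RzN_log1 hn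
  have hlog0 : (0 : ℝ) < Real.log n := by linarith
  have hlog := RzN_log (by omega : 1 ≤ n)
  rw [← hFd] at hlog
  have hF1 : (F : ℝ) + 1 ≤ 40 * (((F / 40 : ℕ) : ℝ) + 1) := by
    have : F + 1 ≤ 40 * (F / 40 + 1) := by omega
    exact_mod_cast this
  set q : ℕ := F / 40 with hqd
  have hq0 : (0 : ℝ) ≤ (q : ℝ) := Nat.cast_nonneg _
  set M : ℕ := 2 ^ (F / 4) / (P + 1) with hM
  set A : ℝ := 12800 * ((q : ℝ) + 1) with hA
  have hLA : Real.log n ≤ A := by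
    rw [hA]
    linarith
  have hA1 : 1 ≤ A := by
    rw [hA]
    linarith
  set E : ℝ := 2 ^ (F / 5) with hE
  have hE1 : 1 ≤ E := one_le_pow₀ (by norm_num)
  -- the number of factors
  have hMl : (2 : ℝ) ^ (F / 4) ≤ ((P : ℝ) + 1) * ((M : ℝ) + 1) := by
    have h2 : 2 ^ (F / 4) < (P + 1) * (M + 1) := by
      have := Nat.lt_mul_div_succ (2 ^ (F / 4)) (by omega : 0 < P + 1)
      rw [hM]
      exact this
    exact_mod_cast h2.le
  have hpow : E * (2 : ℝ) ^ q ≤ 2 ^ (F / 4) := by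
    rw [hE, ← pow_add]
    exact pow_le_pow_right₀ (by norm_num) (by omega)
  have hP0 : (0 : ℝ) < (P : ℝ) + 1 := by positivity
  have hq' : 11 * ((P : ℝ) + 1) * A ^ 3 ≤ 2 ^ q := by
    have h2 : 11 * ((P : ℝ) + 1) * A ^ 3 = 11 * ((P : ℝ) + 1) * 12800 ^ 3 * ((q : ℝ) + 1) ^ 3 := by
      rw [hA]
      ring
    rw [h2]
    exact hq
  have hME : 11 * A ^ 3 * E ≤ (M : ℝ) + 1 := by
    have h2 : E * (11 * ((P : ℝ) + 1) * A ^ 3) ≤ E * 2 ^ q :=
      mul_le_mul_of_nonneg_left hq' (by linarith)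
    have h3 : ((P : ℝ) + 1) * (11 * A ^ 3 * E) ≤ ((P : ℝ) + 1) * ((M : ℝ) + 1) := by
      have h4 : ((P : ℝ) + 1) * (11 * A ^ 3 * E) = E * (11 * ((P : ℝ) + 1) * A ^ 3) := by ring
      rw [h4]
      exact (h2.trans hpow).trans hMl
    exact le_of_mul_le_mul_left h3 hP0
  have hA2 : A ^ 2 ≤ A ^ 3 := pow_le_pow_right₀ hA1 (by norm_num)
  have hA3 : (1 : ℝ) ≤ A ^ 3 := one_le_pow₀ hA1
  have hMA : 2 * A ^ 2 * (E + 4 * A) ≤ M := by
    have h2 : 2 * A ^ 2 * (E + 4 * A) + 1 ≤ 11 * A ^ 3 * E := by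
      have h3 : A ^ 2 * E ≤ A ^ 3 * E := mul_le_mul_of_nonneg_right hA2 (by linarith)
      have h4 : A ^ 3 * 1 ≤ A ^ 3 * E := mul_le_mul_of_nonneg_left hE1 (by positivity)
      have h5 : 2 * A ^ 2 * (E + 4 * A) = 2 * (A ^ 2 * E) + 8 * (A ^ 3 * 1) := by ring
      have h6 : 11 * A ^ 3 * E = 11 * (A ^ 3 * E) := by ring
      rw [h5, h6]
      linarith
    linarith
  have hlM : 2 * Real.log n ^ 2 * (E + 4 * Real.log n) ≤ M := by
    refine le_trans ?_ hMA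
    have h2 : Real.log n ^ 2 ≤ A ^ 2 := pow_le_pow_left₀ hlog0.le hLA 2
    have h3 : E + 4 * Real.log n ≤ E + 4 * A := by linarith
    exact mul_le_mul (by linarith) h3 (by positivity) (by positivity)
  set x : ℝ := 1 / Real.log n ^ 2 / 2 with hx
  have hl2 : 0 < Real.log n ^ 2 := by positivity
  have hl21 : 1 ≤ Real.log n ^ 2 := one_le_pow₀ hlog1
  have hx1 : x ≤ 1 := by
    rw [hx, div_div, div_le_one (by positivity)]
    linarith
  have hxM : E + 4 * Real.log n ≤ x * M := by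
    have h2 : x * M = (M : ℝ) / (2 * Real.log n ^ 2) := by
      rw [hx]
      field_simp
    rw [h2, le_div_iff₀ (by positivity)]
    linarith
  have h2E : (2 : ℝ) ^ (2 ^ (F / 5)) ≤ Real.exp E := by
    have h2 : (2 : ℝ) ≤ Real.exp 1 := by
      have := Real.add_one_le_exp (1 : ℝ)
      linarith
    have h3 := pow_le_pow_left₀ (by norm_num : (0 : ℝ) ≤ 2) h2 (2 ^ (F / 5))
    refine h3.trans ?_
    rw [← Real.exp_nat_mul, Real.exp_le_exp, hE]
    push_cast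
    rw [mul_one]
  have hterm : (2 : ℝ) ^ (2 ^ (F / 5)) * (1 - x) ^ M ≤ 1 / (n : ℝ) ^ 4 := by
    rw [← RzN_exp4 hn]
    calc (2 : ℝ) ^ (2 ^ (F / 5)) * (1 - x) ^ M ≤ Real.exp E * Real.exp (-(x * M)) :=
          mul_le_mul h2E (RzN_pow hx1 M) (pow_nonneg (sub_nonneg.2 hx1) _) (Real.exp_pos _).le
      _ = Real.exp (E + -(x * M)) := (Real.exp_add _ _).symm
      _ ≤ Real.exp (-(4 * Real.log n)) := Real.exp_le_exp.2 (by linarith)
  have hnn : 0 ≤ (2 : ℝ) ^ (2 ^ (F / 5)) * (1 - x) ^ M :=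
    mul_nonneg (by positivity) (pow_nonneg (sub_nonneg.2 hx1) _)
  rw [Real.norm_eq_abs, abs_of_nonneg (mul_nonneg (by positivity) hnn)]
  calc ((n : ℝ) + 1) * ((P : ℝ) + 1) * ((2 : ℝ) ^ (2 ^ (F / 5)) * (1 - x) ^ M) ≤
        ((n : ℝ) + 1) * ((P : ℝ) + 1) * (1 / (n : ℝ) ^ 4) :=
        mul_le_mul_of_nonneg_left hterm (by positivity)
    _ = ((P : ℝ) + 1) * (((n : ℝ) + 1) * (1 / (n : ℝ) ^ 4)) := by ring
    _ ≤ ((P : ℝ) + 1) * (1 / (n : ℝ) ^ 2) := mul_le_mul_of_nonneg_left (RzN_end hn) hP0.le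

end Pool.Agent.RG88.S74
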