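import Pool.Agent.RS88.Num
import Pool.Agent.RS88.Main
import Pool.Agent.RG88.RzNS74

/-!
# Numerical facts for the large summand

`Main_F n = Nat.log 2 n / 320`, `f = Main_F n`: `320 f ≤ log_2 n < 320 (f + 1)`, so `log n ≤ 320 (f+1)`. `rz_num`: the term is at most
`(n+1)(P+1) exp (2^(f/5) - (2^(f/4)/(P+1)) / (2 (320 (f+1))²)) ≤ (n+1)(P+1) n^(-3)` for large `n`. `sum_numz`: as `sum_num` in
RS88/Num, with `f/5 - f/8 ≥ 3f/40 - 2`.
-/

set_option autoImplicit false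

namespace Pool.Agent.RG88

open MeasureTheory Filter Pool.Agent.RS88

theorem rz_num (P : ℕ) : Summable fun n : ℕ => ((n : ℝ) + 1) * ((P : ℝ) + 1) *
    ((2 : ℝ) ^ (2 ^ (Main_F n / 5)) *
      (1 - 1 / (Real.log n) ^ 2 / 2) ^ (2 ^ (Main_F n / 4) / (P + 1))) :=
  S74.rz_num P

theorem sum_numz : Summable fun n : ℕ => ((n : ℝ) + 1) * (1 - 1 / Real.log n) ^
    (2 ^ (Main_F n / 5 - Main_F n / 8)) :=
  S74.sum_numz

end Pool.Agent.RG88
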