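import Pool.Agent.RG88.Def2
import Pool.Agent.RG88.DepM
import Pool.Agent.RS88.FillB

/-!
# The large summand: conditional probability of the good pattern (own file of helper26)
-/

set_option autoImplicit false

namespace Pool.Agent.RG88

open MeasureTheory Filter Pool.Agent.RS88

theorem dep_mono26 {S T : Finset ℕ} (h : S ⊆ T) {E : Set (ℕ → Bool)}
    (hE : Dep (S : Set ℕ) E) : Dep (T : Set ℕ) E := by
  intro ω ω' h1
  exact hE ω ω' fun i hi => h1 i (Finset.coe_subset.2 h hi)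

theorem shift26 {P : ℕ} (hP : 0 < P) (y r : ℕ) (hr : r < P) : ∃ i, i < P ∧ (y + i) % P = r := by
  refine ⟨(r + (P - y % P)) % P, Nat.mod_lt _ hP, ?_⟩
  rw [Nat.add_mod_mod]
  have h1 := Nat.mod_add_div y P
  have h2 := Nat.mod_lt y hP
  have h3 : y + (r + (P - y % P)) = r + P * (y / P + 1) := by
    rw [mul_add, mul_one]
    omega
  rw [h3, Nat.add_mul_mod_self_left, Nat.mod_eq_of_lt hr]

theorem rg_pr26 (z : ℕ) : ∀ᶠ n : ℕ in atTop, ∀ (c : ℕ → ℕ),
    (∀ k, c k < primorial z ∧ (c k).Coprime (primorial z)) → ∀ y : ℕ, n < y → y < n ^ 2 →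
    ∀ E : Set (ℕ → Bool), Dep ((Finset.range y : Finset ℕ) : Set ℕ) E →
    1 / (Real.log n) ^ 2 * (mz z).real E ≤
      (mz z).real (E ∩ {ω | Rg (primorial z) c ω y}) := by
  obtain ⟨P, hPd⟩ : ∃ P, P = primorial z := ⟨_, rfl⟩
  obtain ⟨μ, hμ⟩ : ∃ μ : ℝ, μ = Pool.Agent.GM53.mert z := ⟨_, rfl⟩
  have hP0 : 0 < P := by rw [hPd]; exact primorial_pos z
  have hP1 : (1 : ℝ) ≤ P := by exact_mod_cast hP0
  have hμ0 : 0 < μ := by rw [hμ]; exact Pool.Agent.GM53.mert_pos z
  have ev1 : ∀ᶠ n : ℕ in atTop, max 6 (2 * (P : ℝ) * μ) ≤ Real.log (n : ℝ) :=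
    (Real.tendsto_log_atTop.comp (tendsto_natCast_atTop_atTop (R := ℝ))).eventually_ge_atTop _
  filter_upwards [ev1, eventually_ge_atTop (max 3 P)] with n hn1 hn2
  intro c hc y hy1 hy2 E hE
  rw [← hPd] at hc ⊢
  have hn3 : 3 ≤ n := (le_max_left _ _).trans hn2
  have hnP : P ≤ n := (le_max_right _ _).trans hn2
  have hl6 : 6 ≤ Real.log (n : ℝ) := (le_max_left _ _).trans hn1
  have hlP : 2 * (P : ℝ) * μ ≤ Real.log (n : ℝ) := (le_max_right _ _).trans hn1
  obtain ⟨l, hl⟩ : ∃ l : ℝ, l = Real.log (n : ℝ) := ⟨_, rfl⟩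
  rw [← hl] at hl6 hlP ⊢
  have hl0 : 0 < l := by linarith
  have hn0 : (0 : ℝ) < n := by
    have : 0 < n := by omega
    exact_mod_cast this
  -- the product
  obtain ⟨δ, hδ⟩ : ∃ δ : ℝ, δ = μ / l := ⟨_, rfl⟩
  have hδ0 : 0 < δ := by rw [hδ]; positivity
  have hPδ : (P : ℝ) * δ ≤ 1 / 2 := by
    rw [hδ, ← mul_div_assoc, div_le_iff₀ hl0]
    linarith
  have hδ1 : δ ≤ 1 / 2 := by nlinarith
  have hpz : ∀ t, y ≤ t → pz z t ≤ δ := by
    intro t ht
    refine (pz_up (by omega)).trans ?_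
    rw [← hμ, hδ]
    apply div_le_div_of_nonneg_left hμ0.le hl0
    rw [hl]
    apply Real.log_le_log hn0
    have : n ≤ t := by omega
    exact_mod_cast this
  have hprod : ∀ i < P, 1 / 2 ≤ ∏ t ∈ Finset.Ico y (y + i), (1 - pz z t) := by
    intro i hi
    have h1 : (1 - δ) ^ i ≤ ∏ t ∈ Finset.Ico y (y + i), (1 - pz z t) := by
      calc (1 - δ) ^ i = ∏ _t ∈ Finset.Ico y (y + i), (1 - δ) := by
            rw [Finset.prod_const, Nat.card_Ico, Nat.add_sub_cancel_left]
        _ ≤ _ := Finset.prod_le_prod (fun _ _ => by linarith) fun t ht => by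
            rw [Finset.mem_Ico] at ht
            have := hpz t ht.1
            linarith
    have h2 := one_add_mul_le_pow (show (-2 : ℝ) ≤ -δ by linarith) i
    have h3 : (1 : ℝ) + -δ = 1 - δ := by ring
    rw [h3] at h2
    have h4 : (i : ℝ) * δ ≤ P * δ := by
      apply mul_le_mul_of_nonneg_right _ hδ0.le
      exact_mod_cast hi.le
    nlinarith
  have hpr : ∀ i < P, (y + i).Coprime P → 1 / (3 * l) ≤ pz z (y + i) := by
    intro i hi hcop
    refine le_trans ?_ (pz_lo (by omega) (by rw [← hPd]; exact hcop))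
    have hyi : (0 : ℝ) < ((y + i : ℕ) : ℝ) := by
      have : 0 < y + i := by omega
      exact_mod_cast this
    have h1 : y + i ≤ n ^ 3 := by
      have h2 : n ^ 2 + n ≤ n ^ 3 := by nlinarith
      omega
    have h3 : Real.log ((y + i : ℕ) : ℝ) ≤ 3 * l := by
      have h4 : Real.log ((y + i : ℕ) : ℝ) ≤ Real.log ((n : ℝ) ^ 3) := by
        apply Real.log_le_log hyi
        exact_mod_cast h1
      rw [Real.log_pow] at h4
      push_cast at h4
      rw [hl]
      push_cast
      exact h4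
    have h5 : 0 < Real.log ((y + i : ℕ) : ℝ) := by
      apply Real.log_pos
      have : 1 < y + i := by omega
      exact_mod_cast this
    exact one_div_le_one_div_of_le h5 h3
  -- the pieces
  obtain ⟨Ei, hEi⟩ : ∃ Ei : ℕ → Set (ℕ → Bool),
      Ei = fun i => E ∩ {ω | (y + i) % P = c (ct ω y + 1)} := ⟨_, rfl⟩
  have hEid : ∀ i, Dep ((Finset.range y : Finset ℕ) : Set ℕ) (Ei i) := by
    intro i ω ω' h
    have h1 := hE ω ω' h
    have h2 : ct ω y = ct ω' y := fillB_ct (V := y) (fun i hi => h i (by simpa using hi)) le_rfl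
    rw [hEi]
    simp only [Set.mem_inter_iff, Set.mem_ofPred_eq, h1, h2]
  obtain ⟨A, hA⟩ : ∃ A : ℕ → Set (ℕ → Bool), A = fun i =>
      (Ei i ∩ {ω | ∀ t ∈ Finset.Ico y (y + i), ω t = false}) ∩ {ω | ω (y + i) = true} :=
    ⟨_, rfl⟩
  have hBd : ∀ i, Dep ((Finset.range (y + i) : Finset ℕ) : Set ℕ)
      (Ei i ∩ {ω | ∀ t ∈ Finset.Ico y (y + i), ω t = false}) := by
    intro i ω ω' h
    have h1 := dep_mono26 (T := Finset.range (y + i)) (by
      intro a ha
      rw [Finset.mem_range] at ha ⊢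
      omega) (hEid i) ω ω' h
    have h2 : (∀ t ∈ Finset.Ico y (y + i), ω t = false) ↔
        ∀ t ∈ Finset.Ico y (y + i), ω' t = false := by
      refine forall₂_congr fun t ht => ?_
      rw [h t (by
        rw [Finset.mem_Ico] at ht
        simp only [Finset.coe_range, Set.mem_Iio]
        omega)]
    simp only [Set.mem_inter_iff, Set.mem_ofPred_eq, h1, h2]
  have hAd : ∀ i, Dep ((Finset.range (y + i + 1) : Finset ℕ) : Set ℕ) (A i) := by
    intro i ω ω' h
    have h1 := dep_mono26 (T := Finset.range (y + i + 1)) (by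
      intro a ha
      rw [Finset.mem_range] at ha ⊢
      omega) (hBd i) ω ω' h
    have h2 := h (y + i) (by simp)
    rw [hA]
    simp only
    rw [Set.mem_inter_iff, Set.mem_inter_iff ω', h1, Set.mem_ofPred_eq, Set.mem_ofPred_eq, h2]
  have hAm : ∀ i, (mz z).real (A i) =
      (mz z).real (Ei i) * (∏ t ∈ Finset.Ico y (y + i), (1 - pz z t)) * pz z (y + i) := by
    intro i
    rw [hA]
    simp only
    rw [dez_true z (hBd i) (by simp), dez_inter z (by
      rw [Finset.disjoint_left]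
      intro a ha hb
      rw [Finset.mem_range] at ha
      rw [Finset.mem_Ico] at hb
      omega) (hEid i)]
  have hAlow : ∀ i ∈ Finset.range P, 1 / (6 * l) * (mz z).real (Ei i) ≤ (mz z).real (A i) := by
    intro i hi
    rw [Finset.mem_range] at hi
    by_cases hne : (Ei i).Nonempty
    · obtain ⟨ω, hω⟩ := hne
      rw [hEi] at hω
      have h1 : (y + i) % P = c (ct ω y + 1) := hω.2
      have h2 : (y + i).Coprime P := by
        have h3 := (hc (ct ω y + 1)).2
        rw [← h1] at h3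
        have h4 := Nat.gcd_rec P (y + i)
        unfold Nat.Coprime at h3 ⊢
        rw [Nat.gcd_comm, h4]
        exact h3
      rw [hAm]
      have h5 := hprod i hi
      have h6 := hpr i hi h2
      have h7 : 0 ≤ (mz z).real (Ei i) := measureReal_nonneg
      have h8 : 1 / 2 * (1 / (3 * l)) ≤
          (∏ t ∈ Finset.Ico y (y + i), (1 - pz z t)) * pz z (y + i) :=
        mul_le_mul h5 h6 (by positivity) (by linarith)
      have h9 : 1 / 2 * (1 / (3 * l)) = 1 / (6 * l) := by
        field_simp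
        norm_num
      rw [h9] at h8
      calc 1 / (6 * l) * (mz z).real (Ei i)
          ≤ ((∏ t ∈ Finset.Ico y (y + i), (1 - pz z t)) * pz z (y + i)) *
            (mz z).real (Ei i) := mul_le_mul_of_nonneg_right h8 h7
        _ = _ := by ring
    · rw [Set.not_nonempty_iff_eq_empty] at hne
      rw [hne, measureReal_empty, mul_zero]
      exact measureReal_nonneg
  have hcov : E ⊆ ⋃ i ∈ Finset.range P, Ei i := by
    intro ω hω
    obtain ⟨i, hi, hi'⟩ := shift26 hP0 y (c (ct ω y + 1)) (hc _).1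
    rw [Set.mem_iUnion₂]
    refine ⟨i, Finset.mem_range.2 hi, ?_⟩
    rw [hEi]
    exact ⟨hω, hi'⟩
  have hsubA : (⋃ i ∈ Finset.range P, A i) ⊆ E ∩ {ω | Rg P c ω y} := by
    intro ω hω
    rw [Set.mem_iUnion₂] at hω
    obtain ⟨i, hi, hω⟩ := hω
    rw [hA, hEi] at hω
    obtain ⟨⟨⟨h1, h2⟩, h3⟩, h4⟩ := hω
    refine ⟨h1, i, Finset.mem_range.1 hi, h2, ?_, h4⟩
    intro i' hi'
    exact h3 (y + i') (by rw [Finset.mem_Ico]; omega)
  have hdisj : Set.PairwiseDisjoint (Finset.range P : Set ℕ) A := by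
    intro i hi j hj hij
    rw [Finset.mem_coe, Finset.mem_range] at hi hj
    show Disjoint (A i) (A j)
    rw [Set.disjoint_left]
    intro ω h1 h2
    apply hij
    rw [hA, hEi] at h1 h2
    have e1 : (y + i) % P = c (ct ω y + 1) := h1.1.1.2
    have e2 : (y + j) % P = c (ct ω y + 1) := h2.1.1.2
    have e3 : y + i ≡ y + j [MOD P] := e1.trans e2.symm
    have e4 := Nat.ModEq.add_left_cancel' y e3
    unfold Nat.ModEq at e4
    rwa [Nat.mod_eq_of_lt hi, Nat.mod_eq_of_lt hj] at e4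
  have hsum : (mz z).real (⋃ i ∈ Finset.range P, A i) = ∑ i ∈ Finset.range P, (mz z).real (A i) :=
    measureReal_biUnion_finset hdisj (fun i _ => Dep.meas (hAd i))
  have h1 : (mz z).real E ≤ ∑ i ∈ Finset.range P, (mz z).real (Ei i) :=
    (measureReal_mono hcov (measure_ne_top _ _)).trans (measureReal_biUnion_finset_le _ _)
  have h2 : 1 / (6 * l) * ∑ i ∈ Finset.range P, (mz z).real (Ei i) ≤
      ∑ i ∈ Finset.range P, (mz z).real (A i) := by
    rw [Finset.mul_sum]
    exact Finset.sum_le_sum hAlow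
  have h3 : (mz z).real (⋃ i ∈ Finset.range P, A i) ≤
      (mz z).real (E ∩ {ω | Rg P c ω y}) := measureReal_mono hsubA
  have h4 : 1 / l ^ 2 ≤ 1 / (6 * l) := by
    apply one_div_le_one_div_of_le (by positivity)
    nlinarith
  have h5 : 0 ≤ (mz z).real E := measureReal_nonneg
  calc 1 / l ^ 2 * (mz z).real E ≤ 1 / (6 * l) * (mz z).real E :=
        mul_le_mul_of_nonneg_right h4 h5
    _ ≤ 1 / (6 * l) * ∑ i ∈ Finset.range P, (mz z).real (Ei i) :=
        mul_le_mul_of_nonneg_left h1 (by positivity)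
    _ ≤ ∑ i ∈ Finset.range P, (mz z).real (A i) := h2
    _ = (mz z).real (⋃ i ∈ Finset.range P, A i) := hsum.symm
    _ ≤ _ := h3

end Pool.Agent.RG88
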