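import Pool.Agent.RG88.Def2
import Pool.Agent.RG88.DepM
import Pool.Agent.RS88.FillB
import Pool.Agent.RG88.RzPrS26

/-!
# The large summand: conditional probability of the good pattern

`P = primorial z`. Split `E` according to the unique `i < P` with `(y + i) % P = c (ct ω y + 1)` (exists as `c k < P`):
`E i = E ∩ {(y + i) % P = c (ct ω y + 1)}`, depends on the coordinates `< y` (`fillB_ct`). On `E i`: `Rg` contains
`{no element in [y, y + i)} ∩ {ω (y + i) = true}`, probability `P(E i) ∏ (1 - pz) * pz (y + i)` (`dez_inter`, `dez_true`).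
`y + i` is prime to `P` (its class is `c k`), so `pz (y + i) ≥ 1/log (n² + P) ≥ 1/(3 log n)` (`pz_lo`), and
`1 - pz ≥ 1 - mert z/log n` (`pz_up`), the product over `< P` integers is at least `1/2` for large `n`. So at least
`1/(6 log n) ≥ 1/(log n)²`. (Only `y > n` and `E ⊆ Rt` are needed to know `y > n`.)
-/

set_option autoImplicit false

namespace Pool.Agent.RG88

open MeasureTheory Filter Pool.Agent.RS88

theorem rg_pr (z : ℕ) : ∀ᶠ n : ℕ in atTop, ∀ (c : ℕ → ℕ),
    (∀ k, c k < primorial z ∧ (c k).Coprime (primorial z)) → ∀ y : ℕ, n < y → y < n ^ 2 →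
    ∀ E : Set (ℕ → Bool), Dep ((Finset.range y : Finset ℕ) : Set ℕ) E →
    1 / (Real.log n) ^ 2 * (mz z).real E ≤
      (mz z).real (E ∩ {ω | Rg (primorial z) c ω y}) :=
  rg_pr26 z

end Pool.Agent.RG88
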