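import Pool.Agent.RG88.Blk
import Pool.Agent.RG88.RzDep
import Pool.Agent.RG88.RzCnt
import Pool.Agent.RG88.RzPr
import Pool.Agent.RG88.RzN
import Pool.Agent.RG88.Cop

/-!
# RG88/ReszS93: proof of `resz`
-/

set_option autoImplicit false

namespace Pool.Agent.RG88.S93

open MeasureTheory Filter Pool.Agent.RS88 Pool.Agent.RG88

theorem classes (z : ℕ) : ∃ c : ℕ → ℕ → ℕ, (∀ G k, c G k < primorial z ∧
    (c G k).Coprime (primorial z)) ∧ ∀ G k, Even (G * k) → ∀ y r : ℕ,
      y % primorial z = c G k → y = G * k + r → r.Coprime (primorial z) := by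
  have h : ∀ G k : ℕ, ∃ c : ℕ, (c < primorial z ∧ c.Coprime (primorial z)) ∧
      (Even (G * k) → ∀ y r : ℕ, y % primorial z = c → y = G * k + r →
        r.Coprime (primorial z)) := by
    intro G k
    by_cases he : Even (G * k)
    · obtain ⟨c, h1, h2, h3⟩ := good_class z (G * k) he
      exact ⟨c, ⟨h1, h2⟩, fun _ => h3⟩
    · obtain ⟨c, h1, h2, -⟩ := good_class z 0 (by simp)
      exact ⟨c, ⟨h1, h2⟩, fun h => absurd h he⟩
  choose c hc1 hc2 using h
  exact ⟨c, hc1, hc2⟩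

open Classical in
/-- few good trials -/
def Few (P n L Z N t j : ℕ) (c : ℕ → ℕ) : Set (ℕ → Bool) :=
  {ω | N ≤ ((Finset.Ico (n + 1) (n ^ 2)).filter (fun y => Rt P n L Z j ω y)).card ∧
    ((Finset.Ico (n + 1) (n ^ 2)).filter
      (fun y => Rt P n L Z j ω y ∧ Rg P c ω y)).card < t}

theorem few_le (z : ℕ) {n : ℕ} (hn : 3 ≤ n) (hpr : ∀ (c : ℕ → ℕ),
    (∀ k, c k < primorial z ∧ (c k).Coprime (primorial z)) → ∀ y : ℕ, n < y → y < n ^ 2 →
    ∀ E : Set (ℕ → Bool), Dep ((Finset.range y : Finset ℕ) : Set ℕ) E →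
    1 / (Real.log n) ^ 2 * (mz z).real E ≤
      (mz z).real (E ∩ {ω | Rg (primorial z) c ω y})) {L Z : ℕ} (hZ : Z ≤ n) (N t j : ℕ)
    (c : ℕ → ℕ) (hc : ∀ k, c k < primorial z ∧ (c k).Coprime (primorial z)) :
    (mz z).real (Few (primorial z) n L Z N t j c) ≤
      2 ^ t * (1 - 1 / (Real.log n) ^ 2 / 2) ^ N := by
  classical
  have h3 : (3 : ℝ) ≤ n := by exact_mod_cast hn
  have h1 : (1 : ℝ) ≤ Real.log n := log_three.trans (Real.log_le_log (by norm_num) h3)
  have hp0 : 0 ≤ 1 / (Real.log n) ^ 2 := by positivity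
  have hp1 : 1 / (Real.log n) ^ 2 ≤ 1 := by
    rw [div_le_one (by positivity)]
    nlinarith
  exact blk z hp0 hp1 (primorial z) (n + 1) (n ^ 2) (primorial_pos z)
    (fun ω y => Rt (primorial z) n L Z j ω y) (fun ω y => Rg (primorial z) c ω y)
    (fun y => rt_dep hZ) (fun y => rg_dep hZ c)
    (fun ω y y' h h' hy => rt_gap h h' hy)
    (fun y hy1 hy2 E hE _ => hpr c hc y (by omega) hy2 E hE) N t

open Classical in
theorem resz (z : ℕ) (L Z : ℕ → ℕ) (hZ : ∀ᶠ n : ℕ in atTop, 4 * Z n ≤ n) :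
    ∀ᵐ ω ∂(mz z), ∀ᶠ n : ℕ in atTop, ∀ G ≤ n,
      n < ct ω (n ^ 2) → 2 * ct ω (n + 1) ≤ n →
      2 ^ (Main_F n / 4) ≤ ((Msq ω (L n) (Z n)).filter (fun m => m % 2 = n % 2)).card →
      2 ^ (Main_F n / 5) ≤ (Kz (primorial z) G n (L n) (Z n) ω).card := by
  obtain ⟨c, hc1, hc2⟩ := classes z
  set P := primorial z with hP
  obtain ⟨n0, hn0⟩ := eventually_atTop.1 ((rg_pr z).and (hZ.and (eventually_ge_atTop 8)))
  set B : ℕ → Set (ℕ → Bool) := fun n => {ω | n0 ≤ n ∧
    ω ∈ ⋃ G ∈ Finset.range (n + 1), ⋃ j ∈ Finset.range (P + 1),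
      Few P n (L n) (Z n) (2 ^ (Main_F n / 4) / (P + 1)) (2 ^ (Main_F n / 5)) j (c G)} with hB
  have hBle : ∀ n, mz z (B n) ≤ ENNReal.ofReal (((n : ℝ) + 1) * ((P : ℝ) + 1) *
    ((2 : ℝ) ^ (2 ^ (Main_F n / 5)) *
      (1 - 1 / (Real.log n) ^ 2 / 2) ^ (2 ^ (Main_F n / 4) / (P + 1)))) := by
    intro n
    by_cases hn : n0 ≤ n
    · obtain ⟨h1, h2, h3⟩ := hn0 n hn
      set M : ℝ := (2 : ℝ) ^ (2 ^ (Main_F n / 5)) *
        (1 - 1 / (Real.log n) ^ 2 / 2) ^ (2 ^ (Main_F n / 4) / (P + 1)) with hM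
      have hone : ∀ G ∈ Finset.range (n + 1), ∀ j ∈ Finset.range (P + 1),
          mz z (Few P n (L n) (Z n) (2 ^ (Main_F n / 4) / (P + 1)) (2 ^ (Main_F n / 5)) j (c G)) ≤
            ENNReal.ofReal M := by
        intro G _ j _
        rw [← ofReal_measureReal]
        exact ENNReal.ofReal_le_ofReal
          (few_le z (by omega) h1 (by omega) _ _ j (c G) (hc1 G))
      calc mz z (B n) ≤ mz z (⋃ G ∈ Finset.range (n + 1), ⋃ j ∈ Finset.range (P + 1),
            Few P n (L n) (Z n) (2 ^ (Main_F n / 4) / (P + 1)) (2 ^ (Main_F n / 5)) j (c G)) :=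
            measure_mono fun ω hω => hω.2
        _ ≤ ∑ G ∈ Finset.range (n + 1), mz z (⋃ j ∈ Finset.range (P + 1),
            Few P n (L n) (Z n) (2 ^ (Main_F n / 4) / (P + 1)) (2 ^ (Main_F n / 5)) j (c G)) :=
            measure_biUnion_finset_le _ _
        _ ≤ ∑ G ∈ Finset.range (n + 1), ∑ j ∈ Finset.range (P + 1), mz z
            (Few P n (L n) (Z n) (2 ^ (Main_F n / 4) / (P + 1)) (2 ^ (Main_F n / 5)) j (c G)) :=
            Finset.sum_le_sum fun G _ => measure_biUnion_finset_le _ _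
        _ ≤ ∑ G ∈ Finset.range (n + 1), ∑ j ∈ Finset.range (P + 1), ENNReal.ofReal M :=
            Finset.sum_le_sum fun G hG => Finset.sum_le_sum fun j hj => hone G hG j hj
        _ = ENNReal.ofReal (((n : ℝ) + 1) * ((P : ℝ) + 1) * M) := by
            have e : ENNReal.ofReal (((n : ℝ) + 1) * ((P : ℝ) + 1) * M) =
                (((n + 1) * (P + 1) : ℕ) : ENNReal) * ENNReal.ofReal M := by
              have e1 : ((n : ℝ) + 1) * ((P : ℝ) + 1) = (((n + 1) * (P + 1) : ℕ) : ℝ) := by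
                push_cast
                ring
              rw [e1]
              have e2 := ENNReal.ofReal_mul (p := (((n + 1) * (P + 1) : ℕ) : ℝ)) (q := M)
                (Nat.cast_nonneg _)
              rw [ENNReal.ofReal_natCast] at e2
              exact e2
            rw [Finset.sum_const, Finset.sum_const, Finset.card_range, Finset.card_range,
              smul_smul, nsmul_eq_mul, e]
    · have h2 : B n = ∅ := by
        ext ω
        simp only [hB, Set.mem_ofPred_eq, hn, false_and, Set.mem_empty_iff_false]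
      rw [h2, measure_empty]
      exact bot_le
  have hsum : (∑' n, mz z (B n)) ≠ ⊤ :=
    ne_top_of_le_ne_top (rz_num P).tsum_ofReal_ne_top (ENNReal.tsum_le_tsum hBle)
  have hae := ae_eventually_notMem hsum
  filter_upwards [hae] with ω h1
  filter_upwards [h1, eventually_ge_atTop n0] with n h2 hn G hG hm hf hcard
  obtain ⟨-, hZn, h8⟩ := hn0 n hn
  -- pigeonhole
  have hmap : ∀ m ∈ (Msq ω (L n) (Z n)).filter (fun m => m % 2 = n % 2),
      m % (P + 1) ∈ Finset.range (P + 1) := fun m _ =>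
    Finset.mem_range.2 (Nat.mod_lt _ (by omega))
  have hmul : (Finset.range (P + 1)).card * (2 ^ (Main_F n / 4) / (P + 1)) ≤
      ((Msq ω (L n) (Z n)).filter (fun m => m % 2 = n % 2)).card := by
    rw [Finset.card_range]
    exact (Nat.mul_div_le _ _).trans hcard
  obtain ⟨j, hj, hj2⟩ := Finset.exists_le_card_fiber_of_mul_le_card_of_maps_to hmap
    ⟨0, Finset.mem_range.2 (by omega)⟩ hmul
  have htr := rz_trials (L := L n) (P := P) (j := j) hZn h8 hm hf
  rw [Finset.filter_filter] at hj2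
  have hN := hj2.trans htr
  have hgood : 2 ^ (Main_F n / 5) ≤ ((Finset.Ico (n + 1) (n ^ 2)).filter
      (fun y => Rt P n (L n) (Z n) j ω y ∧ Rg P (c G) ω y)).card := by
    by_contra hlt
    push Not at hlt
    refine h2 ⟨hn, ?_⟩
    simp only [Set.mem_iUnion]
    exact ⟨G, Finset.mem_range.2 (by omega), j, hj, hN, hlt⟩
  refine hgood.trans ((rz_good (c G)).trans (Finset.card_le_card ?_))
  intro m hmm
  obtain ⟨hm1, hm2, hm3⟩ := Finset.mem_filter.1 hmm
  refine Finset.mem_filter.2 ⟨hm1, hm2, fun r hr => ?_⟩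
  refine hc2 G (n - m) ?_ _ r hm3 hr
  have he : Even (n - m) := by
    rcases Nat.le_total m n with h | h
    · rw [Nat.even_iff]
      omega
    · rw [Nat.sub_eq_zero_of_le h]
      exact Even.zero
  exact he.mul_left G

end Pool.Agent.RG88.S93
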