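import Pool.Agent.RG88.Blk
import Pool.Agent.RG88.RzDep
import Pool.Agent.RG88.RzCnt
import Pool.Agent.RG88.RzPr
import Pool.Agent.RG88.RzN
import Pool.Agent.RG88.Cop
import Pool.Agent.RG88.ReszS93

/-!
# Many `m` with `r(n - m)` prime to `P`

`P = primorial z`. For every `G` let `c k` be a class of `good_class` for `x = G k` if `G k` is even, for `x = 0` otherwise
(`choose`). For `n` large, `G ≤ n`, `j ≤ P`: `blk` with `l = P` (`P ≥ 1`), `u = n + 1`, `v = n²`, `T = Rt P n L Z j`, `Rg P c`,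
`p = 1/(log n)²` (`rg_pr`), number of trials `2^(f/4)/(P+1)`, `t = 2^(f/5)`, `f = Main_F n`. Union over `G` and `j`: at most
the term of `rz_num`; Borel-Cantelli. Then for `ω` as in the statement: some `j ≤ P` has at least `2^(f/4)/(P+1)` elements
`m` (pigeonhole), so at least `2^(f/4)/(P+1)` trials (`rz_trials`), so at least `2^(f/5)` good ones, hence (`rz_good`)
`m` with `elt ω (n - m) % P = c (n - m)`; `n - m` is even, so `G (n - m)` is even, and these `m` are in `Kz` (`good_class`).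
-/

set_option autoImplicit false

namespace Pool.Agent.RG88

open MeasureTheory Filter Pool.Agent.RS88

open Classical in
theorem resz (z : ℕ) (L Z : ℕ → ℕ) (hZ : ∀ᶠ n : ℕ in atTop, 4 * Z n ≤ n) :
    ∀ᵐ ω ∂(mz z), ∀ᶠ n : ℕ in atTop, ∀ G ≤ n,
      n < ct ω (n ^ 2) → 2 * ct ω (n + 1) ≤ n →
      2 ^ (Main_F n / 4) ≤ ((Msq ω (L n) (Z n)).filter (fun m => m % 2 = n % 2)).card →
      2 ^ (Main_F n / 5) ≤ (Kz (primorial z) G n (L n) (Z n) ω).card :=
  S93.resz z L Z hZ

end Pool.Agent.RG88
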