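import Pool.Agent.RG88.MainZS90
import Pool.Agent.RG88.MFz
import Pool.Agent.RG88.Resz
import Pool.Agent.RG88.Case
import Pool.Agent.RG88.CntZ
import Pool.Agent.RS88.Slope
import Pool.Agent.RS88.Main

/-!
# Assembly

As `main` in RS88/Main (copy it): `concz`, `mfz z 0`, `mfz z 1` (for `f` and for `16 f`), `resz` (for `(2^f/f, 2^(5f))` and for
`(2^(16f)/(16f), 2^(80f))`), `badz_le` with `sum_numz` (Borel-Cantelli), `T = 2^(f/5 - f/8)`. `G = elt ω n / n` (case A) or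
`elt ω n / n - 1` (case B), `G ≤ n` as `elt ω n < n²` (`elt_lt`). `caseA`/`caseB` for `M = Kz ..` gives at least
`2^(f/5)/2^(f/8)` residues, all prime to `P` by `caseA_id`/`caseB_id`; `caseA`/`caseB` for `M = Msq ..` gives `Z < res ≤ n`.
-/

set_option autoImplicit false

namespace Pool.Agent.RG88

open MeasureTheory Filter Pool.Agent.RS88

theorem mainz (z : ℕ) : ∀ᵐ ω ∂(mz z), ∀ᶠ n : ℕ in atTop, ∃ k m : ℕ, 2 ≤ k ∧ 2 ≤ m ∧ k + m = n ∧
    ω (res ω k) = true ∧ IsSquare (res ω m) :=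
  S90.mainz z

end Pool.Agent.RG88
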