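import Pool.Agent.RG88.MFz
import Pool.Agent.RG88.Resz
import Pool.Agent.RG88.Case
import Pool.Agent.RG88.CntZ
import Pool.Agent.RS88.Slope
import Pool.Agent.RS88.Main

/-!
# Assembly (sieved coins)
-/

set_option autoImplicit false

namespace Pool.Agent.RG88.S90

open MeasureTheory Filter Pool.Agent.RS88

/-- Borel-Cantelli -/
theorem bcz (z : ℕ) (L Z : ℕ → ℕ) (hZ : ∀ n, 2 ^ 320 ≤ n → 4 * Z n ≤ n ∧ 3 ≤ Z n) :
    ∀ᵐ ω ∂(mz z), ∀ᶠ n : ℕ in atTop,
      ω ∉ Badz (primorial z) n (L n) (Z n) (2 ^ (Main_F n / 5 - Main_F n / 8)) := by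
  have hs : Summable fun n : ℕ => (mz z).real
      {ω | 2 ^ 320 ≤ n ∧
        ω ∈ Badz (primorial z) n (L n) (Z n) (2 ^ (Main_F n / 5 - Main_F n / 8))} := by
    refine Summable.of_nonneg_of_le (fun n => measureReal_nonneg) (fun n => ?_) sum_numz.abs
    by_cases hn : 2 ^ 320 ≤ n
    · refine le_trans (measureReal_mono (fun ω hω => hω.2) (measure_ne_top _ _)) ?_
      exact (badz_le z (hZ n hn).1 (hZ n hn).2).trans (le_abs_self _)
    · have e : {ω | 2 ^ 320 ≤ n ∧
          ω ∈ Badz (primorial z) n (L n) (Z n) (2 ^ (Main_F n / 5 - Main_F n / 8))} = ∅ :=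
        Set.eq_empty_of_forall_notMem fun ω hω => hn hω.1
      rw [e, measureReal_empty]
      exact abs_nonneg _
  have h1 := ae_eventually_notMem (μ := mz z)
    (s := fun n : ℕ => {ω | 2 ^ 320 ≤ n ∧
      ω ∈ Badz (primorial z) n (L n) (Z n) (2 ^ (Main_F n / 5 - Main_F n / 8))}) (by
      have h2 := hs.tsum_ofReal_ne_top
      have h3 : ∑' n : ℕ, ENNReal.ofReal ((mz z).real
          {ω | 2 ^ 320 ≤ n ∧
            ω ∈ Badz (primorial z) n (L n) (Z n) (2 ^ (Main_F n / 5 - Main_F n / 8))}) =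
          ∑' n : ℕ, (mz z)
            {ω | 2 ^ 320 ≤ n ∧
              ω ∈ Badz (primorial z) n (L n) (Z n) (2 ^ (Main_F n / 5 - Main_F n / 8))} :=
        tsum_congr fun n => ENNReal.ofReal_toReal (measure_ne_top (mz z) _)
      rw [← h3]
      exact h2)
  filter_upwards [h1] with ω hω
  filter_upwards [hω, eventually_ge_atTop (2 ^ 320)] with n hn h2 h3
  exact hn ⟨h2, h3⟩

theorem pickz {ω : ℕ → Bool} {P f n L Z G : ℕ} (hS : Slp f n ω)
    (hcard : 2 ^ (f / 5) ≤ (Kz P G n L Z ω).card)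
    (hres : ∀ m ∈ Msq ω L Z, Z < res ω (n - m) ∧ res ω (n - m) ≤ n)
    (hid : ∀ m ∈ Msq ω L Z, elt ω (n - m) = G * (n - m) + res ω (n - m))
    (himg : (Kz P G n L Z ω).card ≤
      2 ^ (f / 8) * ((Kz P G n L Z ω).image (fun m => res ω (n - m))).card)
    (hb : ω ∉ Badz P n L Z (2 ^ (f / 5 - f / 8))) (hL : 2 ≤ L) (hZ : 4 * Z ≤ n) (h3 : 3 ≤ Z) :
    ∃ k m : ℕ, 2 ≤ k ∧ 2 ≤ m ∧ k + m = n ∧ ω (res ω k) = true ∧ IsSquare (res ω m) := by
  classical
  have hT : 2 ^ (f / 5 - f / 8) ≤ ((Kz P G n L Z ω).image (fun m => res ω (n - m))).card := by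
    have h1 : 2 ^ (f / 8) * 2 ^ (f / 5 - f / 8) ≤
        2 ^ (f / 8) * ((Kz P G n L Z ω).image (fun m => res ω (n - m))).card := by
      rw [← pow_add, show f / 8 + (f / 5 - f / 8) = f / 5 by omega]
      exact hcard.trans himg
    exact Nat.le_of_mul_le_mul_left h1 (by positivity)
  have hsub : (Kz P G n L Z ω).image (fun m => res ω (n - m)) ⊆
      ((Msq ω L Z).image (fun m => res ω (n - m))).filter (fun i => i.Coprime P) := by
    intro r hr
    rw [Finset.mem_image] at hr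
    obtain ⟨m, hm, rfl⟩ := hr
    unfold Kz at hm
    rw [Finset.mem_filter] at hm
    rw [Finset.mem_filter]
    exact ⟨Finset.mem_image_of_mem _ hm.1, hm.2.2 _ (hid m hm.1)⟩
  have hT' := hT.trans (Finset.card_le_card hsub)
  have hex : ∃ m ∈ Msq ω L Z, ω (res ω (n - m)) = true := by
    by_contra hcon
    push Not at hcon
    refine hb ⟨hS.many, hS.few, ?_, fun m hm => ⟨(hres m hm).1, (hres m hm).2, fun _ => by
      simpa using hcon m hm⟩⟩
    exact le_trans hT' (le_of_eq (by congr!))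
  obtain ⟨m, hm, hω⟩ := hex
  have hm' := hm
  unfold Msq at hm'
  rw [Finset.mem_filter, Finset.mem_range] at hm'
  exact ⟨n - m, m, by omega, by omega, by omega, hω, hm'.2.2.2.2⟩

theorem mainz (z : ℕ) : ∀ᵐ ω ∂(mz z), ∀ᶠ n : ℕ in atTop, ∃ k m : ℕ, 2 ≤ k ∧ 2 ≤ m ∧ k + m = n ∧
    ω (res ω k) = true ∧ IsSquare (res ω m) := by
  classical
  have hZ2 : ∀ c, 2 ≤ c → c ≤ 80 → ∀ n, 2 ^ 320 ≤ n →
      4 * 2 ^ (c * Main_F n) ≤ n ∧ 3 ≤ 2 ^ (c * Main_F n) := by
    intro c hc2 hc n hn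
    have h1 : 1 ≤ Main_F n := Main_ge hn
    have h2 := Main_lo (n := n) (le_trans Nat.one_le_two_pow hn)
    constructor
    · refine le_trans ?_ h2
      rw [show (4 : ℕ) = 2 ^ 2 by norm_num, ← pow_add]
      exact Nat.pow_le_pow_right (by norm_num) (by nlinarith)
    · calc 3 ≤ 2 ^ 2 := by norm_num
        _ ≤ 2 ^ (c * Main_F n) := Nat.pow_le_pow_right (by norm_num) (by nlinarith)
  have b1 := bcz z (fun n => 2 ^ Main_F n / Main_F n) (fun n => 2 ^ (5 * Main_F n))
    (hZ2 5 (by norm_num) (by norm_num))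
  have b2 := bcz z (fun n => 2 ^ (16 * Main_F n) / (16 * Main_F n))
    (fun n => 2 ^ (80 * Main_F n)) (hZ2 80 (by norm_num) (by norm_num))
  have r1 := resz z (fun n => 2 ^ Main_F n / Main_F n) (fun n => 2 ^ (5 * Main_F n))
    ((eventually_ge_atTop (2 ^ 320)).mono fun n hn => (hZ2 5 (by norm_num) (by norm_num) n hn).1)
  have r2 := resz z (fun n => 2 ^ (16 * Main_F n) / (16 * Main_F n))
    (fun n => 2 ^ (80 * Main_F n))
    ((eventually_ge_atTop (2 ^ 320)).mono fun n hn => (hZ2 80 (by norm_num) (by norm_num) n hn).1)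
  filter_upwards [concz z, mfz z 0, mfz z 1, b1, b2, r1, r2] with ω hc hm0 hm1 hb1 hb2 hr1 hr2
  filter_upwards [Main_tend.eventually hc, Main_tend.eventually hm0, Main_tend.eventually hm1,
    Main_tend16.eventually hm0, Main_tend16.eventually hm1,
    Main_tend.eventually slope, Main_tend.eventually caseA, Main_tend.eventually caseB,
    Main_tend.eventually caseA_id, Main_tend.eventually caseB_id, hb1, hb2, hr1, hr2,
    eventually_ge_atTop (2 ^ 320)] with n g1 g20 g21 g30 g31 g4 g5 g6 g5i g6i g7 g8 q1 q2 g9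
  have hf1 : 1 ≤ Main_F n := Main_ge g9
  have hlo := Main_lo (n := n) (le_trans Nat.one_le_two_pow g9)
  have hn1 : 1 ≤ n := le_trans Nat.one_le_two_pow g9
  have hS := g4 ω n g1 hlo (Main_hi n)
  have hGn : elt ω n / n ≤ n := by
    have h1 := elt_lt (ω := ω) hn1 hS.many.le
    have h2 : elt ω n ≤ n * n := by
      rw [← pow_two]
      exact h1.le
    exact Nat.div_le_of_le_mul h2
  have hmem : ∀ L Z m, m ∈ Msq ω L Z → L ≤ m ∧ m ≤ Z := by
    intro L Z m hm
    unfold Msq at hm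
    rw [Finset.mem_filter, Finset.mem_range] at hm
    exact ⟨hm.2.1, by omega⟩
  have hKz : ∀ G L Z m, m ∈ Kz (primorial z) G n L Z ω → m ∈ Msq ω L Z := by
    intro G L Z m hm
    unfold Kz at hm
    exact (Finset.mem_filter.1 hm).1
  rcases Nat.lt_or_ge (2 ^ (15 * Main_F n)) (elt ω n % n) with h | h
  · have hpar : 2 ^ (Main_F n / 4) ≤ ((Msq ω (2 ^ Main_F n / Main_F n)
        (2 ^ (5 * Main_F n))).filter (fun m => m % 2 = n % 2)).card := by
      rcases Nat.mod_two_eq_zero_or_one n with e | e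
      · rw [e]
        exact le_trans g20 (le_of_eq (by congr!))
      · rw [e]
        exact le_trans g21 (le_of_eq (by congr!))
    have hK := q1 (elt ω n / n) hGn hS.many hS.few (le_trans hpar (le_of_eq (by congr!)))
    obtain ⟨k1, -⟩ := g5 ω n (Msq ω (2 ^ Main_F n / Main_F n) (2 ^ (5 * Main_F n))) hlo hS h
      (fun m hm => hmem _ _ m hm)
    obtain ⟨-, k2⟩ := g5 ω n (Kz (primorial z) (elt ω n / n) n (2 ^ Main_F n / Main_F n)
      (2 ^ (5 * Main_F n)) ω) hlo hS h (fun m hm => hmem _ _ m (hKz _ _ _ m hm))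
    refine pickz hS hK k1 (fun m hm => g5i ω n m hlo hS h (hmem _ _ m hm).1 (hmem _ _ m hm).2)
      k2 g7 ?_ (hZ2 5 (by norm_num) (by norm_num) n g9).1
      (hZ2 5 (by norm_num) (by norm_num) n g9).2
    rw [Nat.le_div_iff_mul_le (by omega)]
    exact Main_two hf1
  · have hpar : 2 ^ (Main_F n / 4) ≤ ((Msq ω (2 ^ (16 * Main_F n) / (16 * Main_F n))
        (2 ^ (80 * Main_F n))).filter (fun m => m % 2 = n % 2)).card := by
      have e80 : 5 * (16 * Main_F n) = 80 * Main_F n := by ring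
      rw [e80] at g30 g31
      have e4 : 2 ^ (Main_F n / 4) ≤ 2 ^ (16 * Main_F n / 4) :=
        Nat.pow_le_pow_right (by norm_num) (by omega)
      rcases Nat.mod_two_eq_zero_or_one n with e | e
      · rw [e]
        exact (e4.trans g30).trans (le_of_eq (by congr!))
      · rw [e]
        exact (e4.trans g31).trans (le_of_eq (by congr!))
    have hK := q2 (elt ω n / n - 1) ((Nat.sub_le _ _).trans hGn) hS.many hS.few
      (le_trans hpar (le_of_eq (by congr!)))
    obtain ⟨k1, -⟩ := g6 ω n (Msq ω (2 ^ (16 * Main_F n) / (16 * Main_F n))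
      (2 ^ (80 * Main_F n))) hlo hS h (fun m hm => hmem _ _ m hm)
    obtain ⟨-, k2⟩ := g6 ω n (Kz (primorial z) (elt ω n / n - 1) n
      (2 ^ (16 * Main_F n) / (16 * Main_F n)) (2 ^ (80 * Main_F n)) ω) hlo hS h
      (fun m hm => hmem _ _ m (hKz _ _ _ m hm))
    refine pickz hS hK k1 (fun m hm => g6i ω n m hlo hS h (hmem _ _ m hm).1 (hmem _ _ m hm).2)
      k2 g8 ?_ (hZ2 80 (by norm_num) (by norm_num) n g9).1
      (hZ2 80 (by norm_num) (by norm_num) n g9).2
    rw [Nat.le_div_iff_mul_le (by omega)]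
    exact Main_two (by omega)

end Pool.Agent.RG88.S90
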