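import Pool.Agent.RG88.CopCnt

/-!
# The mean number of elements in an interval

For large `f`, `log (2^(f/8)) ≥ mert z`, so `pz_eq` holds for all `m ≥ u`. With `M = mert z`, `P = primorial z`,
`Σ pz ≤ M/log u * ((v-u)/M + P) = (v-u)/log u + M P/log u` (`cop_count`), `Σ pz ≥ M/log v * ((v-u)/M - P)`, and
`M P ≤ (v-u)/(2 f²)` as `v - u ≥ 2^(f/8)` and `f` is large.
-/

set_option autoImplicit false

namespace Pool.Agent.RG88

open MeasureTheory Filter Pool.Agent.RS88

theorem mean_growth94 {C : ℝ} (hC : 0 < C) :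
    ∀ᶠ f : ℕ in atTop, 2 * (f : ℝ) ^ 2 * C ≤ 2 ^ (f / 8) := by
  have h1 : Tendsto (fun n : ℕ => (n : ℝ) ^ 2 / (2 : ℝ) ^ n) atTop (nhds 0) :=
    tendsto_pow_const_div_const_pow_of_one_lt 2 (by norm_num)
  have h2 : ∀ᶠ n : ℕ in atTop, (n : ℝ) ^ 2 / (2 : ℝ) ^ n < 1 / (512 * C) :=
    h1.eventually (gt_mem_nhds (by positivity))
  have h3 : Tendsto (fun f : ℕ => f / 8) atTop atTop := Nat.tendsto_div_const_atTop (by norm_num)
  have h4 := h3.eventually (h2.and (eventually_ge_atTop 1))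
  filter_upwards [h4] with f hf
  obtain ⟨h5, h6⟩ := hf
  have h7 : (1 : ℝ) ≤ ((f / 8 : ℕ) : ℝ) := by exact_mod_cast h6
  have h8 : (f : ℝ) ≤ 8 * ((f / 8 : ℕ) : ℝ) + 8 := by
    have : f ≤ 8 * (f / 8) + 8 := by omega
    exact_mod_cast this
  have h9 : (f : ℝ) ≤ 16 * ((f / 8 : ℕ) : ℝ) := by linarith
  have h10 : (f : ℝ) ^ 2 ≤ 256 * ((f / 8 : ℕ) : ℝ) ^ 2 := by
    have h0 : (0 : ℝ) ≤ f := Nat.cast_nonneg f
    nlinarith
  rw [div_lt_div_iff₀ (by positivity) (by positivity)] at h5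
  nlinarith

theorem mean_z (z : ℕ) : ∀ᶠ f : ℕ in atTop, ∀ u v : ℕ, u < v → 2 ^ (f / 8) ≤ u →
    2 ^ (f / 8) ≤ v - u →
    (1 - 1 / (2 * (f : ℝ) ^ 2)) * (((v : ℝ) - u) / Real.log v) ≤ ∑ m ∈ Finset.Ico u v, pz z m ∧
      ∑ m ∈ Finset.Ico u v, pz z m ≤
        (1 + 1 / (2 * (f : ℝ) ^ 2)) * (((v : ℝ) - u) / Real.log u) := by
  classical
  have hM1 : 1 ≤ Pool.Agent.GM53.mert z := one_le_mert z
  have hP : (0 : ℝ) < (primorial z : ℝ) := by exact_mod_cast primorial_pos z
  obtain ⟨M, hM⟩ : ∃ M, M = Pool.Agent.GM53.mert z := ⟨_, rfl⟩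
  rw [← hM] at hM1
  have hM0 : 0 < M := by linarith
  have h3 : Tendsto (fun f : ℕ => f / 8) atTop atTop := Nat.tendsto_div_const_atTop (by norm_num)
  have hl : ∀ᶠ f : ℕ in atTop, M ≤ ((f / 8 : ℕ) : ℝ) * Real.log 2 := by
    have h4 : Tendsto (fun f : ℕ => ((f / 8 : ℕ) : ℝ) * Real.log 2) atTop atTop :=
      (tendsto_natCast_atTop_atTop.comp h3).atTop_mul_const (Real.log_pos (by norm_num))
    exact h4.eventually (eventually_ge_atTop M)
  filter_upwards [mean_growth94 (mul_pos hM0 hP), hl, eventually_ge_atTop 16] with f hg hlf hf16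
  intro u v huv hu hv
  have hf : (0 : ℝ) < f := by
    have : 0 < f := by omega
    exact_mod_cast this
  have hL3 : 3 ≤ 2 ^ (f / 8) := by
    have : 2 ≤ f / 8 := by omega
    calc 3 ≤ 2 ^ 2 := by norm_num
      _ ≤ 2 ^ (f / 8) := Nat.pow_le_pow_right (by norm_num) this
  have hu3 : 3 ≤ u := hL3.trans hu
  have huR : (3 : ℝ) ≤ u := by exact_mod_cast hu3
  have huvR : (u : ℝ) < v := by exact_mod_cast huv
  have hd : (2 : ℝ) ^ (f / 8) ≤ (v : ℝ) - u := by
    have : ((2 ^ (f / 8) : ℕ) : ℝ) ≤ ((v - u : ℕ) : ℝ) := by exact_mod_cast hv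
    rw [Nat.cast_sub huv.le] at this
    push_cast at this
    exact this
  have hlogL : M ≤ Real.log u := by
    have h5 : Real.log ((2 : ℝ) ^ (f / 8)) ≤ Real.log u := by
      apply Real.log_le_log (by positivity)
      exact_mod_cast hu
    rw [Real.log_pow] at h5
    linarith
  have hlu : 0 < Real.log u := by linarith
  have hlv : 0 < Real.log v := hlu.trans_le (Real.log_le_log (by linarith) huvR.le)
  have hsum : ∑ m ∈ Finset.Ico u v, pz z m =
      ∑ m ∈ (Finset.Ico u v).filter (fun m => m.Coprime (primorial z)), M / Real.log m := by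
    rw [Finset.sum_filter]
    refine Finset.sum_congr rfl fun m hm => ?_
    rw [Finset.mem_Ico] at hm
    have hmu : (u : ℝ) ≤ m := by exact_mod_cast hm.1
    rw [hM]
    refine pz_eq (hu3.trans hm.1) ?_
    rw [← hM]
    exact hlogL.trans (Real.log_le_log (by linarith) hmu)
  have hcc := cop_count z huv.le
  rw [← hM] at hcc
  obtain ⟨hc1, hc2⟩ := abs_le.1 hcc
  set N : ℝ := (((Finset.Ico u v).filter (fun m => m.Coprime (primorial z))).card : ℝ) with hN
  have hMN1 : ((v : ℝ) - u) - M * primorial z ≤ M * N := by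
    have h5 : ((v : ℝ) - u) / M - primorial z ≤ N := by linarith
    have h6 := mul_le_mul_of_nonneg_left h5 hM0.le
    rw [mul_sub, mul_div_cancel₀ _ hM0.ne'] at h6
    exact h6
  have hMN2 : M * N ≤ ((v : ℝ) - u) + M * primorial z := by
    have h5 : N ≤ ((v : ℝ) - u) / M + primorial z := by linarith
    have h6 := mul_le_mul_of_nonneg_left h5 hM0.le
    rw [mul_add, mul_div_cancel₀ _ hM0.ne'] at h6
    exact h6
  have herr : M * primorial z ≤ 1 / (2 * (f : ℝ) ^ 2) * ((v : ℝ) - u) := by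
    rw [one_div, inv_mul_eq_div, le_div_iff₀ (by positivity)]
    linarith
  rw [hsum]
  constructor
  · have h5 : N * (M / Real.log v) ≤
        ∑ m ∈ (Finset.Ico u v).filter (fun m => m.Coprime (primorial z)), M / Real.log m := by
      rw [hN, ← nsmul_eq_mul]
      refine Finset.card_nsmul_le_sum _ _ _ fun m hm => ?_
      rw [Finset.mem_filter, Finset.mem_Ico] at hm
      have hmu : (u : ℝ) ≤ m := by exact_mod_cast hm.1.1
      have hmv : (m : ℝ) ≤ v := by exact_mod_cast hm.1.2.le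
      have hlm : 0 < Real.log m := hlu.trans_le (Real.log_le_log (by linarith) hmu)
      exact div_le_div_of_nonneg_left hM0.le hlm (Real.log_le_log (by linarith) hmv)
    refine le_trans ?_ h5
    rw [mul_div_assoc', mul_div_assoc', div_le_div_iff_of_pos_right hlv]
    linarith
  · have h5 : ∑ m ∈ (Finset.Ico u v).filter (fun m => m.Coprime (primorial z)),
        M / Real.log m ≤ N * (M / Real.log u) := by
      rw [hN, ← nsmul_eq_mul]
      refine Finset.sum_le_card_nsmul _ _ _ fun m hm => ?_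
      rw [Finset.mem_filter, Finset.mem_Ico] at hm
      have hmu : (u : ℝ) ≤ m := by exact_mod_cast hm.1.1
      exact div_le_div_of_nonneg_left hM0.le hlu (Real.log_le_log (by linarith) hmu)
    refine h5.trans ?_
    rw [mul_div_assoc', mul_div_assoc', div_le_div_iff_of_pos_right hlu]
    linarith

end Pool.Agent.RG88
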